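import Mathlib

/-!
Log forms with bounded-degree coefficients: definitions.

`Pol k M` is the polynomial ring in `M` variables; the active variables are given by
`a : Fin n → Fin M` (the others are parameters).  The variable that is eliminated is `X 0` of
`Pol k (M+1)`, through `finSuccEquiv`.
-/

open MvPolynomial

namespace LF

universe u

variable (k : Type u) [Field k]

/-- polynomials in `M` variables -/
abbrev Pol (M : ℕ) := MvPolynomial (Fin M) k

/-- rational functions in `M` variables -/
abbrev Fr (M : ℕ) := FractionRing (Pol k M)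

variable {k}

/-- the log-gradient of `f` with respect to the active variables, at the place `θ` -/
noncomputable def lr {M n : ℕ} {L : Type u} [Field L] (θ : Pol k M →+* L) (a : Fin n → Fin M)
    (f : Pol k M) : Fin n → L :=
  fun j => θ (pderiv (a j) f) / θ f

/-- the log-Jacobian `det (∂_j f_i / f_i)` at the place `θ` -/
noncomputable def J {M n : ℕ} {L : Type u} [Field L] (θ : Pol k M →+* L) (a : Fin n → Fin M)
    (f : Fin n → Pol k M) : L :=
  Matrix.det (Matrix.of fun i => lr θ a (f i))

variable (k) in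
/-- the span of the log-Jacobians of polynomials of degree at most `d` -/
noncomputable def PLs {M n : ℕ} (a : Fin n → Fin M) (d : ℕ) : Submodule k (Fr k M) :=
  Submodule.span k {x | ∃ f : Fin n → Pol k M, (∀ i, f i ≠ 0) ∧ (∀ i, (f i).totalDegree ≤ d) ∧
    x = J (algebraMap (Pol k M) (Fr k M)) a f}

/-- add the eliminated variable to the active ones -/
def up {M n : ℕ} (a : Fin n → Fin M) : Fin (n + 1) → Fin (M + 1) :=
  Fin.cons 0 (fun i => Fin.succ (a i))

/-- the constants of the elimination: `Pol k M → Pol k (M+1)` -/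
noncomputable def inc (M : ℕ) : Pol k M →+* Pol k (M + 1) :=
  (rename Fin.succ : Pol k M →ₐ[k] Pol k (M + 1)).toRingHom

/-- extend a place by the value `ζ` of the eliminated variable -/
noncomputable def ext {M : ℕ} {L : Type u} [Field L] (φ : Pol k M →+* L) (ζ : L) :
    Pol k (M + 1) →+* L :=
  (Polynomial.eval₂RingHom φ ζ).comp (finSuccEquiv k M).toRingEquiv.toRingHom

open Classical in
/-- the roots of `π` in the eliminated variable -/
noncomputable def rts {M : ℕ} {L : Type u} [Field L] (φ : Pol k M →+* L) (π : Pol k (M + 1)) :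
    Finset L :=
  ((finSuccEquiv k M π).map φ).roots.toFinset

/-- the determinant with first row `∇π` and rows the log-gradients of the `g i` -/
noncomputable def rho {M n : ℕ} {L : Type u} [Field L] (θ : Pol k (M + 1) →+* L)
    (a : Fin n → Fin M) (π : Pol k (M + 1)) (g : Fin n → Pol k (M + 1)) : L :=
  Matrix.det (Matrix.of (Fin.cons (fun j => θ (pderiv (up a j) π))
    (fun i => lr θ (up a) (g i)) : Fin (n + 1) → Fin (n + 1) → L))

/-- the trace of the residue of `J π g` along `π` -/
noncomputable def TR {M n : ℕ} {L : Type u} [Field L] (φ : Pol k M →+* L)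
    (a : Fin n → Fin M) (π : Pol k (M + 1)) (g : Fin n → Pol k (M + 1)) : L :=
  ∑ ζ ∈ rts φ π, rho (ext φ ζ) a π g / ext φ ζ (pderiv 0 π)

/-- the rational function `V` is regular at the place `θ` with value `y` -/
def HasVal {M : ℕ} {L : Type u} [Field L] (θ : Pol k M →+* L) (V : Fr k M) (y : L) : Prop :=
  ∃ U G : Pol k M, θ G ≠ 0 ∧ V * algebraMap _ _ G = algebraMap _ _ U ∧ y * θ G = θ U

/-- the kernel of the place is stable under the active derivations -/
def Stable {M n : ℕ} {L : Type u} [Field L] (θ : Pol k M →+* L) (a : Fin n → Fin M) : Prop :=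
  ∀ f, θ f = 0 → ∀ j, θ (pderiv (a j) f) = 0

/-- the kernel of the place contains no nonzero polynomial of degree at most `B` -/
def Thick {M : ℕ} {L : Type u} [Field L] (θ : Pol k M →+* L) (B : ℕ) : Prop :=
  ∀ f, f ≠ 0 → f.totalDegree ≤ B → θ f ≠ 0

variable (k) in
/-- **Statement of the Bass–Tate lemma** (helper8). -/
def BassTate (n d d' : ℕ) : Prop :=
  ∀ (M : ℕ) (a : Fin n → Fin M) (π : Pol k (M + 1)) (g : Fin n → Pol k (M + 1)),
    Irreducible π → 0 < (finSuccEquiv k M π).natDegree → (∀ i, ¬ π ∣ g i) →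
    π.totalDegree ≤ d → (∀ i, (g i).totalDegree ≤ d) →
    ∃ x ∈ PLs k a d', ∀ (Ω : Type u) [Field Ω] [IsAlgClosed Ω] (φ : Pol k M →+* Ω)
      (hφ : Function.Injective φ), TR φ a π g = IsFractionRing.lift hφ x

variable (k) in
/-- **Statement of the residue lemma** (helper6). -/
def TrRes (n d d' B : ℕ) : Prop :=
  ∀ (M : ℕ) (a : Fin n → Fin M) (π : Pol k (M + 1)),
    Irreducible π → 0 < (finSuccEquiv k M π).natDegree → π.totalDegree ≤ d →
    ∀ V ∈ PLs k (up a) d, ∃ x ∈ PLs k a d',
      (∀ U G : Pol k (M + 1), ¬ π ∣ G → V * algebraMap _ _ (π * G) = algebraMap _ _ U →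
        ∀ (Ω : Type u) [Field Ω] [IsAlgClosed Ω] (φ : Pol k M →+* Ω)
          (hφ : Function.Injective φ),
          IsFractionRing.lift hφ x =
            ∑ ζ ∈ rts φ π, ext φ ζ U / (ext φ ζ G * ext φ ζ (pderiv 0 π))) ∧
      (∀ (L : Type u) [Field L] (θ : Pol k (M + 1) →+* L), Stable θ (up a) → Thick θ B →
        HasVal θ V 0 → HasVal (θ.comp (inc M)) x 0)

variable (k) in
/-- **Statement of the main theorem I(n)** (helper6). -/
def MainI (n d B : ℕ) : Prop :=
  ∀ (M : ℕ) (a : Fin n → Fin M), Function.Injective a →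
    ∀ (L : Type u) [Field L] (θ : Pol k M →+* L), Stable θ a → Thick θ B →
      ∀ V ∈ PLs k a d, HasVal θ V 0 → V = 0

end LF
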