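import Pool.Agent.Helper6.LF.JLem

/-!
Basic facts on `finSuccEquiv`, `inc`, `ext`; pseudo-division; coprimality with constant Bezout
right-hand side.
-/

open MvPolynomial

namespace LF

universe u

variable {k : Type u} [Field k] {M n : ℕ} {L : Type u} [Field L]

/-- shorthand for `finSuccEquiv` -/
noncomputable abbrev fs (f : Pol k (M + 1)) : Polynomial (Pol k M) := finSuccEquiv k M f

theorem fs_inj {f g : Pol k (M + 1)} (h : fs f = fs g) : f = g := (finSuccEquiv k M).injective h

theorem fs_inc (f : Pol k M) : fs (inc M f) = Polynomial.C f := by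
  have : ((finSuccEquiv k M).toAlgHom.comp (rename Fin.succ : Pol k M →ₐ[k] Pol k (M + 1))) =
      (Polynomial.CAlgHom : Pol k M →ₐ[k] _) := by
    apply MvPolynomial.algHom_ext
    intro i
    simp [finSuccEquiv_X_succ]
  exact DFunLike.congr_fun this f

theorem inc_injective : Function.Injective (inc M : Pol k M →+* Pol k (M + 1)) :=
  rename_injective _ (Fin.succ_injective _)

theorem inc_ne {f : Pol k M} (h : f ≠ 0) : inc M f ≠ 0 := by
  intro h0
  exact h (inc_injective (by rw [h0, map_zero]))

theorem inc_C (c : k) : inc M (C c) = C c := by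
  simp [inc]

theorem inc_X (i : Fin M) : inc M (X i : Pol k M) = X i.succ := by
  simp [inc]

theorem ext_eq (φ : Pol k M →+* L) (ζ : L) (f : Pol k (M + 1)) :
    ext φ ζ f = ((fs f).map φ).eval ζ := by
  rw [Polynomial.eval_map]
  rfl

theorem ext_inc (φ : Pol k M →+* L) (ζ : L) (f : Pol k M) : ext φ ζ (inc M f) = φ f := by
  rw [ext_eq, fs_inc]; simp

theorem ext_X_zero (φ : Pol k M →+* L) (ζ : L) : ext φ ζ (X 0) = ζ := by
  rw [ext_eq]; unfold fs; rw [finSuccEquiv_X_zero]; simp

theorem ext_X_succ (φ : Pol k M →+* L) (ζ : L) (i : Fin M) : ext φ ζ (X i.succ) = φ (X i) := by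
  rw [ext_eq]; unfold fs; rw [finSuccEquiv_X_succ]; simp

theorem ext_C (φ : Pol k M →+* L) (ζ : L) (c : k) : ext φ ζ (C c) = φ (C c) := by
  rw [← inc_C, ext_inc]

/-- ring homs on `Pol k (M+1)` that agree on `inc` and `X 0` -/
theorem hom_ext_inc {R : Type*} [CommRing R] {f g : Pol k (M + 1) →+* R}
    (h : f.comp (inc M) = g.comp (inc M)) (h0 : f (X 0) = g (X 0)) : f = g := by
  apply MvPolynomial.ringHom_ext
  · intro c
    have := congrArg (fun F => F (C c)) h
    simpa [inc_C] using this
  · intro i
    refine Fin.cases h0 (fun j => ?_) i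
    have := congrArg (fun F => F (X j)) h
    simpa [inc_X] using this

/-! ### derivatives -/

theorem fs_pderiv_zero (f : Pol k (M + 1)) : fs (pderiv 0 f) = Polynomial.derivative (fs f) := by
  unfold fs
  ext i m
  rw [finSuccEquiv_coeff_coeff, coeff_pderiv, Polynomial.coeff_derivative]
  rw [show ((i : Pol k M) + 1) = C ((i : k) + 1) by simp]
  rw [mul_comm _ (C ((i : k) + 1)), coeff_C_mul, finSuccEquiv_coeff_coeff]
  rw [mul_comm]
  have h1 : (m.cons i : Fin (M + 1) →₀ ℕ) 0 = i := by simp
  have h2 : (m.cons i : Fin (M + 1) →₀ ℕ) + Finsupp.single 0 1 = m.cons (i + 1) := by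
    ext j
    refine Fin.cases ?_ (fun j => ?_) j
    · simp
    · simp
  rw [h1, h2]

theorem fs_pderiv_succ (j : Fin M) (f : Pol k (M + 1)) (i : ℕ) :
    (fs (pderiv j.succ f)).coeff i = pderiv j ((fs f).coeff i) := by
  unfold fs
  ext m
  rw [finSuccEquiv_coeff_coeff, coeff_pderiv, coeff_pderiv, finSuccEquiv_coeff_coeff]
  congr 1
  · congr 1
    ext l
    refine Fin.cases ?_ (fun l => ?_) l
    · simp [Finsupp.single_apply]
    · simp [Finsupp.single_apply]

theorem pderiv_zero_inc (f : Pol k M) : pderiv 0 (inc M f) = 0 := by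
  apply fs_inj
  rw [fs_pderiv_zero, fs_inc]; simp

theorem pderiv_succ_inc (j : Fin M) (f : Pol k M) :
    pderiv j.succ (inc M f) = inc M (pderiv j f) := by
  apply fs_inj
  ext1 i
  rw [fs_pderiv_succ, fs_inc, fs_inc, Polynomial.coeff_C, Polynomial.coeff_C]
  split_ifs <;> simp

theorem up_zero (a : Fin n → Fin M) : up a 0 = 0 := rfl

theorem up_succ (a : Fin n → Fin M) (i : Fin n) : up a i.succ = (a i).succ := by
  simp [up]

theorem up_injective {a : Fin n → Fin M} (ha : Function.Injective a) :
    Function.Injective (up a) := by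
  intro i j
  refine Fin.cases ?_ (fun i => ?_) i <;> refine Fin.cases ?_ (fun j => ?_) j
  · simp
  · intro h; rw [up_zero, up_succ] at h; exact absurd h.symm (Fin.succ_ne_zero _)
  · intro h; rw [up_zero, up_succ] at h; exact absurd h (Fin.succ_ne_zero _)
  · intro h; rw [up_succ, up_succ] at h
    rw [ha (Fin.succ_injective _ h)]

/-! ### degrees -/

theorem natDegree_fs_le (f : Pol k (M + 1)) : (fs f).natDegree ≤ f.totalDegree := by
  by_cases h : f = 0
  · subst h; simp
  · have h1 : (fs f).coeff (fs f).natDegree ≠ 0 := by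
      rw [Polynomial.coeff_natDegree, Polynomial.leadingCoeff_ne_zero]
      intro h0
      exact h (fs_inj (by rw [h0]; simp))
    have := totalDegree_coeff_finSuccEquiv_add_le f _ h1
    omega

theorem totalDegree_coeff_fs_le (f : Pol k (M + 1)) (i : ℕ) :
    ((fs f).coeff i).totalDegree ≤ f.totalDegree := by
  by_cases h : (fs f).coeff i = 0
  · rw [h]; simp
  · have := totalDegree_coeff_finSuccEquiv_add_le f _ h
    unfold fs
    omega

theorem totalDegree_inc (f : Pol k M) : (inc M f).totalDegree = f.totalDegree := by
  apply le_antisymm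
  · exact totalDegree_rename_le _ _
  · have := totalDegree_coeff_fs_le (inc M f) 0
    rwa [fs_inc, Polynomial.coeff_C_zero] at this

theorem fs_ne {f : Pol k (M + 1)} (h : f ≠ 0) : fs f ≠ 0 := by
  intro h0
  exact h (fs_inj (by rw [h0]; simp))

/-- constant in the eliminated variable -/
theorem exists_inc_of_natDegree {f : Pol k (M + 1)} (h : (fs f).natDegree = 0) :
    ∃ g, f = inc M g := by
  refine ⟨(fs f).coeff 0, fs_inj ?_⟩
  rw [fs_inc]
  exact Polynomial.eq_C_of_natDegree_eq_zero h

/-! ### pseudo-division -/

theorem pseudo_div {R : Type*} [CommRing R] [IsDomain R] (π : Polynomial R)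
    (hπ : 0 < π.natDegree) (g : Polynomial R) :
    ∃ (s : ℕ) (q r : Polynomial R), Polynomial.C (π.leadingCoeff ^ s) * g = π * q + r ∧
      r.natDegree < π.natDegree := by
  induction hm : g.natDegree using Nat.strong_induction_on generalizing g with
  | _ m ih =>
    by_cases hlt : g.natDegree < π.natDegree
    · exact ⟨0, 0, g, by simp, hlt⟩
    · push Not at hlt
      have hg0 : g ≠ 0 := by
        rintro rfl
        simp at hlt
        omega
      set g' : Polynomial R := Polynomial.C π.leadingCoeff * g -
        Polynomial.C g.leadingCoeff * Polynomial.X ^ (g.natDegree - π.natDegree) * π with hg'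
      have hdeg : g'.natDegree < g.natDegree := by
        have hle : g'.natDegree ≤ g.natDegree := by
          apply (Polynomial.natDegree_sub_le _ _).trans
          apply max_le
          · exact Polynomial.natDegree_C_mul_le _ _
          · rw [mul_assoc]
            apply (Polynomial.natDegree_C_mul_le _ _).trans
            apply (Polynomial.natDegree_mul_le).trans
            rw [Polynomial.natDegree_X_pow]
            omega
        have hco : g'.coeff g.natDegree = 0 := by
          rw [hg', Polynomial.coeff_sub, Polynomial.coeff_C_mul, mul_assoc,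
            Polynomial.coeff_C_mul, Polynomial.coeff_X_pow_mul']
          rw [if_pos (Nat.sub_le _ _)]
          have : g.natDegree - (g.natDegree - π.natDegree) = π.natDegree := by omega
          rw [this, Polynomial.coeff_natDegree, Polynomial.coeff_natDegree]
          ring
        rcases lt_or_eq_of_le hle with h | h
        · exact h
        · exfalso
          have h1 : g' = 0 := by
            rw [← Polynomial.leadingCoeff_eq_zero, Polynomial.leadingCoeff, h]
            exact hco
          rw [h1] at h
          simp at h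
          omega
      obtain ⟨s, q, r, h1, h2⟩ := ih g'.natDegree (by omega) g' rfl
      refine ⟨s + 1, Polynomial.C (π.leadingCoeff ^ s) * Polynomial.C g.leadingCoeff *
        Polynomial.X ^ (g.natDegree - π.natDegree) + q, r, ?_, h2⟩
      have : Polynomial.C (π.leadingCoeff ^ (s + 1)) * g =
          Polynomial.C (π.leadingCoeff ^ s) * g' + Polynomial.C (π.leadingCoeff ^ s) *
          (Polynomial.C g.leadingCoeff * Polynomial.X ^ (g.natDegree - π.natDegree) * π) := by
        rw [hg', pow_succ, Polynomial.C_mul]; ring
      rw [this, h1]; ring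

end LF
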