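import Pool.Agent.Helper6.LF.Val

/-!
Log-gradients, log-Jacobians, and the span `PLs`.
-/

open MvPolynomial

namespace LF

universe u

variable {k : Type u} [Field k] {M n : ℕ} {L : Type u} [Field L]

theorem lr_mul (θ : Pol k M →+* L) (a : Fin n → Fin M) {f g : Pol k M} (hf : θ f ≠ 0)
    (hg : θ g ≠ 0) : lr θ a (f * g) = lr θ a f + lr θ a g := by
  funext j
  simp only [lr, Pi.add_apply]
  rw [Derivation.leibniz, smul_eq_mul, smul_eq_mul, map_add, map_mul, map_mul, map_mul]
  field_simp
  ring

theorem lr_C (θ : Pol k M →+* L) (a : Fin n → Fin M) (c : k) :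
    lr θ a (C c) = 0 := by
  funext j
  simp [lr]

theorem lr_isUnit (θ : Pol k M →+* L) (a : Fin n → Fin M) {f : Pol k M} (hf : IsUnit f) :
    lr θ a f = 0 := by
  obtain ⟨c, hc, rfl⟩ := MvPolynomial.isUnit_iff_eq_C_of_isReduced.1 hf
  exact lr_C θ a c

theorem lr_associated (θ : Pol k M →+* L) (a : Fin n → Fin M) {f g : Pol k M}
    (h : Associated f g) (hf : θ f ≠ 0) : lr θ a f = lr θ a g := by
  obtain ⟨v, rfl⟩ := h
  have hv : θ (v : Pol k M) ≠ 0 := (v.isUnit.map θ).ne_zero
  rw [lr_mul θ a hf hv, lr_isUnit θ a v.isUnit, add_zero]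

/-! ### J as a function of one slot -/

theorem J_update_row (θ : Pol k M →+* L) (a : Fin n → Fin M) (f : Fin n → Pol k M) (i : Fin n)
    (g : Pol k M) :
    J θ a (Function.update f i g) =
      Matrix.det (Matrix.updateRow (Matrix.of fun i => lr θ a (f i)) i (lr θ a g)) := by
  unfold J
  congr 1
  ext i' j
  by_cases h : i' = i
  · subst h; simp
  · simp [h, Matrix.updateRow_apply]

theorem J_update_mul (θ : Pol k M →+* L) (a : Fin n → Fin M) (f : Fin n → Pol k M) (i : Fin n)
    {g h : Pol k M} (hg : θ g ≠ 0) (hh : θ h ≠ 0) :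
    J θ a (Function.update f i (g * h)) =
      J θ a (Function.update f i g) + J θ a (Function.update f i h) := by
  rw [J_update_row, J_update_row, J_update_row, lr_mul θ a hg hh, Matrix.det_updateRow_add]

theorem J_zero_of_unit (θ : Pol k M →+* L) (a : Fin n → Fin M) (f : Fin n → Pol k M) (i : Fin n)
    (h : IsUnit (f i)) : J θ a f = 0 := by
  apply Matrix.det_eq_zero_of_row_eq_zero i
  intro j
  show lr θ a (f i) j = 0
  rw [lr_isUnit θ a h]; rfl

theorem J_zero_of_associated (θ : Pol k M →+* L) (a : Fin n → Fin M) (f : Fin n → Pol k M)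
    {i j : Fin n} (hij : i ≠ j) (h : Associated (f i) (f j)) (h0 : θ (f i) ≠ 0) : J θ a f = 0 := by
  apply Matrix.det_zero_of_row_eq hij
  exact lr_associated θ a h h0

/-! ### PLs -/

theorem PLs_mono {a : Fin n → Fin M} {d d' : ℕ} (h : d ≤ d') : PLs k a d ≤ PLs k a d' := by
  apply Submodule.span_mono
  rintro x ⟨f, hf, hd, rfl⟩
  exact ⟨f, hf, fun i => (hd i).trans h, rfl⟩

theorem J_mem_PLs {a : Fin n → Fin M} {d : ℕ} {f : Fin n → Pol k M} (hf : ∀ i, f i ≠ 0)
    (hd : ∀ i, (f i).totalDegree ≤ d) :
    J (algebraMap (Pol k M) (Fr k M)) a f ∈ PLs k a d :=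
  Submodule.subset_span ⟨f, hf, hd, rfl⟩

theorem totalDegree_le_of_dvd {f g : Pol k M} (h : f ∣ g) (hg : g ≠ 0) :
    f.totalDegree ≤ g.totalDegree := by
  obtain ⟨v, rfl⟩ := h
  rw [totalDegree_mul_of_isDomain (left_ne_zero_of_mul hg) (right_ne_zero_of_mul hg)]
  omega

theorem J_mem_of_irr {a : Fin n → Fin M} {d : ℕ} (W : Submodule k (Fr k M))
    (h : ∀ q : Fin n → Pol k M, (∀ i, Irreducible (q i)) → (∀ i, (q i).totalDegree ≤ d) →
      J (algebraMap (Pol k M) (Fr k M)) a q ∈ W) (S : Finset (Fin n)) :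
    ∀ f : Fin n → Pol k M, (∀ i, f i ≠ 0) → (∀ i, (f i).totalDegree ≤ d) →
      (∀ i, i ∉ S → Irreducible (f i)) → J (algebraMap (Pol k M) (Fr k M)) a f ∈ W := by
  classical
  induction S using Finset.induction_on with
  | empty =>
    intro f _ hd hirr
    exact h f (fun i => hirr i (Finset.notMem_empty i)) hd
  | insert i₀ S hi₀ ih =>
    intro f hf hd hirr
    have key : ∀ g : Pol k M, g ≠ 0 → g.totalDegree ≤ d →
        J (algebraMap (Pol k M) (Fr k M)) a (Function.update f i₀ g) ∈ W := by
      intro g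
      induction g using WfDvdMonoid.induction_on_irreducible with
      | zero => intro h; exact absurd rfl h
      | unit g hg =>
        intro _ _
        rw [J_zero_of_unit _ _ _ i₀ (by simpa using hg)]
        exact W.zero_mem
      | mul g q hg hq ihg =>
        intro hqg hdeg
        have hg0 : g ≠ 0 := hg
        have hq0 : q ≠ 0 := hq.ne_zero
        rw [totalDegree_mul_of_isDomain hq0 hg0] at hdeg
        rw [J_update_mul _ _ _ _ (am_ne hq0) (am_ne hg0)]
        apply W.add_mem
        · apply ih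
          · intro i
            by_cases hi : i = i₀
            · subst hi; simpa using hq0
            · simpa [hi] using hf i
          · intro i
            by_cases hi : i = i₀
            · subst hi; simp; omega
            · simpa [hi] using hd i
          · intro i hi
            by_cases hi' : i = i₀
            · subst hi'; simpa using hq
            · rw [Function.update_of_ne hi']
              exact hirr i (by simp [hi', hi])
        · exact ihg hg0 (by omega)
    have := key (f i₀) (hf i₀) (hd i₀)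
    rwa [Function.update_eq_self] at this

theorem PLs_eq_span_irr (a : Fin n → Fin M) (d : ℕ) :
    PLs k a d = Submodule.span k {x | ∃ q : Fin n → Pol k M, (∀ i, Irreducible (q i)) ∧
      (∀ i, (q i).totalDegree ≤ d) ∧ x = J (algebraMap (Pol k M) (Fr k M)) a q} := by
  apply le_antisymm
  · apply Submodule.span_le.2
    rintro x ⟨f, hf, hd, rfl⟩
    apply J_mem_of_irr _ _ Finset.univ f hf hd
    · intro i hi; exact absurd (Finset.mem_univ i) hi
    · intro q hq hqd
      exact Submodule.subset_span ⟨q, hq, hqd, rfl⟩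
  · apply Submodule.span_mono
    rintro x ⟨q, hq, hqd, rfl⟩
    exact ⟨q, fun i => (hq i).ne_zero, hqd, rfl⟩

/-- the numerator of a log-Jacobian -/
theorem J_mul_prod (a : Fin n → Fin M) (f : Fin n → Pol k M) (hf : ∀ i, f i ≠ 0) :
    J (algebraMap (Pol k M) (Fr k M)) a f * algebraMap _ _ (∏ i, f i) =
      algebraMap (Pol k M) (Fr k M) (Matrix.det (Matrix.of fun i j => pderiv (a j) (f i))) := by
  have h1 : (algebraMap (Pol k M) (Fr k M)) (Matrix.det (Matrix.of fun i j => pderiv (a j) (f i))) =
      Matrix.det (Matrix.of fun i j => algebraMap (Pol k M) (Fr k M) (f i) *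
        (lr (algebraMap (Pol k M) (Fr k M)) a (f i) j)) := by
    rw [RingHom.map_det]
    congr 1
    ext i j
    simp only [RingHom.mapMatrix_apply, Matrix.map_apply, Matrix.of_apply, lr]
    have := am_ne (hf i)
    field_simp
  rw [h1]
  have h2 := Matrix.det_mul_column (fun i => algebraMap (Pol k M) (Fr k M) (f i))
    (Matrix.of fun i => lr (algebraMap (Pol k M) (Fr k M)) a (f i))
  rw [map_prod]
  unfold J
  rw [mul_comm]
  exact h2.symm

end LF
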