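import Pool.Agent.Helper6.LF.Res2

/-!
The local principle [L]: definitions and statements of the pieces.

`K` a field of characteristic 0, `O` a subring of `K`, `ρ : O → Ω` a ring map to a field,
`S t` (for `t : ℕ`) sets of subfields of `K`, relatively algebraically closed in `K`, contained in
`O` when `t ≤ T`.
-/

open MvPolynomial

namespace LF

universe u

variable {K : Type u} [Field K]

/-- the map from polynomials over a subfield -/
noncomputable abbrev mF (F : Subfield K) {N : ℕ} : Pol F N →+* Pol K N := MvPolynomial.map F.subtype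

/-- the map from polynomials over a subring -/
noncomputable abbrev mO (O : Subring K) {N : ℕ} : MvPolynomial (Fin N) O →+* Pol K N :=
  MvPolynomial.map O.subtype

/-- relatively algebraically closed subfield -/
def RelClosed (F : Subfield K) : Prop := ∀ x : K, IsAlgebraic F x → x ∈ F

/-- the family of subfields -/
structure Fam (O : Subring K) (T : ℕ) (S : ℕ → Set (Subfield K)) : Prop where
  closed : ∀ t F, F ∈ S t → RelClosed F
  le : ∀ t F, F ∈ S t → t ≤ T → F.toSubring ≤ O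
  sup : ∀ s t F F', F ∈ S s → F' ∈ S t → ∃ F'' ∈ S (s + t), F ≤ F'' ∧ F' ≤ F''

/-- the group generated by the log-Jacobians of polynomials over a field in `S t` -/
noncomputable def PL (S : ℕ → Set (Subfield K)) (N t : ℕ) : AddSubgroup (Fr K N) :=
  AddSubgroup.closure {x | ∃ F ∈ S t, ∃ f : Fin N → Pol F N, (∀ i, f i ≠ 0) ∧
    x = J (algebraMap (Pol K N) (Fr K N)) id (fun i => mF F (f i))}

/-- the maximal ideal: rational functions that reduce to `0` -/
def Mm {Ω : Type u} [Field Ω] {O : Subring K} (ρ : O →+* Ω) {N : ℕ} (V : Fr K N) : Prop :=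
  ∃ P Q : MvPolynomial (Fin N) O, MvPolynomial.map ρ Q ≠ 0 ∧ MvPolynomial.map ρ P = 0 ∧
    V * algebraMap _ _ (mO O Q) = algebraMap _ _ (mO O P)

/-- **Theorem L(N)** -/
def ThmL (K : Type u) [Field K] (N : ℕ) : Prop :=
  ∀ (Ω : Type u) [Field Ω] [CharZero Ω] (O : Subring K) (ρ : O →+* Ω) (T : ℕ)
    (S : ℕ → Set (Subfield K)), Fam O T S → ∀ t, 4 ^ N * t ≤ T →
    ∀ V ∈ PL S N t, Mm ρ V → V = 0

/-- **IRR** -/
def StIrr (K : Type u) [Field K] : Prop :=
  ∀ (F : Subfield K), RelClosed F → ∀ (N : ℕ) (q : Pol F N), Irreducible q → Irreducible (mF F q)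

/-- **RIG** (rigidity) -/
def StRig (K : Type u) [Field K] : Prop :=
  ∀ (F : Subfield K), RelClosed F → ∀ (N : ℕ) (W : Fr K N),
    W ∈ AddSubgroup.closure {x | ∃ g : Fin N → Pol K N, (∀ i, g i ≠ 0) ∧
      x = J (algebraMap (Pol K N) (Fr K N)) id g} →
    ∀ (χ : Pol F N) (P : Pol K N), χ ≠ 0 →
      W * algebraMap _ _ (mF F χ) = algebraMap _ _ P → ∃ P₀ : Pol F N, P = mF F P₀

/-- the substitution `λ = X 0 ↦ X s + μ X 0`, `w = X s ↦ X 0`, where `s = succ j` -/
noncomputable def tau {n : ℕ} (j : Fin n) (μ : ℕ) : Pol K (n + 1) →+* Pol K (n + 1) :=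
  (MvPolynomial.aeval (fun i : Fin (n + 1) =>
    if i = 0 then X j.succ + C (μ : K) * X 0 else if i = j.succ then X 0 else X i) :
      Pol K (n + 1) →ₐ[K] Pol K (n + 1)).toRingHom

/-- **CORE** (the analytic core of step 2) -/
def StCore (K : Type u) [Field K] : Prop :=
  ∀ (n : ℕ) (j : Fin n) (p₀ b : Pol K n) (χ r : Pol K (n + 1)), Irreducible p₀ →
    pderiv j p₀ ≠ 0 → ¬ p₀ ∣ b → (∃ c : K, (fs χ).leadingCoeff = C c) →
    (fs r).natDegree < (fs χ).natDegree →
    (∀ (μ : ℕ) (Ω : Type u) [Field Ω] [IsAlgClosed Ω] (φ : Pol K n →+* Ω),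
      Function.Injective φ → ∑ ζ ∈ rts φ (tau j μ (inc n p₀)), ext φ ζ (tau j μ r) /
        (ext φ ζ (tau j μ (inc n b * χ)) * ext φ ζ (pderiv 0 (tau j μ (inc n p₀)))) = 0) →
    inc n p₀ ∣ r

/-- the shear `X 0 ↦ X 0`, `X (succ i) ↦ X (succ i) + γ i X 0` -/
noncomputable def shear {n : ℕ} (γ : Fin n → ℕ) : Pol K (n + 1) →+* Pol K (n + 1) :=
  (MvPolynomial.aeval (Fin.cons (X 0) (fun i : Fin n => X i.succ + C (γ i : K) * X 0)) :
      Pol K (n + 1) →ₐ[K] Pol K (n + 1)).toRingHom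

/-- **NORM** (normalisation by a shear with natural coefficients, all variables active) -/
def StNorm (K : Type u) [Field K] : Prop :=
  ∀ (n : ℕ) (T : Finset (Pol K (n + 1))), (∀ f ∈ T, f ≠ 0) →
    ∃ γ : Fin n → ℕ, ∀ f ∈ T, ∃ c : K, (fs (shear γ f)).leadingCoeff = C c

/-- **TrRes** in the setting of [L] -/
def TrResL (K : Type u) [Field K] (n : ℕ) : Prop :=
  ∀ (Ω₀ : Type u) [Field Ω₀] [CharZero Ω₀] (O : Subring K) (ρ : O →+* Ω₀) (T : ℕ)
    (S : ℕ → Set (Subfield K)), Fam O T S → ∀ s t, s + t ≤ T → ∀ F ∈ S s,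
    ∀ π : Pol F (n + 1), Irreducible (mF F π) → 0 < (fs (mF F π)).natDegree →
    ∀ V ∈ PL S (n + 1) t, ∃ x ∈ PL S n (s + t),
      (∀ U G : Pol K (n + 1), ¬ mF F π ∣ G →
        V * algebraMap _ _ (mF F π * G) = algebraMap _ _ U →
        ∀ (Ω : Type u) [Field Ω] [IsAlgClosed Ω] (φ : Pol K n →+* Ω)
          (hφ : Function.Injective φ),
          IsFractionRing.lift hφ x =
            ∑ ζ ∈ rts φ (mF F π), ext φ ζ U / (ext φ ζ G * ext φ ζ (pderiv 0 (mF F π)))) ∧
      (Mm ρ V → Mm ρ x)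

end LF
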