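import Pool.Agent.Helper6.LF.LTz2
import Pool.Agent.Helper5.D4.Jac

/-!
Linear substitutions with integer unimodular matrices.
-/

open MvPolynomial

namespace LF

universe u

section ring

variable {R : Type*} [CommRing R] {N : ℕ}

/-- the linear substitution with an integer matrix -/
noncomputable def lins (A : Matrix (Fin N) (Fin N) ℤ) :
    MvPolynomial (Fin N) R →ₐ[R] MvPolynomial (Fin N) R :=
  aeval (fun l => ∑ i, C ((A l i : ℤ) : R) * X i)

theorem lins_X (A : Matrix (Fin N) (Fin N) ℤ) (l : Fin N) :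
    lins A (X l : MvPolynomial (Fin N) R) = ∑ i, C ((A l i : ℤ) : R) * X i := by
  unfold lins; rw [aeval_X]

theorem lins_map {S : Type*} [CommRing S] (e : R →+* S) (A : Matrix (Fin N) (Fin N) ℤ)
    (f : MvPolynomial (Fin N) R) :
    MvPolynomial.map e (lins A f) = lins A (MvPolynomial.map e f) := by
  induction f using MvPolynomial.induction_on with
  | C a =>
    have h1 : lins A (C a : MvPolynomial (Fin N) R) = C a := by
      unfold lins; rw [aeval_C]; rfl
    have h2 : lins A (C (e a) : MvPolynomial (Fin N) S) = C (e a) := by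
      unfold lins; rw [aeval_C]; rfl
    rw [h1, map_C, h2]
  | add p q hp hq => rw [map_add, map_add, map_add, map_add, hp, hq]
  | mul_X p j hp =>
    rw [map_mul, map_mul, map_mul, map_mul, hp, map_X, lins_X, lins_X, map_sum]
    congr 1
    apply Finset.sum_congr rfl
    intro i _
    rw [map_mul, map_C, map_X]
    simp

theorem lins_comp (A B : Matrix (Fin N) (Fin N) ℤ) (f : MvPolynomial (Fin N) R) :
    lins B (lins A f) = lins (A * B) f := by
  have : (lins B).comp (lins A) = (lins (A * B) : MvPolynomial (Fin N) R →ₐ[R] _) := by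
    apply MvPolynomial.algHom_ext
    intro l
    rw [AlgHom.comp_apply, lins_X, lins_X, map_sum]
    have h1 : ∀ i, lins B (C ((A l i : ℤ) : R) * X i) =
        ∑ j, C ((A l i : ℤ) : R) * (C ((B i j : ℤ) : R) * X j) := by
      intro i
      rw [map_mul, lins_X, Finset.mul_sum]
      have h2 : lins B (C ((A l i : ℤ) : R) : MvPolynomial (Fin N) R) = C ((A l i : ℤ) : R) := by
        unfold lins; rw [aeval_C]; rfl
      rw [h2]
    rw [Finset.sum_congr rfl fun i _ => h1 i, Finset.sum_comm]
    apply Finset.sum_congr rfl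
    intro j _
    rw [Matrix.mul_apply]
    push_cast
    rw [map_sum, Finset.sum_mul]
    apply Finset.sum_congr rfl
    intro i _
    rw [C_mul]; ring
  exact DFunLike.congr_fun this f

theorem lins_one (f : MvPolynomial (Fin N) R) : lins 1 f = f := by
  have : (lins 1 : MvPolynomial (Fin N) R →ₐ[R] _) = AlgHom.id R _ := by
    apply MvPolynomial.algHom_ext
    intro l
    rw [lins_X, AlgHom.id_apply]
    rw [Finset.sum_eq_single l]
    · simp
    · intro i _ hi
      rw [Matrix.one_apply_ne (Ne.symm hi)]; simp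
    · intro h; exact absurd (Finset.mem_univ _) h
  rw [this]; rfl

theorem lins_inv_apply {A : Matrix (Fin N) (Fin N) ℤ} (hA : IsUnit A.det)
    (f : MvPolynomial (Fin N) R) : lins A⁻¹ (lins A f) = f := by
  rw [lins_comp, Matrix.mul_nonsing_inv A hA, lins_one]

theorem lins_apply_inv {A : Matrix (Fin N) (Fin N) ℤ} (hA : IsUnit A.det)
    (f : MvPolynomial (Fin N) R) : lins A (lins A⁻¹ f) = f := by
  rw [lins_comp, Matrix.nonsing_inv_mul A hA, lins_one]

theorem lins_injective {A : Matrix (Fin N) (Fin N) ℤ} (hA : IsUnit A.det) :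
    Function.Injective (lins A : MvPolynomial (Fin N) R →ₐ[R] _) := by
  intro f g h
  rw [← lins_inv_apply hA f, h, lins_inv_apply hA]

theorem lins_dvd {A : Matrix (Fin N) (Fin N) ℤ} (hA : IsUnit A.det)
    {f g : MvPolynomial (Fin N) R} : lins A f ∣ lins A g ↔ f ∣ g := by
  constructor
  · intro h
    have := map_dvd (lins A⁻¹ : MvPolynomial (Fin N) R →ₐ[R] _) h
    rwa [lins_inv_apply hA, lins_inv_apply hA] at this
  · exact fun h => map_dvd _ h

end ring

section field

variable {k : Type u} [Field k] {N : ℕ}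

/-- chain rule for a linear substitution -/
theorem pderiv_lins (A : Matrix (Fin N) (Fin N) ℤ) (i : Fin N) (f : Pol k N) :
    pderiv i (lins A f) = ∑ l, lins A (pderiv l f) * C ((A l i : ℤ) : k) := by
  refine (Pool.Agent.Helper5.D4.chain_rule (pderiv i) _ f).trans ?_
  apply Finset.sum_congr rfl
  intro l _
  congr 1
  rw [map_sum, Finset.sum_eq_single i]
  · rw [pderiv_mul, pderiv_C, pderiv_X_self]; simp
  · intro j _ hj
    rw [pderiv_mul, pderiv_C, pderiv_X_of_ne hj]; simp
  · intro h; exact absurd (Finset.mem_univ _) h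

theorem lins_irreducible {A : Matrix (Fin N) (Fin N) ℤ} (hA : IsUnit A.det) {f : Pol k N}
    (hf : Irreducible f) : Irreducible (lins A f) := by
  let e : Pol k N ≃ₐ[k] Pol k N := AlgEquiv.ofAlgHom (lins A) (lins A⁻¹)
    (by apply AlgHom.ext; intro f; exact lins_apply_inv hA f)
    (by apply AlgHom.ext; intro f; exact lins_inv_apply hA f)
  exact (MulEquiv.irreducible_iff e.toMulEquiv).2 hf

/-- the linear substitution on rational functions -/
noncomputable def hl (A : Matrix (Fin N) (Fin N) ℤ) (hA : IsUnit A.det) : Fr k N →+* Fr k N :=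
  hat (g := (lins A : Pol k N →ₐ[k] Pol k N).toRingHom) (lins_injective hA)

theorem hl_am {A : Matrix (Fin N) (Fin N) ℤ} (hA : IsUnit A.det) (f : Pol k N) :
    hl A hA (algebraMap (Pol k N) (Fr k N) f) = algebraMap (Pol k N) (Fr k N) (lins A f) :=
  hat_am _ _

theorem hl_J {A : Matrix (Fin N) (Fin N) ℤ} (hA : IsUnit A.det) (f : Fin N → Pol k N) :
    J (algebraMap (Pol k N) (Fr k N)) id (fun i => lins A (f i)) =
      hl A hA (J (algebraMap (Pol k N) (Fr k N)) id f) * ((A.det : ℤ) : Fr k N) := by
  unfold J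
  have h1 : (Matrix.of fun i => lr (algebraMap (Pol k N) (Fr k N)) id (lins A (f i))) =
      (hl A hA).mapMatrix (Matrix.of fun i => lr (algebraMap (Pol k N) (Fr k N)) id (f i)) *
        (Int.castRingHom (Fr k N)).mapMatrix A := by
    ext i j
    rw [Matrix.mul_apply]
    simp only [Matrix.of_apply, RingHom.mapMatrix_apply, Matrix.map_apply, lr, id]
    rw [pderiv_lins, map_sum, Finset.sum_div]
    apply Finset.sum_congr rfl
    intro l _
    rw [map_div₀, hl_am, hl_am, map_mul]
    have : algebraMap (Pol k N) (Fr k N) (C ((A l j : ℤ) : k)) =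
        Int.castRingHom (Fr k N) (A l j) := by simp
    rw [this]
    ring
  rw [h1, Matrix.det_mul, ← RingHom.map_det, ← RingHom.map_det]
  rfl

end field

variable {K : Type u} [Field K] {N : ℕ}
variable {Ω₀ : Type u} [Field Ω₀] {O : Subring K} {ρ : O →+* Ω₀}
variable {S : ℕ → Set (Subfield K)}

theorem hl_mem_PL {A : Matrix (Fin N) (Fin N) ℤ} (hA : IsUnit A.det) {t : ℕ} {V : Fr K N}
    (hV : V ∈ PL S N t) : hl A hA V ∈ PL S N t := by
  refine AddSubgroup.closure_induction (p := fun V _ => hl A hA V ∈ PL S N t) ?_ ?_ ?_ ?_ hV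
  · rintro x ⟨F, hF, f, hf, rfl⟩
    have h1 := hl_J hA (fun i => mF F (f i))
    have h2 : J (algebraMap (Pol K N) (Fr K N)) id (fun i => lins A (mF F (f i))) ∈
        PL S N t := by
      refine AddSubgroup.subset_closure ⟨F, hF, fun i => lins A (f i), ?_, ?_⟩
      · intro i h0
        exact hf i (lins_injective hA (by rw [map_zero]; exact h0))
      · congr 1
        funext i
        exact (lins_map _ _ _).symm
    rcases Int.isUnit_iff.1 hA with h | h
    · rw [h, Int.cast_one, mul_one] at h1
      rwa [← h1]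
    · rw [h] at h1
      have h3 : hl A hA (J (algebraMap (Pol K N) (Fr K N)) id (fun i => mF F (f i))) =
          - J (algebraMap (Pol K N) (Fr K N)) id (fun i => lins A (mF F (f i))) := by
        rw [h1]; push_cast; ring
      rw [h3]
      exact (PL S N t).neg_mem h2
  · rw [map_zero]; exact (PL S N t).zero_mem
  · intro x y _ _ hx hy
    rw [map_add]; exact (PL S N t).add_mem hx hy
  · intro x _ hx
    rw [map_neg]; exact (PL S N t).neg_mem hx

theorem hl_Mm {A : Matrix (Fin N) (Fin N) ℤ} (hA : IsUnit A.det) {V : Fr K N} (hV : Mm ρ V) :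
    Mm ρ (hl A hA V) := by
  obtain ⟨P, Q, hQ, hP, hVPQ⟩ := hV
  refine ⟨lins A P, lins A Q, ?_, ?_, ?_⟩
  · rw [lins_map]
    intro h0
    exact hQ (lins_injective hA (by rw [h0, map_zero]))
  · rw [lins_map, hP, map_zero]
  · have h1 := congrArg (hl A hA) hVPQ
    rw [map_mul, hl_am, hl_am, ← lins_map, ← lins_map] at h1
    exact h1

theorem hl_injective {A : Matrix (Fin N) (Fin N) ℤ} (hA : IsUnit A.det) :
    Function.Injective (hl (k := K) A hA) := (hl A hA).injective

end LF
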