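import Pool.Agent.Helper6.LF.LLin

/-!
The substitutions `shear` and `tau` are linear substitutions with unimodular integer matrices.
-/

open MvPolynomial

namespace LF

universe u

/-- matrix of the shear -/
def shearMat {n : ℕ} (γ : Fin n → ℕ) : Matrix (Fin (n + 1)) (Fin (n + 1)) ℤ :=
  Matrix.of fun l i => if l = i then 1 else if i = 0 then
    (Fin.cons 0 (fun j => (γ j : ℤ)) : Fin (n + 1) → ℤ) l else 0

theorem shearMat_det {n : ℕ} (γ : Fin n → ℕ) : (shearMat γ).det = 1 := by
  rw [Matrix.det_of_isLowerTriangular]
  · apply Finset.prod_eq_one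
    intro i _
    simp [shearMat]
  · intro i j hij
    have hij' : i < j := hij
    simp only [shearMat, Matrix.of_apply]
    rw [if_neg hij'.ne, if_neg]
    intro h
    rw [h] at hij'
    exact absurd hij' (Fin.not_lt_zero i)

theorem shearMat_isUnit {n : ℕ} (γ : Fin n → ℕ) : IsUnit (shearMat γ).det := by
  rw [shearMat_det]; exact isUnit_one

/-- matrix of `tau` -/
def tauMat {n : ℕ} (j : Fin n) (μ : ℕ) : Matrix (Fin (n + 1)) (Fin (n + 1)) ℤ :=
  Matrix.of fun l i => if l = 0 then (if i = 0 then (μ : ℤ) else if i = j.succ then 1 else 0)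
    else if l = j.succ then (if i = 0 then 1 else 0) else (if i = l then 1 else 0)

theorem tauMat_isUnit {n : ℕ} (j : Fin n) (μ : ℕ) : IsUnit (tauMat j μ).det := by
  have h1 := Matrix.det_permute (Equiv.swap 0 j.succ) (tauMat j μ)
  have h2 : ((tauMat j μ).submatrix (Equiv.swap 0 j.succ) id).det = 1 := by
    rw [Matrix.det_of_isLowerTriangular]
    · apply Finset.prod_eq_one
      intro l _
      by_cases hl : l = 0
      · subst hl
        simp [tauMat, Fin.succ_ne_zero]
      · by_cases hl' : l = j.succ
        · subst hl'
          simp [tauMat, Fin.succ_ne_zero]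
        · simp only [Matrix.submatrix_apply, Equiv.swap_apply_of_ne_of_ne hl hl', id, tauMat,
            Matrix.of_apply]
          simp [hl, hl']
    · intro l i hli
      have hli' : l < i := hli
      have hi0 : i ≠ 0 := by
        rintro rfl
        exact absurd hli' (Fin.not_lt_zero l)
      by_cases hl : l = 0
      · subst hl
        simp [tauMat, Fin.succ_ne_zero, hi0]
      · by_cases hl' : l = j.succ
        · subst hl'
          simp only [Matrix.submatrix_apply, Equiv.swap_apply_right, id, tauMat, Matrix.of_apply]
          simp [hi0, hli'.ne']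
        · simp only [Matrix.submatrix_apply, Equiv.swap_apply_of_ne_of_ne hl hl', id, tauMat,
            Matrix.of_apply]
          simp [hl, hl', hli'.ne']
  rw [h2] at h1
  exact IsUnit.of_mul_eq_one_right _ h1.symm

variable {k : Type u} [Field k] {n : ℕ}

theorem shear_eq (γ : Fin n → ℕ) (f : Pol k (n + 1)) : shear γ f = lins (shearMat γ) f := by
  have : (MvPolynomial.aeval (Fin.cons (X 0) (fun i : Fin n => X i.succ + C (γ i : k) * X 0)) :
      Pol k (n + 1) →ₐ[k] Pol k (n + 1)) = lins (shearMat γ) := by
    apply MvPolynomial.algHom_ext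
    intro l
    rw [aeval_X, lins_X]
    refine Fin.cases ?_ (fun l => ?_) l
    · rw [Finset.sum_eq_single 0]
      · simp [shearMat]
      · intro i _ hi
        have : shearMat γ 0 i = 0 := by
          simp only [shearMat, Matrix.of_apply]
          rw [if_neg (Ne.symm hi), if_neg hi]
        rw [this]; simp
      · intro h; exact absurd (Finset.mem_univ _) h
    · rw [Fin.sum_univ_succ, Finset.sum_eq_single l]
      · simp [shearMat, Fin.succ_ne_zero]
        ring
      · intro i _ hi
        have : shearMat γ l.succ i.succ = 0 := by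
          simp only [shearMat, Matrix.of_apply]
          rw [if_neg, if_neg (Fin.succ_ne_zero _)]
          intro h
          exact hi (Fin.succ_injective _ h).symm
        rw [this]; simp
      · intro h; exact absurd (Finset.mem_univ _) h
  exact DFunLike.congr_fun this f

theorem tau_eq (j : Fin n) (μ : ℕ) (f : Pol k (n + 1)) : tau j μ f = lins (tauMat j μ) f := by
  have : (MvPolynomial.aeval (fun i : Fin (n + 1) =>
    if i = 0 then X j.succ + C (μ : k) * X 0 else if i = j.succ then X 0 else X i) :
      Pol k (n + 1) →ₐ[k] Pol k (n + 1)) = lins (tauMat j μ) := by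
    apply MvPolynomial.algHom_ext
    intro l
    rw [aeval_X, lins_X]
    by_cases hl : l = 0
    · subst hl
      rw [if_pos rfl, Fin.sum_univ_succ, Finset.sum_eq_single j]
      · simp [tauMat, Fin.succ_ne_zero]
        ring
      · intro i _ hi
        have : tauMat j μ 0 i.succ = 0 := by
          simp only [tauMat, Matrix.of_apply]
          rw [if_pos trivial, if_neg (Fin.succ_ne_zero _), if_neg]
          intro h
          exact hi (Fin.succ_injective _ h)
        rw [this]; simp
      · intro h; exact absurd (Finset.mem_univ _) h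
    · by_cases hl' : l = j.succ
      · subst hl'
        rw [if_neg hl, if_pos rfl, Finset.sum_eq_single 0]
        · simp [tauMat, Fin.succ_ne_zero]
        · intro i _ hi
          have : tauMat j μ j.succ i = 0 := by
            simp only [tauMat, Matrix.of_apply]
            rw [if_neg hl, if_pos trivial, if_neg hi]
          rw [this]; simp
        · intro h; exact absurd (Finset.mem_univ _) h
      · rw [if_neg hl, if_neg hl', Finset.sum_eq_single l]
        · simp [tauMat, hl, hl']
        · intro i _ hi
          have : tauMat j μ l i = 0 := by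
            simp only [tauMat, Matrix.of_apply]
            rw [if_neg hl, if_neg hl', if_neg hi]
          rw [this]; simp
        · intro h; exact absurd (Finset.mem_univ _) h
  exact DFunLike.congr_fun this f

/-- `tau` of something free of `X 0` is a renaming -/
theorem tau_inc (j : Fin n) (μ : ℕ) (f : Pol k n) :
    tau j μ (inc n f) = rename (Equiv.swap 0 j.succ) (inc n f) := by
  have : (MvPolynomial.aeval (fun i : Fin (n + 1) =>
    if i = 0 then X j.succ + C (μ : k) * X 0 else if i = j.succ then X 0 else X i) :
      Pol k (n + 1) →ₐ[k] Pol k (n + 1)).comp (rename Fin.succ) =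
      (rename (Equiv.swap 0 j.succ) : Pol k (n + 1) →ₐ[k] Pol k (n + 1)).comp
        (rename Fin.succ : Pol k n →ₐ[k] Pol k (n + 1)) := by
    apply MvPolynomial.algHom_ext
    intro i
    simp only [AlgHom.comp_apply, rename_X, aeval_X]
    rw [if_neg (Fin.succ_ne_zero _)]
    by_cases h : i = j
    · subst h; simp
    · rw [if_neg, Equiv.swap_apply_of_ne_of_ne (Fin.succ_ne_zero _)]
      · intro h'; exact h (Fin.succ_injective _ h')
      · intro h'; exact h (Fin.succ_injective _ h')
  exact DFunLike.congr_fun this f

theorem natDegree_tau_inc (j : Fin n) (μ : ℕ) {f : Pol k n} (hf : pderiv j f ≠ 0) :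
    0 < (fs (tau j μ (inc n f))).natDegree := by
  rw [tau_inc]
  by_contra h0
  push Not at h0
  obtain ⟨g, hg⟩ := exists_inc_of_natDegree (Nat.le_zero.1 h0)
  have h1 : pderiv 0 (rename (Equiv.swap 0 j.succ) (inc n f)) = 0 := by
    rw [hg, pderiv_zero_inc]
  have h2 : pderiv ((Equiv.swap 0 j.succ) j.succ) (rename (Equiv.swap 0 j.succ) (inc n f)) =
      rename (Equiv.swap 0 j.succ) (pderiv j.succ (inc n f)) :=
    MvPolynomial.pderiv_rename (Equiv.injective _) _ _
  rw [Equiv.swap_apply_right, h1, pderiv_succ_inc] at h2
  have h3 : inc n (pderiv j f) = 0 :=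
    rename_injective _ (Equiv.injective (Equiv.swap 0 j.succ)) (by rw [← h2, map_zero])
  exact inc_ne hf h3

end LF
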