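import Pool.Agent.Helper6.LF.LStep

/-!
The local principle [L]: main induction, from the four pieces RIG, IRR, CORE and NORM.
-/

open MvPolynomial

namespace LF

universe u

variable {K : Type u} [Field K] {n : ℕ}

/-- an irreducible factor of positive degree -/
theorem exists_irr_factor_pos {f : Pol K (n + 1)} (hf : f ≠ 0) (hd : 0 < (fs f).natDegree) :
    ∃ χ, Irreducible χ ∧ χ ∣ f ∧ 0 < (fs χ).natDegree := by
  induction f using WfDvdMonoid.induction_on_irreducible with
  | zero => exact absurd rfl hf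
  | unit f hu =>
    exfalso
    obtain ⟨c, hc, rfl⟩ := MvPolynomial.isUnit_iff_eq_C_of_isReduced.1 hu
    rw [← inc_C, fs_inc, Polynomial.natDegree_C] at hd
    exact lt_irrefl _ hd
  | mul f q hf0 hq ih =>
    by_cases hqd : 0 < (fs q).natDegree
    · exact ⟨q, hq, dvd_mul_right _ _, hqd⟩
    · have h1 : fs (q * f) = fs q * fs f := by unfold fs; rw [map_mul]
      rw [h1, Polynomial.natDegree_mul (fs_ne hq.ne_zero) (fs_ne hf0)] at hd
      obtain ⟨χ, h2, h3, h4⟩ := ih hf0 (by omega)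
      exact ⟨χ, h2, h3.mul_left _, h4⟩

theorem lc_const_of_dvd {χ g : Pol K (n + 1)} (h : χ ∣ g) (hg : g ≠ 0) {c : K}
    (hc : (fs g).leadingCoeff = C c) : ∃ c' : K, (fs χ).leadingCoeff = C c' := by
  obtain ⟨h', rfl⟩ := h
  have h1 : fs (χ * h') = fs χ * fs h' := by unfold fs; rw [map_mul]
  rw [h1, Polynomial.leadingCoeff_mul] at hc
  have hc0 : c ≠ 0 := by
    rintro rfl
    rw [C_0, mul_eq_zero, Polynomial.leadingCoeff_eq_zero, Polynomial.leadingCoeff_eq_zero] at hc
    rcases hc with hc | hc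
    · exact fs_ne (left_ne_zero_of_mul hg) hc
    · exact fs_ne (right_ne_zero_of_mul hg) hc
  have hu : IsUnit ((fs χ).leadingCoeff) := by
    apply isUnit_of_mul_isUnit_left (y := (fs h').leadingCoeff)
    rw [hc]
    exact (IsUnit.mk0 c hc0).map C
  obtain ⟨c', -, hc'⟩ := MvPolynomial.isUnit_iff_eq_C_of_isReduced.1 hu
  exact ⟨c', hc'⟩

theorem thmL_zero [CharZero K] : ThmL K 0 := by
  intro Ω₀ _ _ O ρ T S hS t ht V hV hm
  have h1 : ∃ m : ℤ, V = (m : Fr K 0) := by
    refine AddSubgroup.closure_induction (p := fun V _ => ∃ m : ℤ, V = (m : Fr K 0)) ?_ ?_ ?_ ?_ hV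
    · rintro x ⟨F, -, f, -, rfl⟩
      refine ⟨1, ?_⟩
      unfold J
      rw [Matrix.det_isEmpty, Int.cast_one]
    · exact ⟨0, by simp⟩
    · rintro x y _ _ ⟨m, rfl⟩ ⟨m', rfl⟩
      exact ⟨m + m', by push_cast; ring⟩
    · rintro x _ ⟨m, rfl⟩
      exact ⟨-m, by push_cast; ring⟩
  obtain ⟨m, rfl⟩ := h1
  have h2 := hm.num (G := 1) (U := (m : MvPolynomial (Fin 0) O)) (by simp)
  rw [map_intCast] at h2
  have h3 : m = 0 := by
    have h4 : (C (m : Ω₀) : MvPolynomial (Fin 0) Ω₀) = C 0 := by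
      rw [C_0, ← h2]; simp
    have h5 := C_injective (Fin 0) Ω₀ h4
    exact_mod_cast h5
  rw [h3, Int.cast_zero]

/-- **Theorem L(N)**, from the four pieces -/
theorem thmL_of [CharZero K] (hRig : StRig K) (hIrr : StIrr K) (hCore : StCore K)
    (hNorm : StNorm K) (N : ℕ) : ThmL K N := by
  induction N with
  | zero => exact thmL_zero
  | succ n ih =>
    intro Ω₀ _ _ O ρ T S hS t ht V hV hm
    have hpow : 4 ^ (n + 1) * t = 4 ^ n * ((t + t) + (t + t)) := by rw [pow_succ]; ring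
    have hT4 : 4 ^ n * ((t + t) + (t + t)) ≤ T := by rw [← hpow]; exact ht
    have h4 : (t + t) + (t + t) ≤ T := by
      refine le_trans ?_ hT4
      exact Nat.le_mul_of_pos_left _ (by positivity)
    have IH : ∀ x ∈ PL S n ((t + t) + (t + t)), Mm ρ x → x = 0 :=
      fun x hx hxm => ih Ω₀ O ρ T S hS _ hT4 x hx hxm
    obtain ⟨Gs, hGs, hVG⟩ := exists_finite hV
    have hGs0 : ∀ g ∈ Gs, g ≠ 0 := by
      intro g hg
      obtain ⟨F, -, f, hf, rfl⟩ := hGs g hg
      intro h1
      exact hf (map_inj F.subtype (by rw [map_zero]; exact h1))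
    obtain ⟨γ, hγ⟩ := hNorm n Gs hGs0
    have hA := shearMat_isUnit γ
    set V' := hl (shearMat γ) hA V with hV'
    have hV'PL : V' ∈ PL S (n + 1) t := hl_mem_PL hA hV
    have hV'm : Mm ρ V' := hl_Mm hA hm
    have hV'g : V' ∈ PLg ((fun g => lins (shearMat γ) g) '' (Gs : Set (Pol K (n + 1)))) :=
      hl_mem_PLg hA (fun g hg => Set.mem_image_of_mem _ hg) hVG
    suffices h : V' = 0 by
      apply hl_injective hA
      rw [map_zero]; exact h
    -- reduced fraction
    obtain ⟨a₀, b₀', hrel, hfrac⟩ := IsFractionRing.exists_reduced_fraction (A := Pol K (n + 1)) V'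
    obtain ⟨b₀, hb₀mem⟩ := b₀'
    have hb₀0 : b₀ ≠ 0 := nonZeroDivisors.ne_zero hb₀mem
    have hVab : V' * algebraMap _ _ b₀ = algebraMap _ _ a₀ := by
      rw [← hfrac]
      exact IsLocalization.mk'_spec _ _ _
    have hnreg : ∀ χ, Irreducible χ → χ ∣ b₀ → ¬ Reg χ V' := by
      rintro χ hχ hχb ⟨U, G, hG, hVU⟩
      have h1 := repr_mul hVab hVU
      have h2 : χ ∣ a₀ * G := by rw [h1]; exact hχb.mul_left _
      rcases hχ.prime.dvd_or_dvd h2 with h | h
      · exact hχ.not_isUnit (hrel h hχb)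
      · exact hG h
    have hdeg0 : (fs b₀).natDegree = 0 := by
      by_contra hne
      obtain ⟨χ, hχ, hχb, hχd⟩ := exists_irr_factor_pos hb₀0 (Nat.pos_of_ne_zero hne)
      have hnr := hnreg χ hχ hχb
      have hex : ∃ g ∈ Gs, χ ∣ lins (shearMat γ) g := by
        by_contra h0
        push Not at h0
        refine hnr (reg_of_not_dvd hχ.prime ?_ ?_ hV'g)
        · rintro _ ⟨g, hg, rfl⟩
          intro h1
          exact hGs0 g hg (lins_injective hA (by rw [map_zero]; exact h1))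
        · rintro _ ⟨g, hg, rfl⟩
          exact h0 g hg
      obtain ⟨g, hg, hdg⟩ := hex
      obtain ⟨c, hc⟩ := hγ g hg
      rw [shear_eq] at hc
      have hlg0 : lins (shearMat γ) g ≠ 0 := by
        intro h1
        exact hGs0 g hg (lins_injective hA (by rw [map_zero]; exact h1))
      obtain ⟨F, hF, f, hf, rfl⟩ := hGs g hg
      have hlm : lins (shearMat γ) (mF F f) = mF F (lins (shearMat γ) f) := (lins_map _ _ _).symm
      rw [hlm] at hdg hc hlg0
      have hlf0 : lins (shearMat γ) f ≠ 0 := by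
        intro h1
        rw [h1, map_zero] at hlg0
        exact hlg0 rfl
      obtain ⟨g₀, hg₀irr, hg₀ass, hg₀d⟩ := exists_factor hIrr (hS.closed t F hF) hχ hlf0 hdg
      have hg₀dK : mF F g₀ ∣ mF F (lins (shearMat γ) f) := map_dvd _ hg₀d
      obtain ⟨c', hc'⟩ := lc_const_of_dvd hg₀dK hlg0 hc
      have hg₀deg : 0 < (fs (mF F g₀)).natDegree := by
        have h1 : fs χ ∣ fs (mF F g₀) := fs_dvd.2 hg₀ass.dvd
        have h2 := Polynomial.natDegree_le_of_dvd h1 (fs_ne hg₀irr.ne_zero)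
        omega
      have hnr' : ¬ Reg (mF F g₀) V' := hnreg _ hg₀irr (hg₀ass.symm.dvd.trans hχb)
      obtain ⟨U, G, hG, hVU⟩ := simple_pole hg₀irr (PL_le_PLK hV'PL)
      obtain ⟨U₁, rfl⟩ := core_claim hRig hIrr hCore hS h4 IH hF hg₀irr hg₀deg ⟨c', hc'⟩ hV'PL
        hV'm hG hVU
      apply hnr'
      refine ⟨U₁, G, hG, ?_⟩
      have h3 := am_ne hg₀irr.ne_zero
      apply mul_left_cancel₀ h3
      rw [← map_mul _ (mF F g₀) U₁, ← hVU, map_mul _ (mF F g₀) G]
      ring
    obtain ⟨U, G, hG, hVU, hUd⟩ := neg_deg (PL_le_PLK hV'PL)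
    have h5 := repr_mul hVU hVab
    have ha0 : a₀ = 0 := by
      by_contra ha
      have hU0 : U ≠ 0 := by
        rintro rfl
        rw [zero_mul] at h5
        exact mul_ne_zero ha hG h5.symm
      have h6 : (fs U).natDegree < (fs G).natDegree := hUd.resolve_left hU0
      have h7 := congrArg (fun f => (fs f).natDegree) h5
      have e1 : fs (U * b₀) = fs U * fs b₀ := by unfold fs; rw [map_mul]
      have e2 : fs (a₀ * G) = fs a₀ * fs G := by unfold fs; rw [map_mul]
      simp only [e1, e2] at h7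
      rw [Polynomial.natDegree_mul (fs_ne hU0) (fs_ne hb₀0),
        Polynomial.natDegree_mul (fs_ne ha) (fs_ne hG)] at h7
      omega
    have h8 := am_ne hb₀0
    rw [ha0, map_zero] at hVab
    exact (mul_eq_zero.1 hVab).resolve_right h8

end LF
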