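import Pool.Agent.Helper6.LF.LDefs
import Pool.Agent.Helper8.PL.BassTate

/-!
Base change of polynomials, log-Jacobians and root sums.
-/

open MvPolynomial

namespace LF

universe u

section general

variable {R S : Type*} [CommRing R] [CommRing S] {n : ℕ}

theorem fse_map (e : R →+* S) (f : MvPolynomial (Fin (n + 1)) R) :
    finSuccEquiv S n (MvPolynomial.map e f) =
      (finSuccEquiv R n f).map (MvPolynomial.map e) := by
  ext i m
  rw [finSuccEquiv_coeff_coeff, coeff_map, Polynomial.coeff_map, coeff_map,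
    finSuccEquiv_coeff_coeff]

theorem fse_rename_succ (f : MvPolynomial (Fin n) R) :
    finSuccEquiv R n (rename Fin.succ f) = Polynomial.C f := by
  have : ((finSuccEquiv R n).toAlgHom.comp
      (rename Fin.succ : MvPolynomial (Fin n) R →ₐ[R] MvPolynomial (Fin (n + 1)) R)) =
      (Polynomial.CAlgHom : MvPolynomial (Fin n) R →ₐ[R] _) := by
    apply MvPolynomial.algHom_ext
    intro i
    simp [finSuccEquiv_X_succ]
  exact DFunLike.congr_fun this f

/-- remainder modulo `π` of a polynomial in the kernel -/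
theorem map_rem_zero' [IsDomain S] [IsDomain R] {ψ : R →+* S}
    {π f q r : Polynomial R} {c : R} (hlc : ψ π.leadingCoeff ≠ 0)
    (he : Polynomial.C c * f = π * q + r)
    (hr : r.natDegree < π.natDegree) (hf : f.map ψ = 0) : r.map ψ = 0 := by
  have h1 := congrArg (Polynomial.map ψ) he
  rw [Polynomial.map_mul, hf, mul_zero, Polynomial.map_add, Polynomial.map_mul] at h1
  have hd : (π.map ψ).natDegree = π.natDegree :=
    Polynomial.natDegree_map_of_leadingCoeff_ne_zero _ hlc
  by_contra h0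
  have h2 : π.map ψ ∣ r.map ψ := by
    refine ⟨-(q.map ψ), ?_⟩
    linear_combination -h1
  have h3 := Polynomial.natDegree_le_of_dvd h2 h0
  have h4 : (r.map ψ).natDegree ≤ r.natDegree := Polynomial.natDegree_map_le
  omega

end general

section fields

variable {k₁ k₂ : Type u} [Field k₁] [Field k₂] {M n : ℕ}

theorem map_inj (e : k₁ →+* k₂) :
    Function.Injective (MvPolynomial.map e : Pol k₁ M →+* Pol k₂ M) :=
  MvPolynomial.map_injective e e.injective

theorem map_inc (e : k₁ →+* k₂) (f : Pol k₁ M) :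
    MvPolynomial.map e (inc M f) = inc M (MvPolynomial.map e f) := by
  exact MvPolynomial.map_rename _ _ _

theorem fs_map (e : k₁ →+* k₂) (f : Pol k₁ (M + 1)) :
    fs (MvPolynomial.map e f : Pol k₂ (M + 1)) = (fs f).map (MvPolynomial.map e) := fse_map e f

theorem ext_map {Ω : Type u} [Field Ω] (e : k₁ →+* k₂) (φ : Pol k₂ M →+* Ω) (ζ : Ω)
    (f : Pol k₁ (M + 1)) :
    ext φ ζ (MvPolynomial.map e f) = ext (φ.comp (MvPolynomial.map e)) ζ f := by
  rw [ext_eq, ext_eq, fs_map, Polynomial.map_map]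

theorem rts_map {Ω : Type u} [Field Ω] (e : k₁ →+* k₂) (φ : Pol k₂ M →+* Ω)
    (f : Pol k₁ (M + 1)) :
    rts φ (MvPolynomial.map e f) = rts (φ.comp (MvPolynomial.map e)) f := by
  unfold rts
  have := fs_map e f
  unfold fs at this
  rw [this, Polynomial.map_map]

theorem lr_map {L : Type u} [Field L] (e : k₁ →+* k₂) (θ : Pol k₂ M →+* L) (a : Fin n → Fin M)
    (f : Pol k₁ M) :
    lr θ a (MvPolynomial.map e f) = lr (θ.comp (MvPolynomial.map e)) a f := by
  funext j
  simp only [lr, RingHom.comp_apply]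
  rw [MvPolynomial.pderiv_map]

theorem rho_map {Ω : Type u} [Field Ω] (e : k₁ →+* k₂) (θ : Pol k₂ (M + 1) →+* Ω)
    (a : Fin n → Fin M) (π : Pol k₁ (M + 1)) (g : Fin n → Pol k₁ (M + 1)) :
    rho θ a (MvPolynomial.map e π) (fun i => MvPolynomial.map e (g i)) =
      rho (θ.comp (MvPolynomial.map e)) a π g := by
  unfold rho
  congr 2
  congr 1
  · funext j
    rw [MvPolynomial.pderiv_map]; rfl
  · funext i
    exact lr_map e θ (up a) (g i)

theorem ext_map_comp {Ω : Type u} [Field Ω] (e : k₁ →+* k₂) (φ : Pol k₂ M →+* Ω) (ζ : Ω) :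
    (ext φ ζ).comp (MvPolynomial.map e) = ext (φ.comp (MvPolynomial.map e)) ζ := by
  exact RingHom.ext fun f => ext_map e φ ζ f

theorem TR_map {Ω : Type u} [Field Ω] (e : k₁ →+* k₂) (φ : Pol k₂ M →+* Ω)
    (a : Fin n → Fin M) (π : Pol k₁ (M + 1)) (g : Fin n → Pol k₁ (M + 1)) :
    TR φ a (MvPolynomial.map e π) (fun i => MvPolynomial.map e (g i)) =
      TR (φ.comp (MvPolynomial.map e)) a π g := by
  unfold TR
  rw [rts_map]
  apply Finset.sum_congr rfl
  intro ζ _
  rw [rho_map, ext_map_comp, MvPolynomial.pderiv_map, ext_map]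

/-- base change on fraction fields -/
noncomputable def fr (e : k₁ →+* k₂) (M : ℕ) : Fr k₁ M →+* Fr k₂ M :=
  IsFractionRing.lift (g := (algebraMap (Pol k₂ M) (Fr k₂ M)).comp (MvPolynomial.map e))
    ((am_inj (k := k₂) (M := M)).comp (map_inj e))

theorem fr_am (e : k₁ →+* k₂) (f : Pol k₁ M) :
    fr e M (algebraMap _ _ f) = algebraMap _ _ (MvPolynomial.map e f) := by
  unfold fr
  rw [IsFractionRing.lift_algebraMap]
  rfl

theorem fr_J (e : k₁ →+* k₂) (a : Fin n → Fin M) (f : Fin n → Pol k₁ M) :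
    fr e M (J (algebraMap (Pol k₁ M) (Fr k₁ M)) a f) =
      J (algebraMap (Pol k₂ M) (Fr k₂ M)) a (fun i => MvPolynomial.map e (f i)) := by
  unfold J
  rw [RingHom.map_det]
  congr 1
  ext i j
  simp only [RingHom.mapMatrix_apply, Matrix.map_apply, Matrix.of_apply, lr]
  rw [map_div₀, fr_am, fr_am, MvPolynomial.pderiv_map]

theorem lift_fr {Ω : Type u} [Field Ω] (e : k₁ →+* k₂) {φ : Pol k₂ M →+* Ω}
    (hφ : Function.Injective φ) (x : Fr k₁ M) :
    IsFractionRing.lift hφ (fr e M x) =
      IsFractionRing.lift (g := φ.comp (MvPolynomial.map e)) (hφ.comp (map_inj e)) x := by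
  obtain ⟨U, G, hG, rfl⟩ := IsFractionRing.div_surjective (A := Pol k₁ M) x
  rw [map_div₀, map_div₀, map_div₀, fr_am, fr_am, IsFractionRing.lift_algebraMap,
    IsFractionRing.lift_algebraMap, IsFractionRing.lift_algebraMap,
    IsFractionRing.lift_algebraMap]
  rfl

end fields

end LF
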