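import Pool.Agent.Helper6.LF.LLin2

/-!
Regularity lemmas for the local principle [L].
-/

open MvPolynomial

namespace LF

universe u

variable {K : Type u} [Field K] {N n : ℕ}
variable {S : ℕ → Set (Subfield K)}

/-- the group generated by the log-Jacobians of polynomials in a given set -/
noncomputable def PLg (G : Set (Pol K N)) : AddSubgroup (Fr K N) :=
  AddSubgroup.closure {x | ∃ g : Fin N → Pol K N, (∀ i, g i ∈ G) ∧
    x = J (algebraMap (Pol K N) (Fr K N)) id g}

theorem PLg_mono {G G' : Set (Pol K N)} (h : G ⊆ G') : PLg G ≤ PLg G' := by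
  apply AddSubgroup.closure_mono
  rintro x ⟨g, hg, rfl⟩
  exact ⟨g, fun i => h (hg i), rfl⟩

/-- only finitely many polynomials occur -/
theorem exists_finite {t : ℕ} {V : Fr K N} (hV : V ∈ PL S N t) :
    ∃ G : Finset (Pol K N), (∀ g ∈ G, ∃ F ∈ S t, ∃ f : Pol F N, f ≠ 0 ∧ g = mF F f) ∧
      V ∈ PLg (G : Set (Pol K N)) := by
  classical
  refine AddSubgroup.closure_induction
    (p := fun V _ => ∃ G : Finset (Pol K N), (∀ g ∈ G, ∃ F ∈ S t, ∃ f : Pol F N, f ≠ 0 ∧
      g = mF F f) ∧ V ∈ PLg (G : Set (Pol K N))) ?_ ?_ ?_ ?_ hV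
  · rintro x ⟨F, hF, f, hf, rfl⟩
    refine ⟨Finset.univ.image fun i => mF F (f i), ?_, ?_⟩
    · intro g hg
      rw [Finset.mem_image] at hg
      obtain ⟨i, -, rfl⟩ := hg
      exact ⟨F, hF, f i, hf i, rfl⟩
    · exact AddSubgroup.subset_closure ⟨_, fun i => by simp, rfl⟩
  · exact ⟨∅, by simp, (PLg _).zero_mem⟩
  · rintro x y _ _ ⟨G, hG, hx⟩ ⟨G', hG', hy⟩
    refine ⟨G ∪ G', ?_, ?_⟩
    · intro g hg
      rcases Finset.mem_union.1 hg with h | h
      · exact hG g h
      · exact hG' g h
    · exact (PLg _).add_mem (PLg_mono (by simp) hx) (PLg_mono (by simp) hy)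
  · rintro x _ ⟨G, hG, hx⟩
    exact ⟨G, hG, (PLg _).neg_mem hx⟩

/-- regularity at a prime that divides no polynomial that occurs -/
theorem reg_of_not_dvd {p : Pol K N} (hp : Prime p) {G : Set (Pol K N)}
    (hG0 : ∀ g ∈ G, g ≠ 0) (hG : ∀ g ∈ G, ¬ p ∣ g)
    {V : Fr K N} (hV : V ∈ PLg G) : Reg p V := by
  refine AddSubgroup.closure_induction (p := fun V _ => Reg p V) ?_ ?_ ?_ ?_ hV
  · rintro x ⟨g, hg, rfl⟩
    refine ⟨Matrix.det (Matrix.of fun i j => pderiv (id j) (g i)), ∏ i, g i, ?_,
      J_mul_prod id g (fun i => hG0 _ (hg i))⟩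
    rw [Prime.dvd_finsetProd_iff hp]
    rintro ⟨i, -, hi⟩
    exact hG _ (hg i) hi
  · exact reg_zero hp
  · intro x y _ _ hx hy
    exact hx.add hp hy
  · rintro x _ ⟨U, G, hG, h⟩
    refine ⟨-U, G, hG, ?_⟩
    rw [map_neg, ← h]; ring

theorem hl_mem_PLg {A : Matrix (Fin N) (Fin N) ℤ} (hA : IsUnit A.det) {G G' : Set (Pol K N)}
    (h : ∀ g ∈ G, lins A g ∈ G') {V : Fr K N} (hV : V ∈ PLg G) : hl A hA V ∈ PLg G' := by
  refine AddSubgroup.closure_induction (p := fun V _ => hl A hA V ∈ PLg G') ?_ ?_ ?_ ?_ hV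
  · rintro x ⟨g, hg, rfl⟩
    have h1 := hl_J hA g
    have h2 : J (algebraMap (Pol K N) (Fr K N)) id (fun i => lins A (g i)) ∈ PLg G' :=
      AddSubgroup.subset_closure ⟨_, fun i => h _ (hg i), rfl⟩
    rcases Int.isUnit_iff.1 hA with h | h
    · rw [h, Int.cast_one, mul_one] at h1
      rwa [← h1]
    · rw [h] at h1
      have h3 : hl A hA (J (algebraMap (Pol K N) (Fr K N)) id g) =
          - J (algebraMap (Pol K N) (Fr K N)) id (fun i => lins A (g i)) := by
        rw [h1]; push_cast; ring
      rw [h3]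
      exact (PLg G').neg_mem h2
  · rw [map_zero]; exact (PLg G').zero_mem
  · intro x y _ _ hx hy
    rw [map_add]; exact (PLg G').add_mem hx hy
  · intro x _ hx
    rw [map_neg]; exact (PLg G').neg_mem hx

/-- the product of two representations -/
theorem repr_mul {V : Fr K N} {U G U' G' : Pol K N}
    (h : V * algebraMap _ _ G = algebraMap _ _ U)
    (h' : V * algebraMap _ _ G' = algebraMap _ _ U') : U * G' = U' * G := by
  apply am_inj
  rw [map_mul, map_mul, ← h, ← h']; ring

/-! ### negative degree -/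

theorem natDegree_mul_pderiv (f : Pol K (n + 1)) (j : Fin (n + 1)) :
    (fs ((if j = 0 then X 0 else 1) * pderiv j f)).natDegree ≤ (fs f).natDegree := by
  refine Fin.cases ?_ (fun j => ?_) j
  · rw [if_pos rfl]
    have h1 : fs (X 0 * pderiv 0 f) = Polynomial.X * Polynomial.derivative (fs f) := by
      rw [← fs_pderiv_zero]
      unfold fs
      rw [map_mul, finSuccEquiv_X_zero]
    rw [h1]
    by_cases h : (fs f).natDegree = 0
    · have h2 : Polynomial.derivative (fs f) = 0 := by
        rw [Polynomial.eq_C_of_natDegree_eq_zero h]; simp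
      rw [h2]; simp
    · refine Polynomial.natDegree_mul_le.trans ?_
      rw [Polynomial.natDegree_X]
      have := Polynomial.natDegree_derivative_lt h
      omega
  · rw [if_neg (Fin.succ_ne_zero _), one_mul, Polynomial.natDegree_le_iff_coeff_eq_zero]
    intro i hi
    rw [fs_pderiv_succ, Polynomial.coeff_eq_zero_of_natDegree_lt hi, map_zero]

/-- elements of the span are of negative degree in `X 0` -/
theorem neg_deg {V : Fr K (n + 1)} (hV : V ∈ PLK K (n + 1)) :
    ∃ U G : Pol K (n + 1), G ≠ 0 ∧ V * algebraMap _ _ G = algebraMap _ _ U ∧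
      (U = 0 ∨ (fs U).natDegree < (fs G).natDegree) := by
  refine AddSubgroup.closure_induction
    (p := fun V _ => ∃ U G : Pol K (n + 1), G ≠ 0 ∧ V * algebraMap _ _ G = algebraMap _ _ U ∧
      (U = 0 ∨ (fs U).natDegree < (fs G).natDegree)) ?_ ?_ ?_ ?_ hV
  · rintro x ⟨g, hg, rfl⟩
    refine ⟨Matrix.det (Matrix.of fun i j => pderiv (id j) (g i)), ∏ i, g i,
      Finset.prod_ne_zero_iff.2 fun i _ => hg i, J_mul_prod id g hg, ?_⟩
    set U : Pol K (n + 1) := Matrix.det (Matrix.of fun i j => pderiv (id j) (g i)) with hU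
    by_cases hU0 : U = 0
    · exact Or.inl hU0
    · right
      have h1 : X 0 * U = Matrix.det (Matrix.of fun i j : Fin (n + 1) =>
          (if j = 0 then X 0 else 1) * pderiv j (g i)) := by
        have h2 := Matrix.det_mul_row (fun j : Fin (n + 1) => (if j = 0 then X 0 else 1 :
          Pol K (n + 1))) (Matrix.of fun i j => pderiv j (g i))
        rw [Fin.prod_univ_succ] at h2
        simp only [if_pos, Fin.succ_ne_zero, if_false, Finset.prod_const_one, mul_one] at h2
        exact h2.symm
      have h3 : fs (X 0 * U) = Matrix.det (Matrix.of fun i j : Fin (n + 1) =>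
          fs ((if j = 0 then X 0 else 1) * pderiv j (g i))) := by
        rw [h1]
        unfold fs
        rw [AlgEquiv.map_det]
        rfl
      have h4 := (Pool.Agent.Helper8.PL.coeff_det_le (Matrix.of fun i j : Fin (n + 1) =>
          fs ((if j = 0 then X 0 else 1) * pderiv j (g i))) (fun i => (fs (g i)).natDegree)
          (fun i j => natDegree_mul_pderiv (g i) j)).1
      rw [← h3] at h4
      have h5 : fs (X 0 * U) = Polynomial.X * fs U := by
        unfold fs; rw [map_mul, finSuccEquiv_X_zero]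
      rw [h5, Polynomial.natDegree_X_mul (fs_ne hU0)] at h4
      have h6 : (fs (∏ i, g i)).natDegree = ∑ i, (fs (g i)).natDegree := by
        have : fs (∏ i, g i) = ∏ i, fs (g i) := by unfold fs; rw [map_prod]
        rw [this, Polynomial.natDegree_prod _ _ (fun i _ => fs_ne (hg i))]
      omega
  · exact ⟨0, 1, one_ne_zero, by simp, Or.inl rfl⟩
  · rintro x y _ _ ⟨U, G, hG, h, hd⟩ ⟨U', G', hG', h', hd'⟩
    refine ⟨U * G' + U' * G, G * G', mul_ne_zero hG hG', ?_, ?_⟩
    · rw [map_add, map_mul, map_mul, map_mul, ← h, ← h']; ring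
    · by_cases h0 : U * G' + U' * G = 0
      · exact Or.inl h0
      · right
        have e1 : fs (G * G') = fs G * fs G' := by unfold fs; rw [map_mul]
        have e2 : fs (U * G' + U' * G) = fs U * fs G' + fs U' * fs G := by
          unfold fs; rw [map_add, map_mul, map_mul]
        rw [e1, e2, Polynomial.natDegree_mul (fs_ne hG) (fs_ne hG')]
        rcases hd with hd | hd
        · subst hd
          rcases hd' with hd' | hd'
          · subst hd'; simp at h0
          · have e3 : fs (0 : Pol K (n + 1)) = 0 := by unfold fs; rw [map_zero]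
            rw [e3, zero_mul, zero_add]
            refine lt_of_le_of_lt Polynomial.natDegree_mul_le ?_
            omega
        · rcases hd' with hd' | hd'
          · subst hd'
            have e3 : fs (0 : Pol K (n + 1)) = 0 := by unfold fs; rw [map_zero]
            rw [e3, zero_mul, add_zero]
            refine lt_of_le_of_lt Polynomial.natDegree_mul_le ?_
            omega
          · refine lt_of_le_of_lt (Polynomial.natDegree_add_le _ _) ?_
            have e4 := Polynomial.natDegree_mul_le (p := fs U) (q := fs G')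
            have e5 := Polynomial.natDegree_mul_le (p := fs U') (q := fs G)
            omega
  · rintro x _ ⟨U, G, hG, h, hd⟩
    refine ⟨-U, G, hG, ?_, ?_⟩
    · rw [map_neg, ← h]; ring
    · rcases hd with hd | hd
      · left; rw [hd, neg_zero]
      · right
        have : fs (-U) = - fs U := by unfold fs; rw [map_neg]
        rw [this, Polynomial.natDegree_neg]; exact hd

/-! ### factors over the small field -/

/-- a prime factor of a polynomial over `F` comes from `F` -/
theorem exists_factor (hIrr : StIrr K) {F : Subfield K} (hF : RelClosed F) {p : Pol K N}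
    (hp : Irreducible p) {f : Pol F N} (hf : f ≠ 0) (hd : p ∣ mF F f) :
    ∃ g : Pol F N, Irreducible (mF F g) ∧ Associated p (mF F g) ∧ g ∣ f := by
  induction f using WfDvdMonoid.induction_on_irreducible with
  | zero => exact absurd rfl hf
  | unit f hu => exact absurd (isUnit_of_dvd_unit hd (hu.map _)) hp.not_isUnit
  | mul f q hf0 hq ih =>
    rw [map_mul] at hd
    have hqK := hIrr F hF N q hq
    rcases hp.prime.dvd_or_dvd hd with h | h
    · exact ⟨q, hqK, (hp.dvd_irreducible_iff_associated hqK).1 h, dvd_mul_right _ _⟩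
    · obtain ⟨g, h1, h2, h3⟩ := ih hf0 h
      exact ⟨g, h1, h2, h3.mul_left _⟩

/-- an irreducible polynomial has a nonzero partial derivative -/
theorem exists_pderiv_ne [CharZero K] {p : Pol K N} (hp : Irreducible p) :
    ∃ j, pderiv j p ≠ 0 := by
  by_contra h
  push Not at h
  obtain ⟨c, hc⟩ := Pool.Agent.Helper5.D4.eq_C_of_pderiv p h
  have hc0 : c ≠ 0 := by
    rintro rfl
    rw [C_0] at hc
    exact hp.ne_zero hc
  apply hp.not_isUnit
  rw [hc]
  exact (IsUnit.mk0 c hc0).map C

end LF
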