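import Pool.Agent.Helper6.LF.LReg

/-!
The pole argument and the core claim of the local principle [L].
-/

open MvPolynomial

namespace LF

universe u

variable {K : Type u} [Field K] {n : ℕ}
variable {Ω₀ : Type u} [Field Ω₀] {O : Subring K} {ρ : O →+* Ω₀}
variable {S : ℕ → Set (Subfield K)}

theorem inc_dvd {p q : Pol K n} : inc n p ∣ inc n q ↔ p ∣ q := by
  constructor
  · intro h
    rw [← fs_dvd, fs_inc, fs_inc, Polynomial.C_dvd_iff_dvd_coeff] at h
    simpa using h 0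
  · exact fun h => map_dvd _ h

theorem irreducible_of_inc {p : Pol K n} (h : Irreducible (inc n p)) : Irreducible p := by
  have h1 : Irreducible (fs (inc n p)) := fs_irreducible h
  rw [fs_inc] at h1
  exact (Polynomial.prime_C_iff.1 h1.prime).irreducible

/-- a prime of the base ring is no pole of the polar part -/
theorem pole_step [CharZero K] [CharZero Ω₀] (hIrr : StIrr K) (hCore : StCore K) {T : ℕ}
    (hS : Fam O T S) {t : ℕ} (ht : t + t ≤ T) (IH : ∀ x ∈ PL S n (t + t), Mm ρ x → x = 0)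
    {W : Fr K (n + 1)} (hW : W ∈ PL S (n + 1) t) (hWm : Mm ρ W) {χ : Pol K (n + 1)}
    (hχ : Irreducible χ) (hdeg : 0 < (fs χ).natDegree)
    (hlc : ∃ c : K, (fs χ).leadingCoeff = C c) {p₀ b : Pol K n} (hp₀ : Irreducible p₀)
    {R : Pol K (n + 1)} (hR : (fs R).natDegree < (fs χ).natDegree)
    (hWR : W * algebraMap _ _ (inc n (p₀ * b) * χ) = algebraMap _ _ R) : inc n p₀ ∣ R := by
  by_contra hndR
  have hp := irreducible_inc hp₀
  have hpp := hp.prime
  -- not dividing b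
  have hb1 : ¬ inc n p₀ ∣ inc n b := by
    intro hd
    obtain ⟨U, G, hG, hWU⟩ := simple_pole hp (PL_le_PLK hW)
    have h1 := repr_mul hWU hWR
    have h2 : inc n p₀ * (U * inc n b * χ) = inc n p₀ * (R * G) := by
      rw [map_mul] at h1
      linear_combination h1
    have h3 := mul_left_cancel₀ hp.ne_zero h2
    have h4 : inc n p₀ ∣ R * G := by
      rw [← h3]
      exact (hd.mul_left _).mul_right _
    rcases hpp.dvd_or_dvd h4 with h | h
    · exact hndR h
    · exact hG h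
  have hpχ : ¬ inc n p₀ ∣ χ := by
    intro hd
    have := ((hp.dvd_irreducible_iff_associated hχ).1 hd).symm.dvd
    exact not_dvd_inc hdeg hp₀.ne_zero this
  have hnreg : ¬ Reg (inc n p₀) W := by
    rintro ⟨U, G, hG, hWU⟩
    have h1 := repr_mul hWU hWR
    have h4 : inc n p₀ ∣ R * G := by
      rw [← h1, map_mul]
      exact ((dvd_mul_right _ _).mul_right _).mul_left _
    rcases hpp.dvd_or_dvd h4 with h | h
    · exact hndR h
    · exact hG h
  obtain ⟨Gs, hGs, hWG⟩ := exists_finite hW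
  have hex : ∃ g ∈ Gs, inc n p₀ ∣ g := by
    by_contra h0
    push Not at h0
    refine hnreg (reg_of_not_dvd hpp ?_ (fun g hg => h0 g hg) hWG)
    intro g hg
    obtain ⟨F, -, f, hf, rfl⟩ := hGs g hg
    intro h1
    exact hf (map_inj F.subtype (by rw [map_zero]; exact h1))
  obtain ⟨g, hg, hdg⟩ := hex
  obtain ⟨F, hF, f, hf, rfl⟩ := hGs g hg
  obtain ⟨g', hg'irr, hg'ass, -⟩ := exists_factor hIrr (hS.closed t F hF) hp hf hdg
  -- `g'` is free of `X 0`
  have hg'deg : (fs g').natDegree = 0 := by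
    have h1 : fs (mF F g') ∣ Polynomial.C p₀ := by
      rw [← fs_inc, fs_dvd]; exact hg'ass.symm.dvd
    have h2 := Polynomial.natDegree_le_of_dvd h1 (Polynomial.C_ne_zero.2 hp₀.ne_zero)
    rw [Polynomial.natDegree_C] at h2
    have h3 := fs_map F.subtype g'
    rw [h3, Polynomial.natDegree_map_eq_of_injective (map_inj _)] at h2
    omega
  obtain ⟨g₀, rfl⟩ := exists_inc_of_natDegree hg'deg
  have hmap : mF F (inc n g₀) = inc n (mF F g₀) := map_inc _ _
  rw [hmap] at hg'irr hg'ass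
  set q₀ : Pol K n := mF F g₀ with hq₀
  have hq₀irr : Irreducible q₀ := irreducible_of_inc hg'irr
  have hass : Associated q₀ p₀ :=
    associated_of_dvd_dvd (inc_dvd.1 hg'ass.symm.dvd) (inc_dvd.1 hg'ass.dvd)
  obtain ⟨w, hw⟩ := hass
  have hq₀b : ¬ q₀ ∣ (w : Pol K n) * b := by
    intro hd
    rcases hq₀irr.prime.dvd_or_dvd hd with h | h
    · exact hq₀irr.not_isUnit (isUnit_of_dvd_unit h w.isUnit)
    · apply hb1
      rw [inc_dvd, ← hw]
      exact (Units.mul_right_dvd).2 h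
  obtain ⟨j, hj⟩ := exists_pderiv_ne hq₀irr
  have hWR' : W * algebraMap _ _ (inc n q₀ * (inc n ((w : Pol K n) * b) * χ)) = algebraMap _ _ R := by
    rw [← hWR, ← hw]
    congr 2
    rw [map_mul, map_mul, map_mul]
    ring
  apply hndR
  have hdvd : inc n q₀ ∣ R := by
    refine hCore n j q₀ ((w : Pol K n) * b) χ R hq₀irr hj hq₀b hlc hR ?_
    intro μ Ω _ _ φ hφ
    have hA := tauMat_isUnit j μ
    have htauq : mF F (lins (tauMat j μ) (inc n g₀)) = tau j μ (inc n q₀) := by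
      rw [tau_eq, hq₀]
      rw [← hmap]
      exact lins_map _ _ _
    have hirr' : Irreducible (mF F (lins (tauMat j μ) (inc n g₀))) := by
      rw [htauq, tau_eq]
      exact lins_irreducible hA (irreducible_inc hq₀irr)
    have hdeg' : 0 < (fs (mF F (lins (tauMat j μ) (inc n g₀)))).natDegree := by
      rw [htauq]
      exact natDegree_tau_inc j μ hj
    obtain ⟨x, hx, hsum, hxm⟩ := trResL n Ω₀ O ρ T S hS t t ht F hF
      (lins (tauMat j μ) (inc n g₀)) hirr' hdeg' _ (hl_mem_PL hA hW)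
    have hx0 := IH x hx (hxm (hl_Mm hA hWm))
    rw [htauq] at hsum
    have h5 := hsum (tau j μ R) (tau j μ (inc n ((w : Pol K n) * b) * χ)) (by
      rw [tau_eq, tau_eq, lins_dvd hA]
      intro hd
      rcases (irreducible_inc hq₀irr).prime.dvd_or_dvd hd with h | h
      · exact hq₀b (inc_dvd.1 h)
      · exact hpχ (hg'ass.dvd.trans h)) (by
      have h6 := congrArg (hl (tauMat j μ) hA) hWR'
      rw [map_mul, hl_am, hl_am, map_mul (lins (tauMat j μ))] at h6
      rw [tau_eq, tau_eq, tau_eq]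
      exact h6) Ω φ hφ
    rw [← h5, hx0, map_zero]
  exact hg'ass.dvd.trans hdvd

/-- the polar part has a polynomial numerator -/
theorem stepC [CharZero K] [CharZero Ω₀] (hIrr : StIrr K) (hCore : StCore K) {T : ℕ}
    (hS : Fam O T S) {t : ℕ} (ht : t + t ≤ T) (IH : ∀ x ∈ PL S n (t + t), Mm ρ x → x = 0)
    {W : Fr K (n + 1)} (hW : W ∈ PL S (n + 1) t) (hWm : Mm ρ W) {χ : Pol K (n + 1)}
    (hχ : Irreducible χ) (hdeg : 0 < (fs χ).natDegree)
    (hlc : ∃ c : K, (fs χ).leadingCoeff = C c) (b : Pol K n) (hb : b ≠ 0) :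
    ∀ R : Pol K (n + 1), (fs R).natDegree < (fs χ).natDegree →
      W * algebraMap _ _ (inc n b * χ) = algebraMap _ _ R →
      ∃ R', R = inc n b * R' ∧ W * algebraMap _ _ χ = algebraMap _ _ R' := by
  induction b using WfDvdMonoid.induction_on_irreducible with
  | zero => exact absurd rfl hb
  | unit b hu =>
    intro R _ hWR
    obtain ⟨c, hc, rfl⟩ := MvPolynomial.isUnit_iff_eq_C_of_isReduced.1 hu
    have hc0 : c ≠ 0 := hc.ne_zero
    have hcc : (C c : Pol K (n + 1)) * C c⁻¹ = 1 := by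
      rw [← C_mul, mul_inv_cancel₀ hc0, C_1]
    refine ⟨C c⁻¹ * R, ?_, ?_⟩
    · rw [inc_C, ← mul_assoc, hcc, one_mul]
    · rw [map_mul, ← hWR, inc_C, map_mul _ (C c) χ]
      have h2 : algebraMap (Pol K (n + 1)) (Fr K (n + 1)) (C c) *
          algebraMap (Pol K (n + 1)) (Fr K (n + 1)) (C c⁻¹) = 1 := by
        rw [← map_mul, hcc, map_one]
      linear_combination (-(W * algebraMap (Pol K (n + 1)) (Fr K (n + 1)) χ)) * h2
  | mul b' p₀ hb' hp₀ ih =>
    intro R hR hWR
    obtain ⟨R₁, rfl⟩ := pole_step hIrr hCore hS ht IH hW hWm hχ hdeg hlc hp₀ hR hWR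
    have h1 : W * algebraMap _ _ (inc n b' * χ) = algebraMap (Pol K (n + 1)) _ R₁ := by
      have h2 := am_ne (inc_ne hp₀.ne_zero)
      apply mul_left_cancel₀ h2
      rw [← map_mul, ← hWR, map_mul (inc n), mul_assoc (inc n p₀), map_mul _ (inc n p₀)]
      ring
    have hdeg1 : (fs R₁).natDegree < (fs χ).natDegree := by
      have h3 : fs (inc n p₀ * R₁) = Polynomial.C p₀ * fs R₁ := by
        rw [← fs_inc]; unfold fs; rw [map_mul]
      rw [h3] at hR
      rwa [Polynomial.natDegree_C_mul hp₀.ne_zero] at hR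
    obtain ⟨R', hR', hWR'⟩ := ih hb' R₁ hdeg1 h1
    refine ⟨R', ?_, hWR'⟩
    rw [hR', map_mul]; ring

/-- **the core claim**: no pole at `χ` -/
theorem core_claim [CharZero K] [CharZero Ω₀] (hRig : StRig K) (hIrr : StIrr K)
    (hCore : StCore K) {T : ℕ}
    (hS : Fam O T S) {t : ℕ} (ht : (t + t) + (t + t) ≤ T)
    (IH : ∀ x ∈ PL S n ((t + t) + (t + t)), Mm ρ x → x = 0)
    {F : Subfield K} (hF : F ∈ S t) {χ₀ : Pol F (n + 1)} (hχ : Irreducible (mF F χ₀))
    (hdeg : 0 < (fs (mF F χ₀)).natDegree)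
    (hlc : ∃ c : K, (fs (mF F χ₀)).leadingCoeff = C c)
    {V : Fr K (n + 1)} (hV : V ∈ PL S (n + 1) t)
    (hm : Mm ρ V) {U G : Pol K (n + 1)} (hG : ¬ mF F χ₀ ∣ G)
    (hVU : V * algebraMap _ _ (mF F χ₀ * G) = algebraMap _ _ U) : mF F χ₀ ∣ U := by
  obtain ⟨W, hW, hWm, b, R, hb, hR, hWR, hRU⟩ := tz hS (s := t) (t := t) (by omega) hF hχ hdeg
    hV hm hG hVU
  obtain ⟨R', hR', hWR'⟩ := stepC hIrr hCore hS ht IH hW hWm hχ hdeg hlc b hb R hR hWR
  have hχ0 : χ₀ ≠ 0 := by
    rintro rfl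
    rw [map_zero] at hχ
    exact hχ.ne_zero rfl
  obtain ⟨P₀, hP₀⟩ := hRig F (hS.closed t F hF) (n + 1) W (PL_le_PLK hW) χ₀ R' hχ0 hWR'
  have hle : F.toSubring ≤ O := hS.le t F hF (by omega)
  have h1 : MvPolynomial.map ρ (MvPolynomial.map (eO hle) P₀) = 0 := by
    apply hWm.num (G := MvPolynomial.map (eO hle) χ₀)
    rw [mO_eO, mO_eO, hWR', hP₀]
  have h2 : P₀ = 0 := by
    by_contra h0
    exact rho_eO_inj hle h0 h1
  apply hRU
  rw [hR', hP₀, h2, map_zero, mul_zero]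

end LF
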