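import Pool.Agent.Helper6.LF.LMap

/-!
The residue lemma in the setting of the local principle [L].
-/

open MvPolynomial

namespace LF

universe u

variable {K : Type u} [Field K] {n : ℕ}

/-! ### generic formula for the residue -/

/-- formula for an element given by a root sum -/
theorem res_formula [CharZero K] {π U G u v : Pol K (n + 1)} {ρ₀ : Pol K n}
    (hπ : Irreducible π) (hdeg : 0 < (fs π).natDegree) (hGnd : ¬ π ∣ G) (hρ : ρ₀ ≠ 0)
    (he : π * u + G * v = inc n ρ₀) {s : ℕ} {q r : Polynomial (Pol K n)}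
    (hdiv : Polynomial.C ((fs π).leadingCoeff ^ s) * fs (U * v) = fs π * q + r)
    (hr : r.natDegree < (fs π).natDegree) {x : Fr K n}
    (hx : ∀ (Ω : Type u) [Field Ω] [IsAlgClosed Ω] (φ : Pol K n →+* Ω)
      (hφ : Function.Injective φ),
      IsFractionRing.lift hφ x = ∑ ζ ∈ rts φ π, ext φ ζ U / (ext φ ζ G * ext φ ζ (pderiv 0 π))) :
    x * algebraMap _ _ ((fs π).leadingCoeff ^ (s + 1) * ρ₀) =
      algebraMap (Pol K n) (Fr K n) (r.coeff ((fs π).natDegree - 1)) := by
  set c := (fs π).leadingCoeff with hc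
  have hc0 : c ≠ 0 := by
    rw [hc, Ne, Polynomial.leadingCoeff_eq_zero]; exact fs_ne hπ.ne_zero
  -- the formula for x
  have key0 : ∀ (Ω : Type u) [Field Ω] [IsAlgClosed Ω] (φ : Pol K n →+* Ω)
      (_ : Function.Injective φ), x * algebraMap _ _ (c ^ (s + 1) * ρ₀) =
      algebraMap (Pol K n) (Fr K n) (r.coeff ((fs π).natDegree - 1)) := by
    intro Ω _ _ φ hφ
    have hρ' : φ ρ₀ ≠ 0 := fun h => hρ (hφ (by rw [h, map_zero]))
    have hc' : φ c ≠ 0 := fun h => hc0 (hφ (by rw [h, map_zero]))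
    have h1 := hx Ω φ hφ
    have h2 : ∑ ζ ∈ rts φ π, ext φ ζ U / (ext φ ζ G * ext φ ζ (pderiv 0 π)) =
        (∑ ζ ∈ rts φ π, (r.map φ).eval ζ / ext φ ζ (pderiv 0 π)) / (φ c ^ s * φ ρ₀) := by
      rw [Finset.sum_div]
      apply Finset.sum_congr rfl
      intro ζ hζ
      rw [mem_rts hφ hπ.ne_zero] at hζ
      have h3 := ext_ne_zero hπ hdeg hGnd hφ hζ
      have h4 := ext_pderiv_ne_zero hπ hdeg hφ hζ
      have h5 : ext φ ζ G * ext φ ζ v = φ ρ₀ := by
        have := congrArg (ext φ ζ) he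
        rw [map_add, map_mul, map_mul, hζ, zero_mul, zero_add, ext_inc] at this
        exact this
      have h6 : φ c ^ s * ext φ ζ (U * v) = (r.map φ).eval ζ := by
        have := congrArg (fun f => (f.map φ).eval ζ) hdiv
        simp only [Polynomial.map_mul, Polynomial.map_add, Polynomial.map_C, Polynomial.eval_mul,
          Polynomial.eval_add, Polynomial.eval_C, map_pow, Polynomial.map_pow,
          Polynomial.eval_pow] at this
        rw [← ext_eq, ← ext_eq, hζ, zero_mul, zero_add] at this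
        exact this
      have hv0 : ext φ ζ v ≠ 0 := by
        intro h; rw [h, mul_zero] at h5; exact hρ' h5.symm
      rw [← h6, map_mul, ← h5]
      field_simp
    have hrd : (r.map φ).natDegree < (fs π).natDegree :=
      lt_of_le_of_lt Polynomial.natDegree_map_le hr
    rw [h2, lag_sum hπ hdeg hφ _ hrd, Polynomial.coeff_map, ← hc] at h1
    apply (IsFractionRing.lift hφ).injective
    rw [map_mul, IsFractionRing.lift_algebraMap, IsFractionRing.lift_algebraMap, h1, map_mul,
      map_pow]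
    field_simp
    ring
  exact key0 (AlgebraicClosure (Fr K n))
    ((algebraMap (Fr K n) (AlgebraicClosure (Fr K n))).comp (algebraMap (Pol K n) (Fr K n)))
    ((algebraMap (Fr K n) (AlgebraicClosure (Fr K n))).injective.comp am_inj)

/-! ### the maximal ideal -/

variable {Ω₀ : Type u} [Field Ω₀] {O : Subring K} {ρ : O →+* Ω₀}

theorem mO_inj (O : Subring K) {N : ℕ} :
    Function.Injective (mO O (N := N)) :=
  MvPolynomial.map_injective _ Subtype.val_injective

theorem Mm.num {V : Fr K n} (h : Mm ρ V) {U G : MvPolynomial (Fin n) O}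
    (hV : V * algebraMap _ _ (mO O G) = algebraMap _ _ (mO O U)) : MvPolynomial.map ρ U = 0 := by
  obtain ⟨P, Q, hQ, hP, hPQ⟩ := h
  have e : P * G = U * Q := by
    apply mO_inj O
    apply am_inj
    rw [map_mul, map_mul, map_mul, map_mul, ← hPQ, ← hV]; ring
  have e2 := congrArg (MvPolynomial.map ρ) e
  rw [map_mul, map_mul, hP, zero_mul] at e2
  exact (mul_eq_zero.1 e2.symm).resolve_right hQ

/-! ### coprimality -/

/-- `h` is coprime to `π`, generically and after reduction -/
def CpL (ρ : O →+* Ω₀) (π h : MvPolynomial (Fin (n + 1)) O) : Prop :=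
  ∃ (u v : MvPolynomial (Fin (n + 1)) O) (r : MvPolynomial (Fin n) O),
    π * u + h * v = rename Fin.succ r ∧ MvPolynomial.map ρ r ≠ 0

theorem CpL.mul {π h h' : MvPolynomial (Fin (n + 1)) O} (hc : CpL ρ π h) (hc' : CpL ρ π h') :
    CpL ρ π (h * h') := by
  obtain ⟨u, v, r, he, hr⟩ := hc
  obtain ⟨u', v', r', he', hr'⟩ := hc'
  refine ⟨u * (π * u' + h' * v') + h * v * u', v * v', r * r', ?_, ?_⟩
  · rw [map_mul, ← he, ← he']; ring
  · rw [map_mul]
    exact mul_ne_zero hr hr'

theorem cpL_one {π : MvPolynomial (Fin (n + 1)) O} : CpL ρ π 1 :=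
  ⟨0, 1, 1, by simp, by simp⟩

theorem cpL_prod {ι : Type*} {π : MvPolynomial (Fin (n + 1)) O} (s : Finset ι)
    (h : ι → MvPolynomial (Fin (n + 1)) O)
    (hc : ∀ i ∈ s, CpL ρ π (h i)) : CpL ρ π (∏ i ∈ s, h i) := by
  classical
  induction s using Finset.induction_on with
  | empty => simpa using cpL_one
  | insert a s ha ih =>
    rw [Finset.prod_insert ha]
    exact (hc a (Finset.mem_insert_self _ _)).mul (ih fun i hi => hc i (Finset.mem_insert_of_mem hi))

theorem CpL.not_dvd {π h : MvPolynomial (Fin (n + 1)) O}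
    (hdeg : 0 < (fs (mO O π)).natDegree) (hc : CpL ρ π h) :
    ¬ mO O π ∣ mO O h := by
  obtain ⟨u, v, r, he, hr⟩ := hc
  intro hd
  have hr0 : mO O r ≠ 0 := by
    intro h0
    apply hr
    have : r = 0 := mO_inj O (by rw [h0, map_zero])
    rw [this, map_zero]
  have h1 : mO O (rename Fin.succ r) = inc n (mO O r) := MvPolynomial.map_rename _ _ _
  refine not_dvd_inc hdeg hr0 ?_
  rw [← h1, ← he, map_add, map_mul, map_mul]
  exact (dvd_mul_right _ _).add (hd.mul_right _)

/-- the embedding of a subfield contained in `O` -/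
noncomputable def eO {F : Subfield K} (h : F.toSubring ≤ O) : F →+* O := Subring.inclusion h

theorem mO_eO {F : Subfield K} (h : F.toSubring ≤ O) {N : ℕ} (f : Pol F N) :
    mO O (MvPolynomial.map (eO h) f) = mF F f := by
  rw [MvPolynomial.map_map]
  rfl

theorem rho_eO_inj {F : Subfield K} (h : F.toSubring ≤ O) {N : ℕ} {f : Pol F N} (hf : f ≠ 0) :
    MvPolynomial.map ρ (MvPolynomial.map (eO h) f) ≠ 0 := by
  rw [MvPolynomial.map_map]
  intro h0
  exact hf (MvPolynomial.map_injective _ (ρ.comp (eO h)).injective (by rw [h0, map_zero]))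

theorem cpL_of_irr {F : Subfield K} (hF : F.toSubring ≤ O) {π h : Pol F (n + 1)}
    (hπ : Irreducible π) (hdeg : 0 < (fs π).natDegree) (hnd : ¬ π ∣ h) :
    CpL ρ (MvPolynomial.map (eO hF) π) (MvPolynomial.map (eO hF) h) := by
  obtain ⟨u, v, r, hr, he, -⟩ := exists_bezout hπ hdeg hnd
  refine ⟨MvPolynomial.map (eO hF) u, MvPolynomial.map (eO hF) v, MvPolynomial.map (eO hF) r,
    ?_, rho_eO_inj hF hr⟩
  rw [← map_mul, ← map_mul, ← map_add, he]
  exact MvPolynomial.map_rename _ _ _

end LF
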