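import Pool.Agent.Helper6.LF.LTr

/-!
The residue lemma in the setting of the local principle [L], part 2.
-/

open MvPolynomial

namespace LF

universe u

/-! ### factoring log-Jacobians -/

theorem J_mem_of_irr_add {k : Type u} [Field k] {M n : ℕ} {a : Fin n → Fin M}
    (W : AddSubgroup (Fr k M))
    (h : ∀ q : Fin n → Pol k M, (∀ i, Irreducible (q i)) →
      J (algebraMap (Pol k M) (Fr k M)) a q ∈ W) (S : Finset (Fin n)) :
    ∀ f : Fin n → Pol k M, (∀ i, f i ≠ 0) →
      (∀ i, i ∉ S → Irreducible (f i)) → J (algebraMap (Pol k M) (Fr k M)) a f ∈ W := by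
  classical
  induction S using Finset.induction_on with
  | empty =>
    intro f _ hirr
    exact h f (fun i => hirr i (Finset.notMem_empty i))
  | insert i₀ S hi₀ ih =>
    intro f hf hirr
    have key : ∀ g : Pol k M, g ≠ 0 →
        J (algebraMap (Pol k M) (Fr k M)) a (Function.update f i₀ g) ∈ W := by
      intro g
      induction g using WfDvdMonoid.induction_on_irreducible with
      | zero => intro h; exact absurd rfl h
      | unit g hg =>
        intro _
        rw [J_zero_of_unit _ _ _ i₀ (by simpa using hg)]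
        exact W.zero_mem
      | mul g q hg hq ihg =>
        intro hqg
        have hg0 : g ≠ 0 := hg
        have hq0 : q ≠ 0 := hq.ne_zero
        rw [J_update_mul _ _ _ _ (am_ne hq0) (am_ne hg0)]
        apply W.add_mem
        · apply ih
          · intro i
            by_cases hi : i = i₀
            · subst hi; simpa using hq0
            · simpa [hi] using hf i
          · intro i hi
            by_cases hi' : i = i₀
            · subst hi'; simpa using hq
            · rw [Function.update_of_ne hi']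
              exact hirr i (by simp [hi', hi])
        · exact ihg hg0
    have := key (f i₀) (hf i₀)
    rwa [Function.update_eq_self] at this

variable {K : Type u} [Field K] {n : ℕ}
variable {Ω₀ : Type u} [Field Ω₀] {O : Subring K} {ρ : O →+* Ω₀}

/-- descent of irreducibility -/
theorem irr_descend {k₁ k₂ : Type u} [Field k₁] [Field k₂] {M : ℕ} (e : k₁ →+* k₂)
    {q : Pol k₁ M} (hq : Irreducible (MvPolynomial.map e q)) : Irreducible q := by
  have hunit : ∀ f : Pol k₁ M, IsUnit (MvPolynomial.map e f) → IsUnit f := by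
    intro f hf
    obtain ⟨c, hc, hfc⟩ := MvPolynomial.isUnit_iff_eq_C_of_isReduced.1 hf
    have h1 : f = C (coeff 0 f) := by
      ext m
      rw [coeff_C]
      split_ifs with hm
      · rw [← hm]
      · apply e.injective
        rw [map_zero, ← coeff_map, hfc, coeff_C, if_neg hm]
    rw [h1]
    refine IsUnit.map C (IsUnit.mk0 _ ?_)
    intro h0
    rw [h0, C_0] at h1
    rw [h1, map_zero] at hf
    exact not_isUnit_zero hf
  refine ⟨fun h => hq.not_isUnit (h.map _), ?_⟩
  intro a b hab
  have := hq.isUnit_or_isUnit (by rw [hab, map_mul] : MvPolynomial.map e q = _ * _)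
  exact this.imp (hunit a) (hunit b)

/-- `V` has a residue in `PL S n t` along `π` -/
def HasResL (S : ℕ → Set (Subfield K)) (t : ℕ) (ρ : O →+* Ω₀)
    (π : MvPolynomial (Fin (n + 1)) O) (V : Fr K (n + 1)) : Prop :=
  ∃ x ∈ PL S n t, ∃ U G : MvPolynomial (Fin (n + 1)) O, CpL ρ π G ∧
    V * algebraMap _ _ (mO O (π * G)) = algebraMap _ _ (mO O U) ∧
    ∀ (Ω : Type u) [Field Ω] [IsAlgClosed Ω] (φ : Pol K n →+* Ω) (hφ : Function.Injective φ),
      IsFractionRing.lift hφ x = ∑ ζ ∈ rts φ (mO O π), ext φ ζ (mO O U) /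
        (ext φ ζ (mO O G) * ext φ ζ (pderiv 0 (mO O π)))

variable {S : ℕ → Set (Subfield K)} {t : ℕ}

theorem hasResL_zero (π : MvPolynomial (Fin (n + 1)) O) : HasResL S t ρ π (0 : Fr K (n + 1)) := by
  refine ⟨0, (PL S n t).zero_mem, 0, 1, cpL_one, by simp, ?_⟩
  intro Ω _ _ φ hφ
  simp

theorem HasResL.neg {π : MvPolynomial (Fin (n + 1)) O} {V : Fr K (n + 1)}
    (h : HasResL S t ρ π V) : HasResL S t ρ π (-V) := by
  obtain ⟨x, hx, U, G, hG, hV, hs⟩ := h
  refine ⟨-x, (PL S n t).neg_mem hx, -U, G, hG, ?_, ?_⟩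
  · rw [map_neg, map_neg, ← hV]; ring
  · intro Ω _ _ φ hφ
    rw [map_neg, hs Ω φ hφ, ← Finset.sum_neg_distrib]
    apply Finset.sum_congr rfl
    intro ζ _
    rw [map_neg, map_neg]; ring

theorem HasResL.add {π : MvPolynomial (Fin (n + 1)) O} (hπ : Irreducible (mO O π))
    (hdeg : 0 < (fs (mO O π)).natDegree) {V V' : Fr K (n + 1)}
    (h : HasResL S t ρ π V) (h' : HasResL S t ρ π V') : HasResL S t ρ π (V + V') := by
  obtain ⟨x, hx, U, G, hG, hV, hs⟩ := h
  obtain ⟨x', hx', U', G', hG', hV', hs'⟩ := h'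
  refine ⟨x + x', (PL S n t).add_mem hx hx', U * G' + U' * G, G * G', hG.mul hG', ?_, ?_⟩
  · have e1 : mO O (U * G' + U' * G) = mO O U * mO O G' + mO O U' * mO O G := by
      rw [map_add, map_mul, map_mul]
    have e2 : mO O (π * (G * G')) = mO O π * (mO O G * mO O G') := by
      rw [map_mul, map_mul]
    have e3 : mO O (π * G) = mO O π * mO O G := map_mul _ _ _
    have e4 : mO O (π * G') = mO O π * mO O G' := map_mul _ _ _
    rw [e3] at hV
    rw [e4] at hV'
    rw [e1, e2, map_add, map_mul _ (mO O U), map_mul _ (mO O U'), ← hV, ← hV',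
      map_mul _ (mO O π), map_mul _ (mO O π), map_mul _ (mO O π), map_mul _ (mO O G)]
    ring
  · intro Ω _ _ φ hφ
    rw [map_add, hs Ω φ hφ, hs' Ω φ hφ, ← Finset.sum_add_distrib]
    apply Finset.sum_congr rfl
    intro ζ hζ
    rw [mem_rts hφ hπ.ne_zero] at hζ
    have h1 := ext_ne_zero hπ hdeg (hG.not_dvd hdeg) hφ hζ
    have h2 := ext_ne_zero hπ hdeg (hG'.not_dvd hdeg) hφ hζ
    by_cases h3 : ext φ ζ (pderiv 0 (mO O π)) = 0
    · rw [h3]; simp
    rw [map_add, map_add, map_mul, map_mul, map_mul, map_mul, map_mul, map_mul]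
    field_simp

theorem mem_PL_of_int {F : Subfield K} (hF : F ∈ S t) {x : Fr F n}
    (hx : x ∈ Submodule.span ℤ {x | ∃ f : Fin n → Pol F n, (∀ i, f i ≠ 0) ∧
        x = J (algebraMap (Pol F n) (Fr F n)) id f}) : fr F.subtype n x ∈ PL S n t := by
  refine Submodule.span_induction (p := fun x _ => fr F.subtype n x ∈ PL S n t) ?_ ?_ ?_ ?_ hx
  · rintro x ⟨f, hf, rfl⟩
    rw [fr_J]
    exact AddSubgroup.subset_closure ⟨F, hF, f, hf, rfl⟩
  · rw [map_zero]; exact (PL S n t).zero_mem
  · intro x y _ _ hx hy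
    rw [map_add]; exact (PL S n t).add_mem hx hy
  · intro c x _ hx
    rw [map_zsmul]; exact (PL S n t).zsmul_mem hx c

/-- residues of log-Jacobians of irreducible polynomials over `F` -/
theorem hasResL_J [CharZero K] {F : Subfield K} (hF : F ∈ S t) (hle : F.toSubring ≤ O)
    {π : Pol F (n + 1)} (hπ : Irreducible π) (hdeg : 0 < (fs π).natDegree)
    (q : Fin (n + 1) → Pol F (n + 1)) (hq : ∀ i, Irreducible (q i)) :
    HasResL S t ρ (MvPolynomial.map (eO hle) π)
      (fr F.subtype (n + 1) (J (algebraMap (Pol F (n + 1)) (Fr F (n + 1)))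
        (up (id : Fin n → Fin n)) q)) := by
  classical
  by_cases hcase : ∀ i, ¬ π ∣ q i
  · refine ⟨0, (PL S n t).zero_mem, MvPolynomial.map (eO hle)
      (π * Matrix.det (Matrix.of fun i j => pderiv (up (id : Fin n → Fin n) j) (q i))),
      ∏ i, MvPolynomial.map (eO hle) (q i), ?_, ?_, ?_⟩
    · exact cpL_prod _ _ fun i _ => cpL_of_irr hle hπ hdeg (hcase i)
    · rw [← map_prod, ← map_mul, mO_eO, mO_eO, ← fr_am, ← map_mul, ← fr_am]
      congr 1
      rw [map_mul _ π (Matrix.det _), ← J_mul_prod (up id) q (fun i => (hq i).ne_zero),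
        map_mul _ π (∏ i, q i)]
      ring
    · intro Ω _ _ φ hφ
      rw [map_zero]
      symm
      apply Finset.sum_eq_zero
      intro ζ hζ
      have hφ' : Function.Injective (φ.comp (MvPolynomial.map F.subtype) : Pol F n →+* Ω) :=
        hφ.comp (map_inj _)
      rw [mO_eO, rts_map, mem_rts hφ' hπ.ne_zero] at hζ
      rw [mO_eO, ext_map, map_mul, hζ]; simp
  · push Not at hcase
    obtain ⟨i₀, hi₀⟩ := hcase
    have hass : Associated π (q i₀) := (hπ.dvd_irreducible_iff_associated (hq i₀)).1 hi₀
    by_cases h2 : ∃ i, π ∣ q (i₀.succAbove i)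
    · obtain ⟨i, hi⟩ := h2
      have hass2 : Associated π (q (i₀.succAbove i)) :=
        (hπ.dvd_irreducible_iff_associated (hq _)).1 hi
      rw [J_zero_of_associated _ _ _ (Fin.succAbove_ne i₀ i).symm (hass.symm.trans hass2)
        (am_ne (hq _).ne_zero), map_zero]
      exact hasResL_zero _
    · push Not at h2
      have hJ : J (algebraMap (Pol F (n + 1)) (Fr F (n + 1))) (up id) q = (-1) ^ (i₀ : ℕ) *
          J (algebraMap (Pol F (n + 1)) (Fr F (n + 1))) (up (id : Fin n → Fin n))
            (Fin.cons π (fun i => q (i₀.succAbove i))) := by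
        rw [J_cons_succAbove _ _ q i₀]
        congr 1
        apply J_congr_lr
        intro i
        refine Fin.cases ?_ (fun i => ?_) i
        · exact (lr_associated _ _ hass (am_ne hπ.ne_zero)).symm
        · rfl
      have hsm : HasResL S t ρ (MvPolynomial.map (eO hle) π)
          (fr F.subtype (n + 1) (J (algebraMap (Pol F (n + 1)) (Fr F (n + 1)))
            (up (id : Fin n → Fin n)) (Fin.cons π (fun i => q (i₀.succAbove i))))) := by
        set g : Fin n → Pol F (n + 1) := fun i => q (i₀.succAbove i) with hg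
        obtain ⟨x, hx, hTR⟩ := BT.bassTate_int (id : Fin n → Fin n) π g hπ hdeg h2
        refine ⟨fr F.subtype n x, mem_PL_of_int hF hx, MvPolynomial.map (eO hle)
          (Matrix.det (Matrix.of fun i j => pderiv (up (id : Fin n → Fin n) j)
            ((Fin.cons π g : Fin (n + 1) → Pol F (n + 1)) i))),
          ∏ i, MvPolynomial.map (eO hle) (g i), ?_, ?_, ?_⟩
        · exact cpL_prod _ _ fun i _ => cpL_of_irr hle hπ hdeg (h2 i)
        · have h3 := J_mul_prod (up (id : Fin n → Fin n))
            (Fin.cons π g : Fin (n + 1) → Pol F (n + 1)) (by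
            intro i
            refine Fin.cases ?_ (fun i => ?_) i
            · exact hπ.ne_zero
            · exact (hq _).ne_zero)
          rw [Fin.prod_univ_succ] at h3
          rw [← map_prod, ← map_mul, mO_eO, mO_eO, ← fr_am, ← map_mul, ← fr_am]
          congr 1
        · intro Ω _ _ φ hφ
          have hφ' : Function.Injective (φ.comp (MvPolynomial.map F.subtype) : Pol F n →+* Ω) :=
            hφ.comp (map_inj _)
          rw [lift_fr _ hφ, ← hTR Ω (φ.comp (MvPolynomial.map F.subtype)) hφ']
          unfold TR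
          rw [mO_eO, rts_map]
          apply Finset.sum_congr rfl
          intro ζ hζ
          rw [mem_rts hφ' hπ.ne_zero] at hζ
          have h4 : ∀ i, ext (φ.comp (MvPolynomial.map F.subtype)) ζ (g i) ≠ 0 :=
            fun i => ext_ne_zero hπ hdeg (h2 i) hφ' hζ
          rw [← map_prod, mO_eO, mO_eO, MvPolynomial.pderiv_map, ext_map, ext_map, ext_map,
            rho_mul_prod (ext (φ.comp (MvPolynomial.map F.subtype)) ζ) id π g h4]
          have h5 : ext (φ.comp (MvPolynomial.map F.subtype)) ζ (∏ i, g i) ≠ 0 := by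
            rw [map_prod]
            exact Finset.prod_ne_zero_iff.2 fun i _ => h4 i
          rw [mul_comm (ext _ ζ (∏ i, g i)) _, mul_div_mul_right _ _ h5]
      rw [hJ]
      rcases neg_one_pow_eq_or (Fr F (n + 1)) (i₀ : ℕ) with h | h
      · rw [h, one_mul]; exact hsm
      · rw [h, neg_one_mul, map_neg]
        exact hsm.neg

theorem up_id : up (id : Fin n → Fin n) = id := by
  funext i
  refine Fin.cases rfl (fun i => ?_) i
  rfl

end LF
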