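import Pool.Agent.Helper6.LF.LTr2

/-!
The residue lemma in the setting of the local principle [L], part 3.
-/

open MvPolynomial

namespace LF

universe u

variable {K : Type u} [Field K] {n : ℕ}
variable {Ω₀ : Type u} [Field Ω₀] {O : Subring K} {ρ : O →+* Ω₀}
variable {S : ℕ → Set (Subfield K)} {t : ℕ}

/-- residues of log-Jacobians of polynomials over `F` -/
theorem hasResL_J' [CharZero K] {F : Subfield K} (hF : F ∈ S t) (hle : F.toSubring ≤ O)
    {π : Pol F (n + 1)} (hπ : Irreducible (mF F π)) (hdeg : 0 < (fs (mF F π)).natDegree)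
    (f : Fin (n + 1) → Pol F (n + 1)) (hf : ∀ i, f i ≠ 0) :
    HasResL S t ρ (MvPolynomial.map (eO hle) π)
      (J (algebraMap (Pol K (n + 1)) (Fr K (n + 1))) (id : Fin (n + 1) → Fin (n + 1))
        (fun i => mF F (f i))) := by
  have hπF : Irreducible π := irr_descend F.subtype hπ
  have hdF : 0 < (fs π).natDegree := by
    have := fs_map F.subtype π
    rw [this, Polynomial.natDegree_map_eq_of_injective (map_inj _)] at hdeg
    exact hdeg
  have hπO : Irreducible (mO O (MvPolynomial.map (eO hle) π)) := by rwa [mO_eO]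
  have hdO : 0 < (fs (mO O (MvPolynomial.map (eO hle) π))).natDegree := by rwa [mO_eO]
  have key := J_mem_of_irr_add (a := (id : Fin (n + 1) → Fin (n + 1)))
    (AddSubgroup.closure {x | ∃ q : Fin (n + 1) → Pol F (n + 1), (∀ i, Irreducible (q i)) ∧
      x = J (algebraMap (Pol F (n + 1)) (Fr F (n + 1))) id q})
    (fun q hq => AddSubgroup.subset_closure ⟨q, hq, rfl⟩) Finset.univ f hf
    (fun i hi => absurd (Finset.mem_univ i) hi)
  have : ∀ y ∈ AddSubgroup.closure {x | ∃ q : Fin (n + 1) → Pol F (n + 1),
      (∀ i, Irreducible (q i)) ∧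
      x = J (algebraMap (Pol F (n + 1)) (Fr F (n + 1))) (id : Fin (n + 1) → Fin (n + 1)) q},
      HasResL S t ρ (MvPolynomial.map (eO hle) π) (fr F.subtype (n + 1) y) := by
    intro y hy
    refine AddSubgroup.closure_induction
      (p := fun y _ => HasResL S t ρ (MvPolynomial.map (eO hle) π) (fr F.subtype (n + 1) y))
      ?_ ?_ ?_ ?_ hy
    · rintro x ⟨q, hq, rfl⟩
      have := hasResL_J (ρ := ρ) hF hle hπF hdF q hq
      rwa [up_id] at this
    · rw [map_zero]; exact hasResL_zero _
    · intro x y _ _ hx hy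
      rw [map_add]; exact hx.add hπO hdO hy
    · intro x _ hx
      rw [map_neg]; exact hx.neg
  have h1 := this _ key
  rwa [fr_J] at h1

theorem mF_inclusion {F F' : Subfield K} (h : F ≤ F') {N : ℕ} (f : Pol F N) :
    mF F' (MvPolynomial.map (Subfield.inclusion h) f) = mF F f := by
  rw [MvPolynomial.map_map]
  rfl

theorem eO_inclusion {F F' : Subfield K} (h : F ≤ F') (hle : F.toSubring ≤ O)
    (hle' : F'.toSubring ≤ O) {N : ℕ} (f : Pol F N) :
    MvPolynomial.map (eO hle') (MvPolynomial.map (Subfield.inclusion h) f) =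
      MvPolynomial.map (eO hle) f := by
  rw [MvPolynomial.map_map]
  rfl

/-- **TrRes** in the setting of [L] -/
theorem trResL [CharZero K] (n : ℕ) : TrResL K n := by
  intro Ω₀ _ _ O ρ T S hS s t hst F hF π hπ hdeg V hV
  have hleF : F.toSubring ≤ O := hS.le s F hF (by omega)
  have hπO : Irreducible (mO O (MvPolynomial.map (eO hleF) π)) := by rwa [mO_eO]
  have hdO : 0 < (fs (mO O (MvPolynomial.map (eO hleF) π))).natDegree := by rwa [mO_eO]
  have hres : HasResL S (s + t) ρ (MvPolynomial.map (eO hleF) π) V := by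
    refine AddSubgroup.closure_induction
      (p := fun V _ => HasResL S (s + t) ρ (MvPolynomial.map (eO hleF) π) V) ?_ ?_ ?_ ?_ hV
    · rintro x ⟨F', hF', f, hf, rfl⟩
      obtain ⟨F'', hF'', h1, h2⟩ := hS.sup s t F F' hF hF'
      have hle'' : F''.toSubring ≤ O := hS.le _ F'' hF'' hst
      have h3 := hasResL_J' (ρ := ρ) (S := S) hF'' hle''
        (π := MvPolynomial.map (Subfield.inclusion h1) π) (by rwa [mF_inclusion])
        (by rwa [mF_inclusion]) (fun i => MvPolynomial.map (Subfield.inclusion h2) (f i))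
        (fun i h0 => hf i (map_inj _ (by rw [h0, map_zero])))
      rw [eO_inclusion h1 hleF hle''] at h3
      simpa only [mF_inclusion] using h3
    · exact hasResL_zero _
    · intro x y _ _ hx hy
      exact hx.add hπO hdO hy
    · intro x _ hx
      exact hx.neg
  obtain ⟨x, hx, U, G, hG, hVU, hs⟩ := hres
  have hGnd := hG.not_dvd hdO
  have hmul : mO O (MvPolynomial.map (eO hleF) π * G) = mF F π * mO O G := by
    rw [map_mul, mO_eO]
  refine ⟨x, hx, ?_, ?_⟩
  · intro U' G' hG' hV' Ω _ _ φ hφ
    rw [hs Ω φ hφ]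
    apply Finset.sum_congr (by rw [mO_eO])
    intro ζ hζ
    rw [mem_rts hφ hπ.ne_zero] at hζ
    rw [mO_eO] at hGnd
    rw [hmul] at hVU
    rw [mO_eO, ← div_div, ← div_div, div_eq_of_repr hπ hdeg hGnd hG' hVU hV' hφ hζ]
  · intro hm
    have hU := hm.num hVU
    obtain ⟨u, v, r, he, hr⟩ := hG
    set πO := MvPolynomial.map (eO hleF) π with hπO_def
    have hfse : fs (mO O πO) = (finSuccEquiv O n πO).map (mO O) := fse_map _ _
    have hdP : 0 < (finSuccEquiv O n πO).natDegree := by
      rw [hfse, Polynomial.natDegree_map_eq_of_injective (mO_inj O)] at hdO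
      exact hdO
    have hlcP : (fs (mO O πO)).leadingCoeff = mO O (finSuccEquiv O n πO).leadingCoeff := by
      rw [hfse, Polynomial.leadingCoeff_map_of_injective (mO_inj O)]
    have hdegeq : (fs (mO O πO)).natDegree = (finSuccEquiv O n πO).natDegree := by
      rw [hfse, Polynomial.natDegree_map_eq_of_injective (mO_inj O)]
    obtain ⟨s', q, r', hdiv, hr'⟩ := pseudo_div (finSuccEquiv O n πO) hdP
      (finSuccEquiv O n (U * v))
    have hr0 : mO O r ≠ 0 := by
      intro h0
      apply hr
      have : r = 0 := mO_inj O (by rw [h0, map_zero])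
      rw [this, map_zero]
    have heK : mO O πO * mO O u + mO O G * mO O v = inc n (mO O r) := by
      rw [← map_mul, ← map_mul, ← map_add, he]
      exact MvPolynomial.map_rename _ _ _
    have hdivK : Polynomial.C ((fs (mO O πO)).leadingCoeff ^ s') * fs (mO O U * mO O v) =
        fs (mO O πO) * q.map (mO O) + r'.map (mO O) := by
      have h1 := congrArg (Polynomial.map (mO O)) hdiv
      rw [Polynomial.map_mul, Polynomial.map_add, Polynomial.map_mul, Polynomial.map_C,
        ← fse_map, ← fse_map, map_pow, ← hlcP, map_mul] at h1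
      exact h1
    have hform := res_formula hπO hdO hGnd hr0 heK hdivK
      (lt_of_le_of_lt Polynomial.natDegree_map_le (by rw [hdegeq]; exact hr')) hs
    rw [hlcP, Polynomial.coeff_map, ← map_pow, ← map_mul] at hform
    have hlc0 : MvPolynomial.map ρ (finSuccEquiv O n πO).leadingCoeff ≠ 0 := by
      have heO : Function.Injective (MvPolynomial.map (eO hleF) :
          MvPolynomial (Fin n) F →+* MvPolynomial (Fin n) O) :=
        MvPolynomial.map_injective _ (Subring.inclusion_injective hleF)
      have h1 : (finSuccEquiv O n πO).leadingCoeff =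
          MvPolynomial.map (eO hleF) (fs π).leadingCoeff := by
        rw [hπO_def, fse_map, Polynomial.leadingCoeff_map_of_injective heO]
      rw [h1]
      apply rho_eO_inj
      rw [Ne, Polynomial.leadingCoeff_eq_zero]
      apply fs_ne
      intro h0
      rw [h0, map_zero] at hπ
      exact hπ.ne_zero rfl
    refine ⟨r'.coeff ((fs (mO O πO)).natDegree - 1),
      (finSuccEquiv O n πO).leadingCoeff ^ (s' + 1) * r, ?_, ?_, hform⟩
    · rw [map_mul, map_pow]
      exact mul_ne_zero (pow_ne_zero _ hlc0) hr
    · have hUv : (finSuccEquiv O n (U * v)).map (MvPolynomial.map ρ) = 0 := by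
        rw [← fse_map, map_mul, hU, zero_mul, map_zero]
      have h7 := map_rem_zero' hlc0 hdiv hr' hUv
      have h8 := congrArg (fun f => Polynomial.coeff f ((fs (mO O πO)).natDegree - 1)) h7
      simpa [Polynomial.coeff_map] using h8

end LF
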