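import Pool.Agent.Helper6.LF.LTr3

/-!
The step `V(z)/(t - z)`: the polar part of an element of the span is again in the span.
-/

open MvPolynomial

namespace LF

universe u

section jz

variable {R : Type*} [CommRing R] {n : ℕ}

/-- rename `X 0 ↦ X 0`, `X (j+1) ↦ X (j+2)` -/
noncomputable def jz (n : ℕ) : MvPolynomial (Fin (n + 1)) R →+* MvPolynomial (Fin (n + 2)) R :=
  (rename (Fin.succAbove (1 : Fin (n + 2))) : MvPolynomial (Fin (n + 1)) R →ₐ[R] _).toRingHom

theorem jz_apply (f : MvPolynomial (Fin (n + 1)) R) :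
    jz n f = rename (Fin.succAbove (1 : Fin (n + 2))) f := rfl

theorem jz_injective : Function.Injective (jz (R := R) n) :=
  rename_injective _ Fin.succAbove_right_injective

theorem jz_map {S : Type*} [CommRing S] (e : R →+* S) (f : MvPolynomial (Fin (n + 1)) R) :
    MvPolynomial.map e (jz n f) = jz n (MvPolynomial.map e f) := MvPolynomial.map_rename _ _ _

theorem pderiv_jz (j : Fin (n + 1)) (f : MvPolynomial (Fin (n + 1)) R) :
    pderiv ((1 : Fin (n + 2)).succAbove j) (jz n f) = jz n (pderiv j f) :=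
  MvPolynomial.pderiv_rename Fin.succAbove_right_injective _ _

theorem pderiv_zero_jz (f : MvPolynomial (Fin (n + 1)) R) :
    pderiv 0 (jz n f) = jz n (pderiv 0 f) := by
  have := pderiv_jz (R := R) 0 f
  simpa using this

theorem pderiv_one_jz (f : MvPolynomial (Fin (n + 1)) R) : pderiv 1 (jz n f) = 0 := by
  classical
  apply pderiv_eq_zero_of_notMem_vars
  intro h
  have h1 := vars_rename (Fin.succAbove (1 : Fin (n + 2))) f h
  rw [Finset.mem_image] at h1
  obtain ⟨j, -, hj⟩ := h1
  exact Fin.succAbove_ne _ _ hj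

/-- left inverse of `jz` sending `X 1` to `X 0 + 1` -/
noncomputable def jzl (n : ℕ) : MvPolynomial (Fin (n + 2)) R →+* MvPolynomial (Fin (n + 1)) R :=
  (aeval (Fin.insertNth (α := fun _ => MvPolynomial (Fin (n + 1)) R) 1 (X 0 + 1)
    (fun j : Fin (n + 1) => X j)) :
    MvPolynomial (Fin (n + 2)) R →ₐ[R] _).toRingHom

theorem jzl_jz (f : MvPolynomial (Fin (n + 1)) R) : jzl n (jz n f) = f := by
  have : ((aeval (Fin.insertNth (α := fun _ => MvPolynomial (Fin (n + 1)) R) 1 (X 0 + 1)
    (fun j : Fin (n + 1) => X j)) :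
    MvPolynomial (Fin (n + 2)) R →ₐ[R] _).comp
      (rename (Fin.succAbove (1 : Fin (n + 2))))) =
      AlgHom.id R (MvPolynomial (Fin (n + 1)) R) := by
    apply MvPolynomial.algHom_ext
    intro i
    simp
  exact DFunLike.congr_fun this f

theorem jzl_sub : jzl (R := R) n (X 1 - X 0) = 1 := by
  unfold jzl
  have h0 : (aeval (Fin.insertNth (α := fun _ => MvPolynomial (Fin (n + 1)) R) 1 (X 0 + 1)
    (fun j : Fin (n + 1) => X j)) :
    MvPolynomial (Fin (n + 2)) R →ₐ[R] _) (X 0) = X 0 := by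
    rw [aeval_X]
    have : (0 : Fin (n + 2)) = (1 : Fin (n + 2)).succAbove 0 := by simp
    rw [this, Fin.insertNth_apply_succAbove]
  have h1 : (aeval (Fin.insertNth (α := fun _ => MvPolynomial (Fin (n + 1)) R) 1 (X 0 + 1)
    (fun j : Fin (n + 1) => X j)) :
    MvPolynomial (Fin (n + 2)) R →ₐ[R] _) (X 1) = X 0 + 1 := by
    rw [aeval_X, Fin.insertNth_apply_same]
  show (aeval (Fin.insertNth (α := fun _ => MvPolynomial (Fin (n + 1)) R) 1 (X 0 + 1)
    (fun j : Fin (n + 1) => X j)) :
    MvPolynomial (Fin (n + 2)) R →ₐ[R] _) (X 1 - X 0) = 1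
  rw [map_sub, h0, h1]; ring

end jz

section field

variable {k : Type u} [Field k] {n : ℕ}

theorem irreducible_inc {M : ℕ} {f : Pol k M} (hf : Irreducible f) : Irreducible (inc M f) := by
  have h1 : Prime (Polynomial.C f) := Polynomial.prime_C_iff.2 hf.prime
  have h2 : Irreducible (fs (inc M f)) := by rw [fs_inc]; exact h1.irreducible
  exact (MulEquiv.irreducible_iff (finSuccEquiv k M).toMulEquiv).1 h2

theorem jz_eq_swap (f : Pol k (n + 1)) :
    jz n f = rename (Equiv.swap 0 1) (inc (n + 1) f) := by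
  rw [jz_apply]
  show _ = rename (Equiv.swap 0 1) (rename Fin.succ f)
  rw [rename_rename]
  congr 2
  funext j
  refine Fin.cases ?_ (fun j => ?_) j
  · simp
  · have h1 : (1 : Fin (n + 2)).succAbove j.succ = j.succ.succ := by
      rw [Fin.succAbove_of_le_castSucc]
      rw [Fin.le_iff_val_le_val]
      simp
    rw [h1, Function.comp_apply, Equiv.swap_apply_of_ne_of_ne]
    · exact Fin.succ_ne_zero _
    · intro h
      have := congrArg Fin.val h
      simp at this

theorem irreducible_rename_equiv {M : ℕ} (e : Fin M ≃ Fin M) {f : Pol k M} (hf : Irreducible f) :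
    Irreducible (rename e f) :=
  (MulEquiv.irreducible_iff (renameEquiv k e).toMulEquiv).2 hf

theorem irreducible_jz {f : Pol k (n + 1)} (hf : Irreducible f) : Irreducible (jz n f) := by
  rw [jz_eq_swap]
  exact irreducible_rename_equiv _ (irreducible_inc hf)

theorem fs_jz (f : Pol k (n + 1)) : fs (jz n f) = (fs f).map (inc n) := by
  have : ((finSuccEquiv k (n + 1)).toAlgHom.toRingHom.comp (jz n)) =
      (Polynomial.mapRingHom (inc n)).comp (finSuccEquiv k n).toAlgHom.toRingHom := by
    apply MvPolynomial.ringHom_ext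
    · intro c
      show fs (jz n (C c)) = (fs (C c : Pol k (n + 1))).map (inc n)
      rw [← inc_C, fs_inc, jz_apply]
      show fs (rename _ (rename Fin.succ (C c))) = _
      rw [rename_C, rename_C, ← inc_C, fs_inc, Polynomial.map_C, inc_C]
    · intro j
      show fs (jz n (X j)) = (fs (X j : Pol k (n + 1))).map (inc n)
      rw [jz_apply, rename_X]
      refine Fin.cases ?_ (fun j => ?_) j
      · unfold fs
        rw [finSuccEquiv_X_zero, Polynomial.map_X]
        have : (1 : Fin (n + 2)).succAbove 0 = 0 := by simp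
        rw [this, finSuccEquiv_X_zero]
      · have h1 : (1 : Fin (n + 2)).succAbove j.succ = j.succ.succ := by
          rw [Fin.succAbove_of_le_castSucc]
          rw [Fin.le_iff_val_le_val]
          simp
        unfold fs
        rw [h1, finSuccEquiv_X_succ, finSuccEquiv_X_succ, Polynomial.map_C, inc_X]
  exact DFunLike.congr_fun this f

theorem ext_jz {Ω : Type u} [Field Ω] (φ : Pol k (n + 1) →+* Ω) (ζ : Ω) (f : Pol k (n + 1)) :
    ext φ ζ (jz n f) = ext (φ.comp (inc n)) ζ f := by
  rw [ext_eq, ext_eq, fs_jz, Polynomial.map_map]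

theorem rts_jz {Ω : Type u} [Field Ω] (φ : Pol k (n + 1) →+* Ω) (f : Pol k (n + 1)) :
    rts φ (jz n f) = rts (φ.comp (inc n)) f := by
  unfold rts
  have := fs_jz f
  unfold fs at this
  rw [this, Polynomial.map_map]

theorem natDegree_fs_jz (f : Pol k (n + 1)) : (fs (jz n f)).natDegree = (fs f).natDegree := by
  rw [fs_jz, Polynomial.natDegree_map_eq_of_injective inc_injective]

/-- the extension of `jz` to rational functions -/
noncomputable def hz (n : ℕ) : Fr k (n + 1) →+* Fr k (n + 2) :=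
  hat (g := jz n) jz_injective

theorem hz_am (f : Pol k (n + 1)) : hz n (algebraMap (Pol k (n + 1)) (Fr k (n + 1)) f) =
    algebraMap (Pol k (n + 2)) (Fr k (n + 2)) (jz n f) :=
  hat_am _ _

theorem sub_ne : (X 1 - X 0 : Pol k (n + 2)) ≠ 0 := by
  intro h
  have := congrArg (jzl n) h
  rw [jzl_sub, map_zero] at this
  exact one_ne_zero this

/-- the log-Jacobian of `(t - z, f(z))` -/
theorem J_jz (f : Fin (n + 1) → Pol k (n + 1)) :
    J (algebraMap (Pol k (n + 2)) (Fr k (n + 2))) id (Fin.cons (X 1 - X 0) fun i => jz n (f i)) =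
      - (hz n (J (algebraMap (Pol k (n + 1)) (Fr k (n + 1))) id f) *
        (algebraMap (Pol k (n + 2)) (Fr k (n + 2)) (X 1 - X 0))⁻¹) := by
  unfold J
  rw [Matrix.det_succ_column _ 1, Fin.sum_univ_succ]
  have h0 : ∀ i : Fin (n + 1), (Matrix.of fun i => lr (algebraMap (Pol k (n + 2)) (Fr k (n + 2)))
      id ((Fin.cons (X 1 - X 0) fun i => jz n (f i) : Fin (n + 2) → Pol k (n + 2)) i))
      i.succ 1 = 0 := by
    intro i
    simp only [Matrix.of_apply, Fin.cons_succ, lr, id]
    rw [pderiv_one_jz]; simp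
  have h1 : (Matrix.of fun i => lr (algebraMap (Pol k (n + 2)) (Fr k (n + 2)))
      id ((Fin.cons (X 1 - X 0) fun i => jz n (f i) : Fin (n + 2) → Pol k (n + 2)) i)) 0 1 =
      (algebraMap (Pol k (n + 2)) (Fr k (n + 2)) (X 1 - X 0))⁻¹ := by
    simp only [Matrix.of_apply, Fin.cons_zero, lr, id]
    rw [map_sub, pderiv_X_self, pderiv_X_of_ne (by simp : (0 : Fin (n + 2)) ≠ 1), sub_zero,
      map_one, one_div]
  rw [Finset.sum_eq_zero (fun i _ => by rw [h0]; ring), add_zero, h1, RingHom.map_det]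
  have h2 : ((Matrix.of fun i => lr (algebraMap (Pol k (n + 2)) (Fr k (n + 2)))
      id ((Fin.cons (X 1 - X 0) fun i => jz n (f i) : Fin (n + 2) → Pol k (n + 2)) i)).submatrix
        (Fin.succAbove 0) (Fin.succAbove 1)) =
      (hz n).mapMatrix (Matrix.of fun i => lr (algebraMap (Pol k (n + 1)) (Fr k (n + 1))) id
        (f i)) := by
    ext i j
    simp only [Matrix.submatrix_apply, Matrix.of_apply, RingHom.mapMatrix_apply, Matrix.map_apply,
      Fin.succAbove_zero, Fin.cons_succ, lr, id]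
    rw [pderiv_jz, map_div₀, hz_am, hz_am]
  rw [h2]
  simp only [RingHom.mapMatrix_apply]
  have h3 : ((0 : Fin (n + 2)) : ℕ) + ((1 : Fin (n + 2)) : ℕ) = 1 := by simp
  rw [h3]
  ring

end field

variable {K : Type u} [Field K] {n : ℕ}
variable {Ω₀ : Type u} [Field Ω₀] {O : Subring K} {ρ : O →+* Ω₀}
variable {S : ℕ → Set (Subfield K)}

theorem hz_mem_PL {t : ℕ} {V : Fr K (n + 1)} (hV : V ∈ PL S (n + 1) t) :
    hz n V * (algebraMap (Pol K (n + 2)) (Fr K (n + 2)) (X 1 - X 0))⁻¹ ∈ PL S (n + 2) t := by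
  refine AddSubgroup.closure_induction
    (p := fun V _ => hz n V * (algebraMap (Pol K (n + 2)) (Fr K (n + 2)) (X 1 - X 0))⁻¹ ∈
      PL S (n + 2) t) ?_ ?_ ?_ ?_ hV
  · rintro x ⟨F, hF, f, hf, rfl⟩
    have h1 := J_jz (fun i => mF F (f i))
    have h2 : J (algebraMap (Pol K (n + 2)) (Fr K (n + 2))) id
        (Fin.cons (X 1 - X 0) fun i => jz n (mF F (f i))) ∈ PL S (n + 2) t := by
      refine AddSubgroup.subset_closure ⟨F, hF, Fin.cons (X 1 - X 0) (fun i => jz n (f i)), ?_, ?_⟩
      · intro i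
        refine Fin.cases ?_ (fun i => ?_) i
        · exact sub_ne
        · rw [Fin.cons_succ]
          intro h0
          exact hf i (jz_injective (by rw [h0, map_zero]))
      · congr 1
        funext i
        refine Fin.cases ?_ (fun i => ?_) i
        · simp
        · rw [Fin.cons_succ, Fin.cons_succ]
          exact (jz_map _ _).symm
    rw [h1] at h2
    have h3 := (PL S (n + 2) t).neg_mem h2
    rwa [neg_neg] at h3
  · rw [map_zero, zero_mul]; exact (PL S (n + 2) t).zero_mem
  · intro x y _ _ hx hy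
    rw [map_add, add_mul]; exact (PL S (n + 2) t).add_mem hx hy
  · intro x _ hx
    rw [map_neg, neg_mul]; exact (PL S (n + 2) t).neg_mem hx

theorem hz_Mm {V : Fr K (n + 1)} (hV : Mm ρ V) :
    Mm ρ (hz n V * (algebraMap (Pol K (n + 2)) (Fr K (n + 2)) (X 1 - X 0))⁻¹) := by
  obtain ⟨P, Q, hQ, hP, hVPQ⟩ := hV
  refine ⟨jz n P, jz n Q * (X 1 - X 0), ?_, ?_, ?_⟩
  · rw [map_mul, jz_map]
    refine mul_ne_zero ?_ ?_
    · intro h0
      exact hQ (jz_injective (by rw [h0, map_zero]))
    · have : MvPolynomial.map ρ (X 1 - X 0 : MvPolynomial (Fin (n + 2)) O) = X 1 - X 0 := by simp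
      rw [this]
      exact sub_ne
  · rw [jz_map, hP, map_zero]
  · have h1 := congrArg (hz n) hVPQ
    rw [map_mul, hz_am, hz_am, ← jz_map, ← jz_map] at h1
    have h2 : mO O (jz n Q * (X 1 - X 0)) = mO O (jz n Q) * (X 1 - X 0) := by
      rw [map_mul]; simp
    have h3 := am_ne (sub_ne (k := K) (n := n))
    rw [h2, map_mul, ← h1]
    field_simp

end LF
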