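import Pool.Agent.Helper6.LF.LTz

/-!
The polar part `W = N/χ` of an element of the span is again in the span.
-/

open MvPolynomial

namespace LF

universe u

variable {K : Type u} [Field K] {n : ℕ}
variable {Ω₀ : Type u} [Field Ω₀] {O : Subring K} {ρ : O →+* Ω₀}
variable {S : ℕ → Set (Subfield K)}

theorem jz_not_dvd {χ G : Pol K (n + 1)} (h : ¬ χ ∣ G) : ¬ jz n χ ∣ jz n G * (X 1 - X 0) := by
  rintro ⟨q, hq⟩
  apply h
  have := congrArg (jzl n) hq
  rw [map_mul, map_mul, jzl_jz, jzl_sub, jzl_jz, mul_one] at this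
  exact ⟨jzl n q, this⟩

theorem ext_self {Ω : Type u} [Field Ω] (φ : Pol K (n + 1) →+* Ω) :
    ext (φ.comp (inc n)) (φ (X 0)) = φ := by
  apply hom_ext_inc
  · ext1
    · ext1 c
      simp [ext_inc]
    · simp [ext_inc]
  · rw [ext_X_zero]

/-- formula for the polar part -/
theorem tz_formula [CharZero K] {χ U G u v : Pol K (n + 1)} {ρ₀ : Pol K n}
    (hχ : Irreducible χ) (hdeg : 0 < (fs χ).natDegree) (hGnd : ¬ χ ∣ G) (hρ : ρ₀ ≠ 0)
    (he : χ * u + G * v = inc n ρ₀) {s : ℕ} {q r : Polynomial (Pol K n)}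
    (hdiv : Polynomial.C ((fs χ).leadingCoeff ^ s) * fs (U * v) = fs χ * q + r)
    (hr : r.natDegree < (fs χ).natDegree) {W : Fr K (n + 1)}
    (hx : ∀ (Ω : Type u) [Field Ω] [IsAlgClosed Ω] (φ : Pol K (n + 1) →+* Ω)
      (hφ : Function.Injective φ),
      IsFractionRing.lift hφ W = ∑ ζ ∈ rts φ (jz n χ), ext φ ζ (jz n U) /
        (ext φ ζ (jz n G * (X 1 - X 0)) * ext φ ζ (pderiv 0 (jz n χ)))) :
    W * algebraMap _ _ (inc n ((fs χ).leadingCoeff ^ s * ρ₀) * χ) =
      algebraMap (Pol K (n + 1)) (Fr K (n + 1)) ((finSuccEquiv K n).symm r) := by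
  set c := (fs χ).leadingCoeff with hc
  have hc0 : c ≠ 0 := by
    rw [hc, Ne, Polynomial.leadingCoeff_eq_zero]; exact fs_ne hχ.ne_zero
  have key0 : ∀ (Ω : Type u) [Field Ω] [IsAlgClosed Ω] (φ : Pol K (n + 1) →+* Ω)
      (_ : Function.Injective φ), W * algebraMap _ _ (inc n (c ^ s * ρ₀) * χ) =
      algebraMap (Pol K (n + 1)) (Fr K (n + 1)) ((finSuccEquiv K n).symm r) := by
    intro Ω _ _ φ hφ
    have hφ' : Function.Injective (φ.comp (inc n)) := hφ.comp inc_injective
    set φ' := φ.comp (inc n) with hφ'_def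
    have hρ' : φ' ρ₀ ≠ 0 := fun h => hρ (hφ' (by rw [h, map_zero]))
    have hc' : φ' c ≠ 0 := fun h => hc0 (hφ' (by rw [h, map_zero]))
    set t := φ (X 0) with ht
    have hself : ∀ f : Pol K (n + 1), φ f = ((fs f).map φ').eval t := by
      intro f
      rw [← ext_eq, ht, hφ'_def, ext_self]
    have hχ0 : φ χ ≠ 0 := fun h => hχ.ne_zero (hφ (by rw [h, map_zero]))
    have h1 := hx Ω φ hφ
    rw [rts_jz] at h1
    have htζ : ∀ ζ ∈ rts φ' χ, t ≠ ζ := by
      intro ζ hζ h0
      rw [mem_rts hφ' hχ.ne_zero, ← h0, ext_eq, ← hself] at hζ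
      exact hχ0 hζ
    have h2 : ∑ ζ ∈ rts φ' χ, ext φ ζ (jz n U) /
        (ext φ ζ (jz n G * (X 1 - X 0)) * ext φ ζ (pderiv 0 (jz n χ))) =
        (∑ ζ ∈ rts φ' χ, (r.map φ').eval ζ / (ext φ' ζ (pderiv 0 χ) * (t - ζ))) /
          (φ' c ^ s * φ' ρ₀) := by
      rw [Finset.sum_div]
      apply Finset.sum_congr rfl
      intro ζ hζ
      have htz : t - ζ ≠ 0 := sub_ne_zero.2 (htζ ζ hζ)
      rw [mem_rts hφ' hχ.ne_zero] at hζ
      have h3 := ext_ne_zero hχ hdeg hGnd hφ' hζ
      have h4 := ext_pderiv_ne_zero hχ hdeg hφ' hζ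
      have h5 : ext φ' ζ G * ext φ' ζ v = φ' ρ₀ := by
        have := congrArg (ext φ' ζ) he
        rw [map_add, map_mul, map_mul, hζ, zero_mul, zero_add, ext_inc] at this
        exact this
      have h6 : φ' c ^ s * ext φ' ζ (U * v) = (r.map φ').eval ζ := by
        have := congrArg (fun f => (f.map φ').eval ζ) hdiv
        simp only [Polynomial.map_mul, Polynomial.map_add, Polynomial.map_C, Polynomial.eval_mul,
          Polynomial.eval_add, Polynomial.eval_C, map_pow, Polynomial.map_pow,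
          Polynomial.eval_pow] at this
        rw [← ext_eq, ← ext_eq, hζ, zero_mul, zero_add] at this
        exact this
      have hv0 : ext φ' ζ v ≠ 0 := by
        intro h; rw [h, mul_zero] at h5; exact hρ' h5.symm
      have h7 : ext φ ζ (X 1 - X 0) = t - ζ := by
        rw [map_sub, ext_X_zero]
        have : (1 : Fin (n + 2)) = (0 : Fin (n + 1)).succ := rfl
        rw [this, ext_X_succ]
      rw [map_mul, h7, pderiv_zero_jz, ext_jz, ext_jz, ext_jz, ← hφ'_def, ← h6, map_mul, ← h5]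
      field_simp
    have hrd : (r.map φ').natDegree < (fs χ).natDegree :=
      lt_of_le_of_lt Polynomial.natDegree_map_le hr
    rw [h2, lag_sum_sub hχ hdeg hφ' _ hrd t htζ, ← hself] at h1
    apply (IsFractionRing.lift hφ).injective
    rw [map_mul, IsFractionRing.lift_algebraMap, IsFractionRing.lift_algebraMap, h1, hself
      ((finSuccEquiv K n).symm r), map_mul]
    have h8 : fs ((finSuccEquiv K n).symm r) = r := AlgEquiv.apply_symm_apply _ _
    have h9 : φ (inc n (c ^ s * ρ₀)) = φ' c ^ s * φ' ρ₀ := by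
      rw [hφ'_def]
      simp
    rw [h8, h9]
    field_simp
  exact key0 (AlgebraicClosure (Fr K (n + 1)))
    ((algebraMap (Fr K (n + 1)) (AlgebraicClosure (Fr K (n + 1)))).comp
      (algebraMap (Pol K (n + 1)) (Fr K (n + 1))))
    ((algebraMap (Fr K (n + 1)) (AlgebraicClosure (Fr K (n + 1)))).injective.comp am_inj)

/-- **the polar part** -/
theorem tz [CharZero K] [CharZero Ω₀] {T : ℕ} (hS : Fam O T S) {s t : ℕ} (hst : s + t ≤ T)
    {F : Subfield K}
    (hF : F ∈ S s) {χ₀ : Pol F (n + 1)} (hχ : Irreducible (mF F χ₀))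
    (hdeg : 0 < (fs (mF F χ₀)).natDegree) {V : Fr K (n + 1)} (hV : V ∈ PL S (n + 1) t)
    (hm : Mm ρ V) {U G : Pol K (n + 1)} (hG : ¬ mF F χ₀ ∣ G)
    (hVU : V * algebraMap _ _ (mF F χ₀ * G) = algebraMap _ _ U) :
    ∃ W ∈ PL S (n + 1) (s + t), Mm ρ W ∧ ∃ (b : Pol K n) (R : Pol K (n + 1)), b ≠ 0 ∧
      (fs R).natDegree < (fs (mF F χ₀)).natDegree ∧
      W * algebraMap _ _ (inc n b * mF F χ₀) = algebraMap _ _ R ∧
      (R = 0 → mF F χ₀ ∣ U) := by
  have hjF : mF F (jz n χ₀) = jz n (mF F χ₀) := jz_map _ _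
  have hirr : Irreducible (mF F (jz n χ₀)) := by rw [hjF]; exact irreducible_jz hχ
  have hdeg' : 0 < (fs (mF F (jz n χ₀))).natDegree := by rwa [hjF, natDegree_fs_jz]
  obtain ⟨W, hW, hsum, hMm⟩ := trResL (n + 1) Ω₀ O ρ T S hS s t hst F hF (jz n χ₀) hirr hdeg'
    _ (hz_mem_PL hV)
  rw [hjF] at hsum
  have hsum' := hsum (jz n U) (jz n G * (X 1 - X 0)) (jz_not_dvd hG) (by
    have h1 := congrArg (hz n) hVU
    rw [map_mul, hz_am, hz_am, map_mul, map_mul] at h1
    have h3 := am_ne (sub_ne (k := K) (n := n))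
    rw [map_mul, map_mul, ← h1]
    field_simp)
  obtain ⟨u, v, ρ₀, hρ, he, -⟩ := exists_bezout hχ hdeg hG
  obtain ⟨s', q, r, hdiv, hr⟩ := pseudo_div (fs (mF F χ₀)) hdeg (fs (U * v))
  have hform := tz_formula hχ hdeg hG hρ he hdiv hr hsum'
  have h8 : fs ((finSuccEquiv K n).symm r) = r := AlgEquiv.apply_symm_apply _ _
  have hlc0 : (fs (mF F χ₀)).leadingCoeff ≠ 0 := by
    rw [Ne, Polynomial.leadingCoeff_eq_zero]; exact fs_ne hχ.ne_zero
  refine ⟨W, hW, hMm (hz_Mm hm), (fs (mF F χ₀)).leadingCoeff ^ s' * ρ₀,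
    (finSuccEquiv K n).symm r, mul_ne_zero (pow_ne_zero _ hlc0) hρ, by rwa [h8], hform, ?_⟩
  intro hR
  have hr0 : r = 0 := by rw [← h8, hR]; simp
  rw [hr0, add_zero] at hdiv
  have h9 : mF F χ₀ ∣ inc n ((fs (mF F χ₀)).leadingCoeff ^ s') * (U * v) := by
    rw [← fs_dvd]
    refine ⟨q, ?_⟩
    rw [← hdiv, ← fs_inc]
    unfold fs
    rw [map_mul]
  rcases hχ.prime.dvd_or_dvd h9 with h | h
  · exact absurd h (not_dvd_inc hdeg (pow_ne_zero _ hlc0))
  · rcases hχ.prime.dvd_or_dvd h with h | h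
    · exact h
    · exfalso
      apply not_dvd_inc hdeg hρ
      rw [← he]
      exact (dvd_mul_right _ _).add (h.mul_left _)

/-! ### simple poles -/

/-- the span of all log-Jacobians -/
noncomputable def PLK (K : Type u) [Field K] (N : ℕ) : AddSubgroup (Fr K N) :=
  AddSubgroup.closure {x | ∃ g : Fin N → Pol K N, (∀ i, g i ≠ 0) ∧
    x = J (algebraMap (Pol K N) (Fr K N)) id g}

theorem PL_le_PLK {N t : ℕ} : PL S N t ≤ PLK K N := by
  apply (AddSubgroup.closure_le _).2
  rintro x ⟨F, -, f, hf, rfl⟩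
  refine AddSubgroup.subset_closure ⟨fun i => mF F (f i), fun i h0 => hf i ?_, rfl⟩
  exact map_inj F.subtype (by rw [map_zero]; exact h0)

/-- elements of the span have at most simple poles -/
theorem simple_pole {p : Pol K n} (hp : Irreducible p) {V : Fr K n} (hV : V ∈ PLK K n) :
    ∃ U G : Pol K n, ¬ p ∣ G ∧ V * algebraMap _ _ (p * G) = algebraMap _ _ U := by
  have hpp := hp.prime
  -- the predicate defines a subgroup
  let W : AddSubgroup (Fr K n) :=
    { carrier := {V | ∃ U G : Pol K n, ¬ p ∣ G ∧ V * algebraMap _ _ (p * G) = algebraMap _ _ U}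
      zero_mem' := ⟨0, 1, hpp.not_dvd_one, by simp⟩
      add_mem' := by
        rintro V V' ⟨U, G, hG, h⟩ ⟨U', G', hG', h'⟩
        refine ⟨U * G' + U' * G, G * G', ?_, ?_⟩
        · intro hd
          rcases hpp.dvd_or_dvd hd with hd | hd
          · exact hG hd
          · exact hG' hd
        · rw [map_mul _ p (G * G'), map_mul _ G G', map_add, map_mul _ U, map_mul _ U', ← h, ← h',
            map_mul _ p G, map_mul _ p G']
          ring
      neg_mem' := by
        rintro V ⟨U, G, hG, h⟩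
        refine ⟨-U, G, hG, ?_⟩
        rw [map_neg, ← h]; ring }
  have hle : PLK K n ≤ W := by
    apply (AddSubgroup.closure_le _).2
    rintro x ⟨g, hg, rfl⟩
    apply J_mem_of_irr_add W ?_ Finset.univ g hg (fun i hi => absurd (Finset.mem_univ i) hi)
    intro q hq
    by_cases hcase : ∀ i, ¬ p ∣ q i
    · refine ⟨p * Matrix.det (Matrix.of fun i j => pderiv (id j) (q i)), ∏ i, q i, ?_, ?_⟩
      · rw [Prime.dvd_finsetProd_iff hpp]
        rintro ⟨i, -, hi⟩
        exact hcase i hi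
      · rw [map_mul _ p (Matrix.det _), ← J_mul_prod id q (fun i => (hq i).ne_zero),
          map_mul _ p (∏ i, q i)]
        ring
    · push Not at hcase
      obtain ⟨i₀, hi₀⟩ := hcase
      have hass : Associated p (q i₀) := (hp.dvd_irreducible_iff_associated (hq i₀)).1 hi₀
      by_cases h2 : ∃ i, i ≠ i₀ ∧ p ∣ q i
      · obtain ⟨i, hne, hi⟩ := h2
        have hass2 : Associated p (q i) := (hp.dvd_irreducible_iff_associated (hq _)).1 hi
        rw [J_zero_of_associated _ _ _ hne (hass2.symm.trans hass) (am_ne (hq _).ne_zero)]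
        exact W.zero_mem
      · push Not at h2
        obtain ⟨v, hv⟩ := hass
        refine ⟨Matrix.det (Matrix.of fun i j => pderiv (id j) (q i)),
          v * ∏ i ∈ Finset.univ.erase i₀, q i, ?_, ?_⟩
        · intro hd
          rcases hpp.dvd_or_dvd hd with hd | hd
          · exact hpp.not_isUnit (isUnit_of_dvd_unit hd v.isUnit)
          · rw [Prime.dvd_finsetProd_iff hpp] at hd
            obtain ⟨i, hi, hi'⟩ := hd
            exact h2 i (Finset.ne_of_mem_erase hi) hi'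
        · rw [← J_mul_prod id q (fun i => (hq i).ne_zero),
            ← Finset.mul_prod_erase Finset.univ q (Finset.mem_univ i₀), ← hv, mul_assoc]
  exact hle hV

end LF
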