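import Pool.Agent.Helper6.LF.Root

/-!
The residue lemma `TrRes` from the Bass–Tate lemma.
-/

open MvPolynomial

namespace LF

universe u

variable {k : Type u} [Field k] {M n : ℕ} {L : Type u} [Field L]

/-! ### stable places -/

theorem Stable.coeff [CharZero k] {θ : Pol k (M + 1) →+* L} {a : Fin n → Fin M}
    (hst : Stable θ (up a)) {f : Pol k (M + 1)} (hf : θ f = 0) (i : ℕ) :
    θ (inc M ((fs f).coeff i)) = 0 := by
  have hiter : ∀ (m : ℕ) (g : Pol k (M + 1)), θ g = 0 →
      θ ((finSuccEquiv k M).symm (Polynomial.derivative^[m] (fs g))) = 0 := by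
    intro m
    induction m with
    | zero =>
      intro g hg
      have : (finSuccEquiv k M).symm (fs g) = g := AlgEquiv.symm_apply_apply _ _
      simpa [this] using hg
    | succ m ih =>
      intro g hg
      rw [Function.iterate_succ_apply, ← fs_pderiv_zero]
      exact ih _ (by simpa [up_zero] using hst g hg 0)
  induction hm : (fs f).natDegree using Nat.strong_induction_on generalizing f with
  | _ m ih =>
    -- the leading coefficient
    have h1 := hiter m f hf
    have h2 : Polynomial.derivative^[m] (fs f) = Polynomial.C (C (m.factorial : k) *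
        (fs f).coeff m) := by
      ext1 j
      rw [Polynomial.coeff_iterate_derivative, Polynomial.coeff_C]
      by_cases hj : j = 0
      · subst hj
        rw [if_pos rfl, zero_add, Nat.descFactorial_self, nsmul_eq_mul]
        simp
      · rw [if_neg hj, Polynomial.coeff_eq_zero_of_natDegree_lt (by omega), smul_zero]
    have h3 : (finSuccEquiv k M).symm (Polynomial.C (C (m.factorial : k) *
        (fs f).coeff m)) = inc M (C (m.factorial : k) * (fs f).coeff m) := by
      apply fs_inj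
      rw [fs_inc]
      exact AlgEquiv.apply_symm_apply _ _
    rw [h2, h3, map_mul, map_mul, inc_C] at h1
    have h4 : θ (C (m.factorial : k)) ≠ 0 := by
      have h5 : (m.factorial : k) ≠ 0 := by exact_mod_cast m.factorial_ne_zero
      have : IsUnit (C (m.factorial : k) : Pol k (M + 1)) := (IsUnit.mk0 _ h5).map C
      exact (this.map θ).ne_zero
    have hlc : θ (inc M ((fs f).coeff m)) = 0 := (mul_eq_zero.1 h1).resolve_left h4
    by_cases hi : m < i
    · rw [Polynomial.coeff_eq_zero_of_natDegree_lt (by omega)]; simp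
    rcases Nat.eq_zero_or_pos m with hm0 | hmpos
    · have : i = m := by omega
      rw [this]; exact hlc
    by_cases him : i = m
    · rw [him]; exact hlc
    -- subtract the leading term
    set g : Pol k (M + 1) := f - inc M ((fs f).coeff m) * X 0 ^ m with hg
    have hg0 : θ g = 0 := by
      rw [hg, map_sub, map_mul, hf, hlc, zero_mul, sub_zero]
    have hfg : fs g = fs f - Polynomial.C ((fs f).coeff m) * Polynomial.X ^ m := by
      rw [hg]
      have : fs (f - inc M ((fs f).coeff m) * X 0 ^ m) =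
          fs f - fs (inc M ((fs f).coeff m)) * (fs (X 0)) ^ m := by
        unfold fs; rw [map_sub, map_mul, map_pow]
      rw [this, fs_inc]
      unfold fs
      rw [finSuccEquiv_X_zero]
    have hcg : ∀ j, (fs g).coeff j = if j = m then 0 else (fs f).coeff j := by
      intro j
      rw [hfg, Polynomial.coeff_sub, Polynomial.coeff_C_mul, Polynomial.coeff_X_pow]
      by_cases hj : j = m
      · subst hj; simp
      · simp [hj]
    have hdeg : (fs g).natDegree < m := by
      have hle : (fs g).natDegree ≤ m - 1 := by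
        rw [Polynomial.natDegree_le_iff_coeff_eq_zero]
        intro j hj
        rw [hcg]
        split_ifs with hj'
        · rfl
        · exact Polynomial.coeff_eq_zero_of_natDegree_lt (by omega)
      omega
    have := ih _ hdeg hg0 rfl
    rwa [hcg, if_neg him] at this

theorem Stable.lo {θ : Pol k (M + 1) →+* L} {a : Fin n → Fin M}
    (hst : Stable θ (up a)) : Stable (θ.comp (inc M)) a := by
  intro f hf j
  have := hst (inc M f) hf j.succ
  rwa [up_succ, pderiv_succ_inc] at this

theorem Thick.lo {θ : Pol k (M + 1) →+* L} {B : ℕ} (h : Thick θ B) :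
    Thick (θ.comp (inc M)) B := by
  intro f hf hd
  exact h (inc M f) (inc_ne hf) (by rwa [totalDegree_inc])

theorem Thick.mono {θ : Pol k M →+* L} {B B' : ℕ} (h : Thick θ B) (hB : B' ≤ B) : Thick θ B' :=
  fun f hf hd => h f hf (hd.trans hB)

/-! ### coprimality to `π` -/

/-- `h` is coprime to `π`, generically and at all `B`-thick places -/
def Cp (B : ℕ) (π h : Pol k (M + 1)) : Prop :=
  ∃ (u v : Pol k (M + 1)) (ρ : Pol k M), π * u + h * v = inc M ρ ∧ ρ ≠ 0 ∧
    ∀ (L : Type u) [Field L] (θ : Pol k (M + 1) →+* L), Thick θ B → θ (inc M ρ) ≠ 0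

theorem not_dvd_inc {π : Pol k (M + 1)} (hdeg : 0 < (fs π).natDegree) {ρ : Pol k M} (hρ : ρ ≠ 0) :
    ¬ π ∣ inc M ρ := by
  intro h
  rw [← fs_dvd, fs_inc] at h
  have := Polynomial.natDegree_le_of_dvd h (Polynomial.C_ne_zero.2 hρ)
  rw [Polynomial.natDegree_C] at this
  omega

theorem Cp.not_dvd {B : ℕ} {π h : Pol k (M + 1)} (hdeg : 0 < (fs π).natDegree) (hc : Cp B π h) :
    ¬ π ∣ h := by
  obtain ⟨u, v, ρ, he, hρ, -⟩ := hc
  intro hd
  exact not_dvd_inc hdeg hρ (he ▸ (dvd_mul_right _ _).add (hd.mul_right _))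

theorem Cp.mul {B : ℕ} {π h h' : Pol k (M + 1)} (hc : Cp B π h) (hc' : Cp B π h') :
    Cp B π (h * h') := by
  obtain ⟨u, v, ρ, he, hρ, hθ⟩ := hc
  obtain ⟨u', v', ρ', he', hρ', hθ'⟩ := hc'
  refine ⟨u * (π * u' + h' * v') + h * v * u', v * v', ρ * ρ', ?_, mul_ne_zero hρ hρ', ?_⟩
  · rw [map_mul, ← he, ← he']; ring
  · intro L _ θ ht
    rw [map_mul, map_mul]
    exact mul_ne_zero (hθ L θ ht) (hθ' L θ ht)

theorem cp_one {B : ℕ} {π : Pol k (M + 1)} : Cp B π 1 :=
  ⟨0, 1, 1, by simp, one_ne_zero, fun L _ θ _ => by simp⟩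

theorem cp_prod {ι : Type*} {B : ℕ} {π : Pol k (M + 1)} (s : Finset ι) (h : ι → Pol k (M + 1))
    (hc : ∀ i ∈ s, Cp B π (h i)) : Cp B π (∏ i ∈ s, h i) := by
  classical
  induction s using Finset.induction_on with
  | empty => simpa using cp_one
  | insert a s ha ih =>
    rw [Finset.prod_insert ha]
    exact (hc a (Finset.mem_insert_self _ _)).mul (ih fun i hi => hc i (Finset.mem_insert_of_mem hi))

theorem cp_of_bounded {B d : ℕ} (hB : 2 * d * d ≤ B) {π h : Pol k (M + 1)} (hπ : Irreducible π)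
    (hdeg : 0 < (fs π).natDegree) (hnd : ¬ π ∣ h) (hπd : π.totalDegree ≤ d)
    (hhd : h.totalDegree ≤ d) : Cp B π h := by
  obtain ⟨u, v, ρ, hρ, he, hb⟩ := exists_bezout hπ hdeg hnd
  refine ⟨u, v, ρ, he, hρ, ?_⟩
  intro L _ θ ht
  exact ht _ (inc_ne hρ) (by rw [totalDegree_inc]; exact (hb d hπd hhd).trans hB)

/-! ### the value of the residue sum does not depend on the representation -/

theorem div_eq_of_repr {π : Pol k (M + 1)} (hπ : Irreducible π) (hdeg : 0 < (fs π).natDegree)
    {V : Fr k (M + 1)} {U G U' G' : Pol k (M + 1)} (hG : ¬ π ∣ G) (hG' : ¬ π ∣ G')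
    (h : V * algebraMap _ _ (π * G) = algebraMap _ _ U)
    (h' : V * algebraMap _ _ (π * G') = algebraMap _ _ U')
    {φ : Pol k M →+* L} (hφ : Function.Injective φ) {ζ : L} (hζ : ext φ ζ π = 0) :
    ext φ ζ U / ext φ ζ G = ext φ ζ U' / ext φ ζ G' := by
  have e : U * G' = U' * G := by
    have h1 : π * (U * G') = π * (U' * G) := by
      apply am_inj
      have h2 : algebraMap (Pol k (M + 1)) (Fr k (M + 1)) (π * (U * G')) =
          algebraMap _ _ U * algebraMap _ _ (π * G') := by
        rw [← map_mul]; congr 1; ring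
      have h3 : algebraMap (Pol k (M + 1)) (Fr k (M + 1)) (π * (U' * G)) =
          algebraMap _ _ U' * algebraMap _ _ (π * G) := by
        rw [← map_mul]; congr 1; ring
      rw [h2, h3, ← h, ← h']; ring
    exact mul_left_cancel₀ hπ.ne_zero h1
  have h1 := ext_ne_zero hπ hdeg hG hφ hζ
  have h2 := ext_ne_zero hπ hdeg hG' hφ hζ
  rw [div_eq_div_iff h1 h2, ← map_mul, ← map_mul, e]

/-! ### the property of an element of the span -/

/-- `V` has a residue in `PLs k a d'` along `π` -/
def HasRes (a : Fin n → Fin M) (B d' : ℕ) (π : Pol k (M + 1)) (V : Fr k (M + 1)) : Prop :=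
  ∃ x ∈ PLs k a d', ∃ U G : Pol k (M + 1), Cp B π G ∧
    V * algebraMap _ _ (π * G) = algebraMap _ _ U ∧
    ∀ (Ω : Type u) [Field Ω] [IsAlgClosed Ω] (φ : Pol k M →+* Ω) (hφ : Function.Injective φ),
      IsFractionRing.lift hφ x = ∑ ζ ∈ rts φ π, ext φ ζ U / (ext φ ζ G * ext φ ζ (pderiv 0 π))

theorem hasRes_zero (a : Fin n → Fin M) (B d' : ℕ) (π : Pol k (M + 1)) :
    HasRes a B d' π (0 : Fr k (M + 1)) := by
  refine ⟨0, Submodule.zero_mem _, 0, 1, cp_one, by simp, ?_⟩
  intro Ω _ _ φ hφ
  simp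

theorem HasRes.add {a : Fin n → Fin M} {B d' : ℕ} {π : Pol k (M + 1)} (hπ : Irreducible π)
    (hdeg : 0 < (fs π).natDegree) {V V' : Fr k (M + 1)}
    (h : HasRes a B d' π V) (h' : HasRes a B d' π V') : HasRes a B d' π (V + V') := by
  obtain ⟨x, hx, U, G, hG, hV, hs⟩ := h
  obtain ⟨x', hx', U', G', hG', hV', hs'⟩ := h'
  refine ⟨x + x', Submodule.add_mem _ hx hx', U * G' + U' * G, G * G', hG.mul hG', ?_, ?_⟩
  · rw [map_add, map_mul _ U, map_mul _ U', ← hV, ← hV', map_mul _ π (G * G'),
      map_mul _ π G, map_mul _ π G', map_mul _ G G']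
    ring
  · intro Ω _ _ φ hφ
    rw [map_add, hs Ω φ hφ, hs' Ω φ hφ, ← Finset.sum_add_distrib]
    apply Finset.sum_congr rfl
    intro ζ hζ
    rw [mem_rts hφ hπ.ne_zero] at hζ
    have h1 := ext_ne_zero hπ hdeg (hG.not_dvd hdeg) hφ hζ
    have h2 := ext_ne_zero hπ hdeg (hG'.not_dvd hdeg) hφ hζ
    by_cases h3 : ext φ ζ (pderiv 0 π) = 0
    · rw [h3]; simp
    rw [map_add, map_mul, map_mul, map_mul]
    field_simp

theorem lift_smul {Ω : Type u} [Field Ω] {φ : Pol k M →+* Ω} (hφ : Function.Injective φ)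
    (c : k) (x : Fr k M) : IsFractionRing.lift hφ (c • x) = φ (C c) * IsFractionRing.lift hφ x := by
  rw [smul_eq, map_mul, IsFractionRing.lift_algebraMap]

theorem HasRes.smul {a : Fin n → Fin M} {B d' : ℕ} {π : Pol k (M + 1)}
    {V : Fr k (M + 1)} (c : k) (h : HasRes a B d' π V) : HasRes a B d' π (c • V) := by
  obtain ⟨x, hx, U, G, hG, hV, hs⟩ := h
  refine ⟨c • x, Submodule.smul_mem _ _ hx, C c * U, G, hG, ?_, ?_⟩
  · rw [smul_eq, map_mul _ (C c) U, ← hV]; ring
  · intro Ω _ _ φ hφ
    rw [lift_smul, hs Ω φ hφ, Finset.mul_sum]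
    apply Finset.sum_congr rfl
    intro ζ _
    rw [map_mul, ext_C]
    ring

end LF
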