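import Pool.Agent.Helper6.LF.Res

/-!
The residue lemma `TrRes` from the Bass–Tate lemma, part 2.
-/

open MvPolynomial

namespace LF

universe u

variable {k : Type u} [Field k] {M n : ℕ} {L : Type u} [Field L]

theorem J_cons_succAbove (θ : Pol k M →+* L) (a : Fin (n + 1) → Fin M)
    (q : Fin (n + 1) → Pol k M) (i₀ : Fin (n + 1)) :
    J θ a q = (-1) ^ (i₀ : ℕ) * J θ a (Fin.cons (q i₀) (fun i => q (i₀.succAbove i))) := by
  have h1 : J θ a q = Matrix.detRowAlternating (fun i => lr θ a (q i)) := rfl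
  have h2 : (fun i => lr θ a (q i)) = i₀.insertNth (lr θ a (q i₀))
      (fun i => lr θ a (q (i₀.succAbove i))) := by
    rw [Fin.eq_insertNth_iff]
    exact ⟨rfl, rfl⟩
  rw [h1, h2, AlternatingMap.map_insertNth]
  have h3 : (Matrix.vecCons (lr θ a (q i₀)) fun i => lr θ a (q (i₀.succAbove i))) =
      (fun i => lr θ a ((Fin.cons (q i₀) (fun i => q (i₀.succAbove i)) :
        Fin (n + 1) → Pol k M) i)) := by
    funext i
    refine Fin.cases ?_ (fun i => ?_) i
    · rfl
    · rfl
  rw [h3, zsmul_eq_mul]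
  push_cast
  rfl

theorem J_congr_lr (θ : Pol k M →+* L) (a : Fin n → Fin M) {q q' : Fin n → Pol k M}
    (h : ∀ i, lr θ a (q i) = lr θ a (q' i)) : J θ a q = J θ a q' := by
  unfold J
  congr 2
  funext i
  exact h i

/-- value of the numerator of `J (π :: g)` at a root of `π` -/
theorem rho_mul_prod (θ : Pol k (M + 1) →+* L) (a : Fin n → Fin M) (π : Pol k (M + 1))
    (g : Fin n → Pol k (M + 1)) (hg : ∀ i, θ (g i) ≠ 0) :
    θ (Matrix.det (Matrix.of fun i j => pderiv (up a j) ((Fin.cons π g :
      Fin (n + 1) → Pol k (M + 1)) i))) = rho θ a π g * θ (∏ i, g i) := by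
  rw [RingHom.map_det]
  have h1 : θ.mapMatrix (Matrix.of fun i j => pderiv (up a j) ((Fin.cons π g :
      Fin (n + 1) → Pol k (M + 1)) i)) =
      Matrix.of (fun i j => (Fin.cons 1 (fun i => θ (g i)) : Fin (n + 1) → L) i *
        (Matrix.of (Fin.cons (fun j => θ (pderiv (up a j) π))
          (fun i => lr θ (up a) (g i)) : Fin (n + 1) → Fin (n + 1) → L)) i j) := by
    ext i j
    refine Fin.cases ?_ (fun i => ?_) i
    · simp
    · simp only [RingHom.mapMatrix_apply, Matrix.map_apply, Matrix.of_apply, Fin.cons_succ, lr]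
      have := hg i
      field_simp
  rw [h1, Matrix.det_mul_column, Fin.prod_univ_succ, map_prod]
  simp only [Fin.cons_zero, Fin.cons_succ, one_mul]
  unfold rho
  ring

theorem hasRes_J {d d' B : ℕ} (hBT : BassTate k n d d') (hB : 2 * d * d ≤ B) (a : Fin n → Fin M)
    {π : Pol k (M + 1)} (hπ : Irreducible π) (hdeg : 0 < (fs π).natDegree)
    (hπd : π.totalDegree ≤ d) (q : Fin (n + 1) → Pol k (M + 1)) (hq : ∀ i, Irreducible (q i))
    (hqd : ∀ i, (q i).totalDegree ≤ d) :
    HasRes a B d' π (J (algebraMap (Pol k (M + 1)) (Fr k (M + 1))) (up a) q) := by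
  by_cases hcase : ∀ i, ¬ π ∣ q i
  · refine ⟨0, Submodule.zero_mem _, π * Matrix.det (Matrix.of fun i j => pderiv (up a j) (q i)),
      ∏ i, q i, ?_, ?_, ?_⟩
    · exact cp_prod _ _ fun i _ => cp_of_bounded hB hπ hdeg (hcase i) hπd (hqd i)
    · rw [map_mul _ π (Matrix.det _), ← J_mul_prod (up a) q (fun i => (hq i).ne_zero),
        map_mul _ π (∏ i, q i)]
      ring
    · intro Ω _ _ φ hφ
      rw [map_zero]
      symm
      apply Finset.sum_eq_zero
      intro ζ hζ
      rw [mem_rts hφ hπ.ne_zero] at hζ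
      rw [map_mul, hζ]; simp
  · push Not at hcase
    obtain ⟨i₀, hi₀⟩ := hcase
    have hass : Associated π (q i₀) := (hπ.dvd_irreducible_iff_associated (hq i₀)).1 hi₀
    by_cases h2 : ∃ i, π ∣ q (i₀.succAbove i)
    · obtain ⟨i, hi⟩ := h2
      have hass2 : Associated π (q (i₀.succAbove i)) :=
        (hπ.dvd_irreducible_iff_associated (hq _)).1 hi
      rw [J_zero_of_associated _ _ _ (Fin.succAbove_ne i₀ i).symm (hass.symm.trans hass2)
        (am_ne (hq _).ne_zero)]
      exact hasRes_zero a B d' π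
    · push Not at h2
      have hJ : J (algebraMap (Pol k (M + 1)) (Fr k (M + 1))) (up a) q = (-1) ^ (i₀ : ℕ) *
          J (algebraMap (Pol k (M + 1)) (Fr k (M + 1))) (up a)
            (Fin.cons π (fun i => q (i₀.succAbove i))) := by
        rw [J_cons_succAbove _ _ q i₀]
        congr 1
        apply J_congr_lr
        intro i
        refine Fin.cases ?_ (fun i => ?_) i
        · exact (lr_associated _ _ hass (am_ne hπ.ne_zero)).symm
        · rfl
      have hsm : HasRes a B d' π (J (algebraMap (Pol k (M + 1)) (Fr k (M + 1))) (up a)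
            (Fin.cons π (fun i => q (i₀.succAbove i)))) := by
        set g : Fin n → Pol k (M + 1) := fun i => q (i₀.succAbove i) with hg
        obtain ⟨x, hx, hTR⟩ := hBT M a π g hπ hdeg h2 hπd (fun i => hqd _)
        refine ⟨x, hx, Matrix.det (Matrix.of fun i j => pderiv (up a j) ((Fin.cons π g :
          Fin (n + 1) → Pol k (M + 1)) i)), ∏ i, g i, ?_, ?_, ?_⟩
        · exact cp_prod _ _ fun i _ => cp_of_bounded hB hπ hdeg (h2 i) hπd (hqd _)
        · have h3 := J_mul_prod (up a) (Fin.cons π g : Fin (n + 1) → Pol k (M + 1)) (by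
            intro i
            refine Fin.cases ?_ (fun i => ?_) i
            · exact hπ.ne_zero
            · exact (hq _).ne_zero)
          rw [Fin.prod_univ_succ] at h3
          simpa using h3
        · intro Ω _ _ φ hφ
          rw [← hTR Ω φ hφ]
          unfold TR
          apply Finset.sum_congr rfl
          intro ζ hζ
          rw [mem_rts hφ hπ.ne_zero] at hζ
          have h4 : ∀ i, ext φ ζ (g i) ≠ 0 := fun i => ext_ne_zero hπ hdeg (h2 i) hφ hζ
          rw [rho_mul_prod (ext φ ζ) a π g h4]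
          have h5 : ext φ ζ (∏ i, g i) ≠ 0 := by
            rw [map_prod]
            exact Finset.prod_ne_zero_iff.2 fun i _ => h4 i
          rw [mul_comm (ext φ ζ (∏ i, g i)) _, mul_div_mul_right _ _ h5]
      rw [hJ]
      rcases neg_one_pow_eq_or (Fr k (M + 1)) (i₀ : ℕ) with h | h
      · rw [h, one_mul]; exact hsm
      · rw [h, neg_one_mul]
        have := hsm.smul (-1)
        rwa [neg_one_smul] at this

theorem hasRes_of_mem {d d' B : ℕ} (hBT : BassTate k n d d') (hB : 2 * d * d ≤ B)
    (a : Fin n → Fin M)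
    {π : Pol k (M + 1)} (hπ : Irreducible π) (hdeg : 0 < (fs π).natDegree)
    (hπd : π.totalDegree ≤ d) {V : Fr k (M + 1)} (hV : V ∈ PLs k (up a) d) :
    HasRes a B d' π V := by
  rw [PLs_eq_span_irr] at hV
  refine Submodule.span_induction (p := fun V _ => HasRes a B d' π V) ?_ ?_ ?_ ?_ hV
  · rintro x ⟨q, hq, hqd, rfl⟩
    exact hasRes_J hBT hB a hπ hdeg hπd q hq hqd
  · exact hasRes_zero a B d' π
  · intro x y _ _ hx hy
    exact hx.add hπ hdeg hy
  · intro c x _ hx
    exact hx.smul c

/-- remainder modulo `π` of a polynomial in the kernel of a stable place -/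
theorem map_rem_zero {S : Type*} [CommRing S] [IsDomain S] {ψ : S →+* L} {π f q r : Polynomial S}
    {c : S} (hlc : ψ π.leadingCoeff ≠ 0) (he : Polynomial.C c * f = π * q + r)
    (hr : r.natDegree < π.natDegree) (hf : f.map ψ = 0) : r.map ψ = 0 := by
  have h1 := congrArg (Polynomial.map ψ) he
  rw [Polynomial.map_mul, hf, mul_zero, Polynomial.map_add, Polynomial.map_mul] at h1
  have hd : (π.map ψ).natDegree = π.natDegree := Polynomial.natDegree_map_of_leadingCoeff_ne_zero _ hlc
  by_contra h0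
  have h2 : π.map ψ ∣ r.map ψ := by
    refine ⟨-(q.map ψ), ?_⟩
    linear_combination -h1
  have h3 := Polynomial.natDegree_le_of_dvd h2 h0
  have h4 : (r.map ψ).natDegree ≤ r.natDegree := Polynomial.natDegree_map_le
  omega

/-- the residue at a stable thick place -/
theorem hasVal_res [CharZero k] {B : ℕ} {π : Pol k (M + 1)} (hπ : Irreducible π)
    (hdeg : 0 < (fs π).natDegree) (hπB : π.totalDegree ≤ B) {V : Fr k (M + 1)}
    {U G : Pol k (M + 1)} (hG : Cp B π G)
    (hV : V * algebraMap _ _ (π * G) = algebraMap _ _ U) {x : Fr k M}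
    (hx : ∀ (Ω : Type u) [Field Ω] [IsAlgClosed Ω] (φ : Pol k M →+* Ω)
      (hφ : Function.Injective φ),
      IsFractionRing.lift hφ x = ∑ ζ ∈ rts φ π, ext φ ζ U / (ext φ ζ G * ext φ ζ (pderiv 0 π)))
    (a : Fin n → Fin M) {θ : Pol k (M + 1) →+* L} (hst : Stable θ (up a)) (hth : Thick θ B)
    (hval : HasVal θ V 0) : HasVal (θ.comp (inc M)) x 0 := by
  have hGnd := hG.not_dvd hdeg
  obtain ⟨u, v, ρ, he, hρ, hθρ⟩ := hG
  have hU : θ U = 0 := hval.num hV
  obtain ⟨s, q, r, hdiv, hr⟩ := pseudo_div (fs π) hdeg (fs (U * v))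
  set c := (fs π).leadingCoeff with hc
  have hc0 : c ≠ 0 := by
    rw [hc, Ne, Polynomial.leadingCoeff_eq_zero]; exact fs_ne hπ.ne_zero
  -- the formula for x
  have key0 : ∀ (Ω : Type u) [Field Ω] [IsAlgClosed Ω] (φ : Pol k M →+* Ω)
      (_ : Function.Injective φ), x * algebraMap _ _ (c ^ (s + 1) * ρ) =
      algebraMap (Pol k M) (Fr k M) (r.coeff ((fs π).natDegree - 1)) := by
    intro Ω _ _ φ hφ
    have hρ' : φ ρ ≠ 0 := fun h => hρ (hφ (by rw [h, map_zero]))
    have hc' : φ c ≠ 0 := fun h => hc0 (hφ (by rw [h, map_zero]))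
    have h1 := hx Ω φ hφ
    have h2 : ∑ ζ ∈ rts φ π, ext φ ζ U / (ext φ ζ G * ext φ ζ (pderiv 0 π)) =
        (∑ ζ ∈ rts φ π, (r.map φ).eval ζ / ext φ ζ (pderiv 0 π)) / (φ c ^ s * φ ρ) := by
      rw [Finset.sum_div]
      apply Finset.sum_congr rfl
      intro ζ hζ
      rw [mem_rts hφ hπ.ne_zero] at hζ
      have h3 := ext_ne_zero hπ hdeg hGnd hφ hζ
      have h4 := ext_pderiv_ne_zero hπ hdeg hφ hζ
      have h5 : ext φ ζ G * ext φ ζ v = φ ρ := by
        have := congrArg (ext φ ζ) he
        rw [map_add, map_mul, map_mul, hζ, zero_mul, zero_add, ext_inc] at this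
        exact this
      have h6 : φ c ^ s * ext φ ζ (U * v) = (r.map φ).eval ζ := by
        have := congrArg (fun f => (f.map φ).eval ζ) hdiv
        simp only [Polynomial.map_mul, Polynomial.map_add, Polynomial.map_C, Polynomial.eval_mul,
          Polynomial.eval_add, Polynomial.eval_C, map_pow, Polynomial.map_pow,
          Polynomial.eval_pow] at this
        rw [← ext_eq, ← ext_eq, hζ, zero_mul, zero_add] at this
        exact this
      have hv0 : ext φ ζ v ≠ 0 := by
        intro h; rw [h, mul_zero] at h5; exact hρ' h5.symm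
      rw [← h6, map_mul, ← h5]
      field_simp
    have hrd : (r.map φ).natDegree < (fs π).natDegree :=
      lt_of_le_of_lt Polynomial.natDegree_map_le hr
    rw [h2, lag_sum hπ hdeg hφ _ hrd, Polynomial.coeff_map, ← hc] at h1
    apply (IsFractionRing.lift hφ).injective
    rw [map_mul, IsFractionRing.lift_algebraMap, IsFractionRing.lift_algebraMap, h1, map_mul,
      map_pow]
    field_simp
    ring
  have key := key0 (AlgebraicClosure (Fr k M))
    ((algebraMap (Fr k M) (AlgebraicClosure (Fr k M))).comp (algebraMap (Pol k M) (Fr k M)))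
    ((algebraMap (Fr k M) (AlgebraicClosure (Fr k M))).injective.comp am_inj)
  refine hasVal_zero_of ?_ key ?_
  · rw [map_mul, map_pow]
    refine mul_ne_zero (pow_ne_zero _ ?_) (hθρ L θ hth)
    exact hth _ (inc_ne hc0) (by
      rw [totalDegree_inc]
      exact (totalDegree_coeff_fs_le π _).trans hπB)
  · -- coefficients
    set ψ : Pol k M →+* L := θ.comp (inc M) with hψ
    have hUz : (fs U).map ψ = 0 := by
      ext i
      rw [Polynomial.coeff_map, Polynomial.coeff_zero]
      exact hst.coeff hU i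
    have hUv : (fs (U * v)).map ψ = 0 := by
      have : fs (U * v) = fs U * fs v := by unfold fs; rw [map_mul]
      rw [this, Polynomial.map_mul, hUz, zero_mul]
    have hlc : ψ (fs π).leadingCoeff ≠ 0 := by
      exact hth _ (inc_ne hc0) (by
        rw [totalDegree_inc]
        exact (totalDegree_coeff_fs_le π _).trans hπB)
    have h7 := map_rem_zero hlc hdiv hr hUv
    have h8 := congrArg (fun f => Polynomial.coeff f ((fs π).natDegree - 1)) h7
    simpa [Polynomial.coeff_map] using h8

/-- **The residue lemma** -/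
theorem trRes_of_bassTate [CharZero k] {n d d' : ℕ} (hBT : BassTate k n d d') :
    TrRes k n d d' (2 * d * d + d) := by
  intro M a π hπ hdeg hπd V hV
  obtain ⟨x, hx, U, G, hG, hVU, hs⟩ :=
    hasRes_of_mem (B := 2 * d * d + d) hBT (by omega) a hπ hdeg hπd hV
  refine ⟨x, hx, ?_, ?_⟩
  · intro U' G' hG' hV' Ω _ _ φ hφ
    rw [hs Ω φ hφ]
    apply Finset.sum_congr rfl
    intro ζ hζ
    rw [mem_rts hφ hπ.ne_zero] at hζ
    rw [← div_div, ← div_div,
      div_eq_of_repr hπ hdeg (hG.not_dvd hdeg) hG' hVU hV' hφ hζ]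
  · intro L _ θ hst hth hval
    exact hasVal_res hπ hdeg (by omega) hG hVU hs a hst hth hval

end LF
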