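import Pool.Agent.Helper6.LF.Fs

/-!
Coprimality, roots, and Lagrange sums.
-/

open MvPolynomial

namespace LF

universe u

variable {k : Type u} [Field k] {M n : ℕ} {L : Type u} [Field L]

theorem totalDegree_det_le {σ : Type*} {n D : ℕ} (A : Matrix (Fin n) (Fin n) (MvPolynomial σ k))
    (h : ∀ i j, (A i j).totalDegree ≤ D) : A.det.totalDegree ≤ n * D := by
  rw [Matrix.det_apply]
  apply totalDegree_finsetSum_le
  intro s _
  have h1 : (∏ i, A (s i) i).totalDegree ≤ n * D := by
    apply (totalDegree_finsetProd _ _).trans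
    calc ∑ i, (A (s i) i).totalDegree ≤ ∑ _i : Fin n, D := Finset.sum_le_sum fun i _ => h _ _
      _ = n * D := by simp
  rcases Int.units_eq_one_or (Equiv.Perm.sign s) with hs | hs
  · rw [hs, one_smul]; exact h1
  · rw [hs]
    simpa using h1

theorem totalDegree_resultant_le (f g : Pol k (M + 1)) {d : ℕ} (hf : f.totalDegree ≤ d)
    (hg : g.totalDegree ≤ d) :
    (Polynomial.resultant (fs f) (fs g)).totalDegree ≤ 2 * d * d := by
  unfold Polynomial.resultant
  refine (totalDegree_det_le (D := d) _ ?_).trans ?_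
  · intro i j
    induction j using Fin.addCases with
    | left j =>
      simp only [Polynomial.sylvester, Matrix.of_apply, Fin.addCases_left]
      split_ifs
      · exact (totalDegree_coeff_fs_le g _).trans hg
      · simp
    | right j =>
      simp only [Polynomial.sylvester, Matrix.of_apply, Fin.addCases_right]
      split_ifs
      · exact (totalDegree_coeff_fs_le f _).trans hf
      · simp
  · apply Nat.mul_le_mul_right
    have h1 := (natDegree_fs_le f).trans hf
    have h2 := (natDegree_fs_le g).trans hg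
    omega

theorem fs_dvd {f g : Pol k (M + 1)} : fs f ∣ fs g ↔ f ∣ g := by
  constructor
  · rintro ⟨q, hq⟩
    refine ⟨(finSuccEquiv k M).symm q, fs_inj ?_⟩
    rw [hq]
    unfold fs
    rw [map_mul, AlgEquiv.apply_symm_apply]
  · rintro ⟨q, rfl⟩
    exact ⟨fs q, by unfold fs; rw [map_mul]⟩

theorem fs_irreducible {f : Pol k (M + 1)} (h : Irreducible f) : Irreducible (fs f) :=
  (MulEquiv.irreducible_iff (finSuccEquiv k M).toMulEquiv).2 h

/-- an irreducible polynomial of positive degree in `X 0` stays coprime to what it does not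
divide, over the fraction field -/
theorem isCoprime_map {π h : Pol k (M + 1)} (hπ : Irreducible π) (hdeg : 0 < (fs π).natDegree)
    (hnd : ¬ π ∣ h) :
    IsCoprime ((fs π).map (algebraMap (Pol k M) (Fr k M)))
      ((fs h).map (algebraMap (Pol k M) (Fr k M))) := by
  classical
  let _ : NormalizedGCDMonoid (Pol k M) :=
    Classical.choice (inferInstance : Nonempty (NormalizedGCDMonoid (Pol k M)))
  have hirr := fs_irreducible hπ
  have hprim : (fs π).IsPrimitive := hirr.isPrimitive hdeg.ne'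
  have hirr' : Irreducible ((fs π).map (algebraMap (Pol k M) (Fr k M))) :=
    (Polynomial.IsPrimitive.irreducible_iff_irreducible_map_fraction_map hprim).1 hirr
  rw [hirr'.coprime_iff_not_dvd]
  intro hd
  apply hnd
  rw [← fs_dvd]
  exact hprim.dvd_of_fraction_map_dvd_fraction_map hd

/-- Bezout relation with a nonzero constant of bounded degree -/
theorem exists_bezout {π h : Pol k (M + 1)} (hπ : Irreducible π) (hdeg : 0 < (fs π).natDegree)
    (hnd : ¬ π ∣ h) : ∃ (u v : Pol k (M + 1)) (ρ : Pol k M), ρ ≠ 0 ∧ π * u + h * v = inc M ρ ∧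
      ∀ d, π.totalDegree ≤ d → h.totalDegree ≤ d → ρ.totalDegree ≤ 2 * d * d := by
  obtain ⟨p, q, -, -, hpq⟩ := Polynomial.exists_mul_add_mul_eq_C_resultant (fs π) (fs h) le_rfl
    le_rfl (Or.inl hdeg.ne')
  refine ⟨(finSuccEquiv k M).symm p, (finSuccEquiv k M).symm q,
    Polynomial.resultant (fs π) (fs h), ?_, ?_, ?_⟩
  · have hco := isCoprime_map hπ hdeg hnd
    intro h0
    have h1 := Polynomial.resultant_map_map (fs π) (fs h) (fs π).natDegree (fs h).natDegree
      (algebraMap (Pol k M) (Fr k M))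
    rw [h0, map_zero] at h1
    have h2 := (Polynomial.resultant_eq_zero_iff
      (f := (fs π).map (algebraMap (Pol k M) (Fr k M)))
      (g := (fs h).map (algebraMap (Pol k M) (Fr k M)))).1 (by
        rw [Polynomial.natDegree_map_eq_of_injective am_inj,
          Polynomial.natDegree_map_eq_of_injective am_inj]
        exact h1)
    exact h2.2 hco
  · apply fs_inj
    rw [fs_inc, ← hpq]
    unfold fs
    rw [map_add, map_mul, map_mul, AlgEquiv.apply_symm_apply, AlgEquiv.apply_symm_apply]
  · intro d h1 h2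
    exact totalDegree_resultant_le π h h1 h2

/-- values at the roots of `π` of polynomials not divisible by `π` -/
theorem ext_ne_zero {π h : Pol k (M + 1)} (hπ : Irreducible π) (hdeg : 0 < (fs π).natDegree)
    (hnd : ¬ π ∣ h) {φ : Pol k M →+* L} (hφ : Function.Injective φ) {ζ : L}
    (hζ : ext φ ζ π = 0) : ext φ ζ h ≠ 0 := by
  obtain ⟨u, v, ρ, hρ, he, -⟩ := exists_bezout hπ hdeg hnd
  intro h0
  have := congrArg (ext φ ζ) he
  rw [map_add, map_mul, map_mul, hζ, h0, zero_mul, zero_mul, add_zero, ext_inc] at this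
  exact hρ (hφ (by rw [← this, map_zero]))

open Classical in
theorem mem_rts {φ : Pol k M →+* L} (hφ : Function.Injective φ) {π : Pol k (M + 1)} (hπ : π ≠ 0)
    {ζ : L} : ζ ∈ rts φ π ↔ ext φ ζ π = 0 := by
  unfold rts
  rw [Multiset.mem_toFinset, Polynomial.mem_roots', ext_eq]
  constructor
  · rintro ⟨_, h⟩; exact h
  · intro h
    refine ⟨?_, h⟩
    rw [Ne, Polynomial.map_eq_zero_iff hφ]
    exact fs_ne hπ

theorem not_dvd_pderiv_zero [CharZero k] {π : Pol k (M + 1)} (hdeg : 0 < (fs π).natDegree) :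
    ¬ π ∣ pderiv 0 π := by
  intro hd
  rw [← fs_dvd, fs_pderiv_zero] at hd
  have hne : Polynomial.derivative (fs π) ≠ 0 := by
    intro h0
    have := Polynomial.derivative_eq_zero.1 h0
    omega
  have := Polynomial.natDegree_le_of_dvd hd hne
  have h2 := Polynomial.natDegree_derivative_lt hdeg.ne'
  omega

theorem ext_pderiv_ne_zero [CharZero k] {π : Pol k (M + 1)} (hπ : Irreducible π)
    (hdeg : 0 < (fs π).natDegree) {φ : Pol k M →+* L} (hφ : Function.Injective φ) {ζ : L}
    (hζ : ext φ ζ π = 0) : ext φ ζ (pderiv 0 π) ≠ 0 :=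
  ext_ne_zero hπ hdeg (not_dvd_pderiv_zero hdeg) hφ hζ

theorem separable_map [CharZero k] {π : Pol k (M + 1)} (hπ : Irreducible π)
    (hdeg : 0 < (fs π).natDegree) {φ : Pol k M →+* L} (hφ : Function.Injective φ) :
    ((fs π).map φ).Separable := by
  obtain ⟨u, v, ρ, hρ, he, -⟩ := exists_bezout hπ hdeg (not_dvd_pderiv_zero hdeg)
  have hρ' : φ ρ ≠ 0 := fun h0 => hρ (hφ (by rw [h0, map_zero]))
  have h1 := congrArg (fun f => (fs f).map φ) he
  beta_reduce at h1
  rw [fs_inc, Polynomial.map_C] at h1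
  have h2 : fs (π * u + pderiv 0 π * v) = fs π * fs u + Polynomial.derivative (fs π) * fs v := by
    rw [← fs_pderiv_zero]; unfold fs; rw [map_add, map_mul, map_mul]
  rw [h2, Polynomial.map_add, Polynomial.map_mul, Polynomial.map_mul] at h1
  refine ⟨Polynomial.C (φ ρ)⁻¹ * (fs u).map φ, Polynomial.C (φ ρ)⁻¹ * (fs v).map φ, ?_⟩
  rw [← Polynomial.derivative_map] at h1
  have h3 : Polynomial.C (φ ρ)⁻¹ * Polynomial.C (φ ρ) = 1 := by
    rw [← Polynomial.C_mul, inv_mul_cancel₀ hρ', Polynomial.C_1]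
  rw [← h3, ← h1]
  ring

theorem map_eq_prod_rts [CharZero k] [IsAlgClosed L] {π : Pol k (M + 1)} (hπ : Irreducible π)
    (hdeg : 0 < (fs π).natDegree) {φ : Pol k M →+* L} (hφ : Function.Injective φ) :
    (fs π).map φ = Polynomial.C (φ (fs π).leadingCoeff) *
      Lagrange.nodal (rts φ π) (fun ζ => ζ) ∧ (rts φ π).card = (fs π).natDegree := by
  classical
  have hsep := separable_map hπ hdeg hφ
  have hnd := Polynomial.nodup_roots hsep
  have hsplit : ((fs π).map φ).Splits := IsAlgClosed.splits _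
  have hcard : Multiset.card ((fs π).map φ).roots = (fs π).natDegree := by
    rw [← Polynomial.natDegree_map_eq_of_injective hφ (fs π)]
    exact hsplit.natDegree_eq_card_roots.symm
  constructor
  · have h1 := hsplit.eq_prod_roots
    rw [Polynomial.leadingCoeff_map_of_injective hφ] at h1
    rw [h1]
    congr 1
    rw [Lagrange.nodal_eq]
    have : (rts φ π).val = ((fs π).map φ).roots := by
      unfold rts
      rw [Multiset.toFinset_val]
      convert hnd.dedup
    rw [Finset.prod, this]
  · rw [← hcard]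
    unfold rts
    have := Multiset.toFinset_card_of_nodup hnd
    convert this

/-! ### Lagrange sums -/

theorem ext_pderiv_eq [DecidableEq L] [CharZero k] [IsAlgClosed L] {π : Pol k (M + 1)} (hπ : Irreducible π)
    (hdeg : 0 < (fs π).natDegree) {φ : Pol k M →+* L} (hφ : Function.Injective φ) {ζ : L}
    (hζ : ζ ∈ rts φ π) : ext φ ζ (pderiv 0 π) = φ (fs π).leadingCoeff *
      (Lagrange.nodalWeight (rts φ π) (fun ζ => ζ) ζ)⁻¹ := by
  rw [ext_eq, fs_pderiv_zero, ← Polynomial.derivative_map, (map_eq_prod_rts hπ hdeg hφ).1,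
    Polynomial.derivative_C_mul, Polynomial.eval_mul, Polynomial.eval_C,
    Lagrange.nodalWeight_eq_eval_derivative_nodal hζ, inv_inv]

theorem lag_sum [CharZero k] [IsAlgClosed L] {π : Pol k (M + 1)} (hπ : Irreducible π)
    (hdeg : 0 < (fs π).natDegree) {φ : Pol k M →+* L} (hφ : Function.Injective φ)
    (r : Polynomial L) (hr : r.natDegree < (fs π).natDegree) :
    ∑ ζ ∈ rts φ π, r.eval ζ / ext φ ζ (pderiv 0 π) =
      r.coeff ((fs π).natDegree - 1) / φ (fs π).leadingCoeff := by
  classical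
  have hcard := (map_eq_prod_rts hπ hdeg hφ).2
  have hr' : r.degree < ((rts φ π).card : WithBot ℕ) := by
    rw [hcard]
    exact (Polynomial.degree_le_natDegree).trans_lt (by exact_mod_cast hr)
  have h1 := Lagrange.coeff_eq_sum (s := rts φ π) (v := fun ζ => ζ)
    (Function.injective_id.injOn) hr'
  rw [hcard] at h1
  rw [h1, Finset.sum_div]
  apply Finset.sum_congr rfl
  intro ζ hζ
  rw [ext_pderiv_eq hπ hdeg hφ hζ]
  have h2 : ∏ j ∈ (rts φ π).erase ζ, (ζ - j) =
      (Lagrange.nodalWeight (rts φ π) (fun ζ => ζ) ζ)⁻¹ := by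
    unfold Lagrange.nodalWeight
    rw [Finset.prod_inv_distrib, inv_inv]
  rw [h2, div_div, mul_comm (φ _)]

theorem lag_sum_sub [CharZero k] [IsAlgClosed L] {π : Pol k (M + 1)} (hπ : Irreducible π)
    (hdeg : 0 < (fs π).natDegree) {φ : Pol k M →+* L} (hφ : Function.Injective φ)
    (r : Polynomial L) (hr : r.natDegree < (fs π).natDegree) (t : L)
    (ht : ∀ ζ ∈ rts φ π, t ≠ ζ) :
    ∑ ζ ∈ rts φ π, r.eval ζ / (ext φ ζ (pderiv 0 π) * (t - ζ)) =
      r.eval t / ((fs π).map φ).eval t := by
  classical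
  obtain ⟨hprod, hcard⟩ := map_eq_prod_rts hπ hdeg hφ
  have hr' : r.degree < ((rts φ π).card : WithBot ℕ) := by
    rw [hcard]
    exact (Polynomial.degree_le_natDegree).trans_lt (by exact_mod_cast hr)
  have h0 := Lagrange.eq_interpolate (s := rts φ π) (v := fun ζ => ζ)
    (Function.injective_id.injOn) hr'
  have h1 := Lagrange.eval_interpolate_not_at_node (s := rts φ π) (v := fun ζ => ζ)
    (r := fun ζ => r.eval ζ) ht
  rw [← h0] at h1
  have ha : φ (fs π).leadingCoeff ≠ 0 := by
    intro h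
    have h2 : fs π ≠ 0 := fs_ne hπ.ne_zero
    exact h2 (Polynomial.leadingCoeff_eq_zero.1 (hφ (by rw [h, map_zero])))
  have hn : Polynomial.eval t (Lagrange.nodal (rts φ π) fun ζ => ζ) ≠ 0 :=
    Lagrange.eval_nodal_not_at_node ht
  rw [h1, hprod, Polynomial.eval_mul, Polynomial.eval_C]
  rw [mul_comm (φ _) (Polynomial.eval t _), mul_div_mul_left _ _ hn, Finset.sum_div]
  apply Finset.sum_congr rfl
  intro ζ hζ
  rw [ext_pderiv_eq hπ hdeg hφ hζ]
  have hw : Lagrange.nodalWeight (rts φ π) (fun ζ => ζ) ζ ≠ 0 :=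
    Lagrange.nodalWeight_ne_zero (Function.injective_id.injOn) hζ
  have htz : t - ζ ≠ 0 := sub_ne_zero.2 (ht ζ hζ)
  field_simp

end LF
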