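import Pool.Agent.Helper6.LF.LMain
import Pool.Agent.Helper8.PL.Rig
import Pool.Agent.Helper8.PL.Irr
import Pool.Agent.Helper8.PL.Core
import Pool.Agent.Helper5.L.Norm

/-!
The local principle [L], residue version.
-/

namespace LF

universe u

/-- **Theorem L(N)** for every field of characteristic zero -/
theorem thmL (K : Type u) [Field K] [CharZero K] (N : ℕ) : ThmL K N :=
  thmL_of (Rig.stRig K) (Rig.stIrr K) (Rig.stCore K) (stNorm K) N

end LF
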