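import Pool.Agent.Helper6.LF.Defs

/-!
Values of rational functions at a place; regularity at a prime; transport along injective maps.
-/

open MvPolynomial

namespace LF

universe u

variable {k : Type u} [Field k] {M : ℕ} {L : Type u} [Field L]

theorem am_inj : Function.Injective (algebraMap (Pol k M) (Fr k M)) :=
  IsFractionRing.injective _ _

theorem am_ne {f : Pol k M} (h : f ≠ 0) : algebraMap (Pol k M) (Fr k M) f ≠ 0 := by
  intro h0
  exact h (am_inj (by rw [h0, map_zero]))

theorem am_eq_zero {f : Pol k M} : algebraMap (Pol k M) (Fr k M) f = 0 ↔ f = 0 :=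
  ⟨fun h => am_inj (by rw [h, map_zero]), fun h => by rw [h, map_zero]⟩

/-! ### HasVal -/

theorem HasVal.unique {θ : Pol k M →+* L} {V : Fr k M} {y y' : L} (h : HasVal θ V y)
    (h' : HasVal θ V y') : y = y' := by
  obtain ⟨U, G, hG, hV, hy⟩ := h
  obtain ⟨U', G', hG', hV', hy'⟩ := h'
  have e : U * G' = U' * G := by
    apply am_inj
    rw [map_mul, map_mul, ← hV, ← hV']
    ring
  have e2 := congrArg θ e
  rw [map_mul, map_mul, ← hy, ← hy'] at e2
  have : (y - y') * (θ G * θ G') = 0 := by linear_combination e2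
  rcases mul_eq_zero.1 this with h | h
  · exact sub_eq_zero.1 h
  · exact absurd h (mul_ne_zero hG hG')

theorem hasVal_am (θ : Pol k M →+* L) (f : Pol k M) :
    HasVal θ (algebraMap _ _ f) (θ f) :=
  ⟨f, 1, by simp, by simp, by simp⟩

theorem HasVal.add {θ : Pol k M →+* L} {V V' : Fr k M} {y y' : L} (h : HasVal θ V y)
    (h' : HasVal θ V' y') : HasVal θ (V + V') (y + y') := by
  obtain ⟨U, G, hG, hV, hy⟩ := h
  obtain ⟨U', G', hG', hV', hy'⟩ := h'
  refine ⟨U * G' + U' * G, G * G', ?_, ?_, ?_⟩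
  · rw [map_mul]; exact mul_ne_zero hG hG'
  · rw [map_add, map_mul, map_mul, map_mul, ← hV, ← hV']; ring
  · rw [map_add, map_mul, map_mul, map_mul, ← hy, ← hy']; ring

theorem HasVal.mul {θ : Pol k M →+* L} {V V' : Fr k M} {y y' : L} (h : HasVal θ V y)
    (h' : HasVal θ V' y') : HasVal θ (V * V') (y * y') := by
  obtain ⟨U, G, hG, hV, hy⟩ := h
  obtain ⟨U', G', hG', hV', hy'⟩ := h'
  refine ⟨U * U', G * G', ?_, ?_, ?_⟩
  · rw [map_mul]; exact mul_ne_zero hG hG'
  · rw [map_mul, map_mul, ← hV, ← hV']; ring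
  · rw [map_mul, map_mul, ← hy, ← hy']; ring

theorem HasVal.neg {θ : Pol k M →+* L} {V : Fr k M} {y : L} (h : HasVal θ V y) :
    HasVal θ (-V) (-y) := by
  obtain ⟨U, G, hG, hV, hy⟩ := h
  refine ⟨-U, G, hG, ?_, ?_⟩
  · rw [map_neg, ← hV]; ring
  · rw [map_neg, ← hy]; ring

theorem HasVal.div {θ : Pol k M →+* L} {V V' : Fr k M} {y y' : L} (h : HasVal θ V y)
    (h' : HasVal θ V' y') (hy0 : y' ≠ 0) : HasVal θ (V / V') (y / y') := by
  obtain ⟨U, G, hG, hV, hy⟩ := h
  obtain ⟨U', G', hG', hV', hy'⟩ := h'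
  have hU' : θ U' ≠ 0 := by rw [← hy']; exact mul_ne_zero hy0 hG'
  have hU'0 : U' ≠ 0 := by rintro rfl; simp at hU'
  have hG'0 : G' ≠ 0 := by rintro rfl; simp at hG'
  have hV'0 : V' ≠ 0 := by
    rintro rfl
    rw [zero_mul] at hV'
    exact am_ne hU'0 hV'.symm
  refine ⟨U * G', G * U', ?_, ?_, ?_⟩
  · rw [map_mul]; exact mul_ne_zero hG hU'
  · rw [map_mul, map_mul, ← hV, ← hV']
    field_simp
  · rw [map_mul, map_mul, ← hy, ← hy']
    field_simp

theorem HasVal.smul {θ : Pol k M →+* L} {V : Fr k M} {y : L} (c : k) (h : HasVal θ V y) :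
    HasVal θ (c • V) (θ (C c) * y) := by
  have : c • V = algebraMap (Pol k M) (Fr k M) (C c) * V := by
    rw [Algebra.smul_def, IsScalarTower.algebraMap_apply k (Pol k M) (Fr k M)]
    rfl
  rw [this]
  exact (hasVal_am θ _).mul h

theorem smul_eq (c : k) (V : Fr k M) : c • V = algebraMap (Pol k M) (Fr k M) (C c) * V := by
  rw [Algebra.smul_def, IsScalarTower.algebraMap_apply k (Pol k M) (Fr k M)]
  rfl

theorem hasVal_zero (θ : Pol k M →+* L) : HasVal θ (0 : Fr k M) 0 := by
  have := hasVal_am (L := L) θ 0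
  simpa using this

theorem hasVal_one (θ : Pol k M →+* L) : HasVal θ (1 : Fr k M) 1 := by
  have := hasVal_am (L := L) θ 1
  simpa using this

theorem hasVal_sum {ι : Type*} {θ : Pol k M →+* L} (s : Finset ι) (V : ι → Fr k M) (y : ι → L)
    (h : ∀ i ∈ s, HasVal θ (V i) (y i)) : HasVal θ (∑ i ∈ s, V i) (∑ i ∈ s, y i) := by
  classical
  induction s using Finset.induction_on with
  | empty => simpa using hasVal_zero θ
  | insert a s ha ih =>
    rw [Finset.sum_insert ha, Finset.sum_insert ha]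
    exact (h a (Finset.mem_insert_self _ _)).add (ih fun i hi => h i (Finset.mem_insert_of_mem hi))

theorem hasVal_prod {ι : Type*} {θ : Pol k M →+* L} (s : Finset ι) (V : ι → Fr k M) (y : ι → L)
    (h : ∀ i ∈ s, HasVal θ (V i) (y i)) : HasVal θ (∏ i ∈ s, V i) (∏ i ∈ s, y i) := by
  classical
  induction s using Finset.induction_on with
  | empty => simpa using hasVal_one θ
  | insert a s ha ih =>
    rw [Finset.prod_insert ha, Finset.prod_insert ha]
    exact (h a (Finset.mem_insert_self _ _)).mul (ih fun i hi => h i (Finset.mem_insert_of_mem hi))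

theorem hasVal_det {n : ℕ} {θ : Pol k M →+* L} (A : Matrix (Fin n) (Fin n) (Fr k M))
    (B : Matrix (Fin n) (Fin n) L) (h : ∀ i j, HasVal θ (A i j) (B i j)) :
    HasVal θ A.det B.det := by
  classical
  rw [Matrix.det_apply, Matrix.det_apply]
  apply hasVal_sum
  intro σ _
  have h1 : HasVal θ (∏ i, A (σ i) i) (∏ i, B (σ i) i) :=
    hasVal_prod _ _ _ fun i _ => h _ _
  rcases Int.units_eq_one_or (Equiv.Perm.sign σ) with hs | hs
  · rw [hs, one_smul, one_smul]; exact h1
  · rw [hs]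
    simpa using h1.neg

/-- values with respect to a larger field -/
theorem HasVal.comp {L' : Type u} [Field L'] (j : L →+* L') {θ : Pol k M →+* L} {V : Fr k M}
    {y : L} (h : HasVal θ V y) : HasVal (j.comp θ) V (j y) := by
  obtain ⟨U, G, hG, hV, hy⟩ := h
  refine ⟨U, G, ?_, hV, ?_⟩
  · simpa using hG
  · simp only [RingHom.comp_apply]
    rw [← hy, map_mul]

theorem HasVal.of_comp {L' : Type u} [Field L'] (j : L →+* L') {θ : Pol k M →+* L} {V : Fr k M}
    (h : HasVal (j.comp θ) V 0) : HasVal θ V 0 := by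
  obtain ⟨U, G, hG, hV, hy⟩ := h
  refine ⟨U, G, ?_, hV, ?_⟩
  · simpa using hG
  · simp only [RingHom.comp_apply, zero_mul] at hy
    rw [zero_mul]
    exact ((map_eq_zero j).1 hy.symm).symm

/-- numerator criterion -/
theorem HasVal.num {θ : Pol k M →+* L} {V : Fr k M} (h : HasVal θ V 0) {U G : Pol k M}
    (hV : V * algebraMap _ _ G = algebraMap _ _ U) : θ U = 0 := by
  obtain ⟨U', G', hG', hV', hy⟩ := h
  have e : U' * G = U * G' := by
    apply am_inj
    rw [map_mul, map_mul, ← hV', ← hV]; ring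
  have e2 := congrArg θ e
  rw [map_mul, map_mul, ← hy, zero_mul, zero_mul] at e2
  exact (mul_eq_zero.1 e2.symm).resolve_right hG'

theorem hasVal_zero_of {θ : Pol k M →+* L} {V : Fr k M} {U G : Pol k M} (hG : θ G ≠ 0)
    (hV : V * algebraMap _ _ G = algebraMap _ _ U) (hU : θ U = 0) : HasVal θ V 0 :=
  ⟨U, G, hG, hV, by rw [hU, zero_mul]⟩

/-- log-Jacobians have the expected value -/
theorem hasVal_J {n : ℕ} {θ : Pol k M →+* L} (a : Fin n → Fin M) (f : Fin n → Pol k M)
    (h : ∀ i, θ (f i) ≠ 0) : HasVal θ (J (algebraMap (Pol k M) (Fr k M)) a f) (J θ a f) := by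
  apply hasVal_det
  intro i j
  exact (hasVal_am θ _).div (hasVal_am θ _) (h i)

/-! ### transport along an injective ring map -/

/-- the extension of an injective ring map to the fraction fields -/
noncomputable def hat {M M' : ℕ} {g : Pol k M →+* Pol k M'} (hg : Function.Injective g) :
    Fr k M →+* Fr k M' :=
  IsFractionRing.lift (g := (algebraMap (Pol k M') (Fr k M')).comp g)
    ((am_inj (k := k) (M := M')).comp hg)

theorem hat_am {M M' : ℕ} {g : Pol k M →+* Pol k M'} (hg : Function.Injective g) (f : Pol k M) :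
    hat hg (algebraMap _ _ f) = algebraMap _ _ (g f) := by
  unfold hat
  rw [IsFractionRing.lift_algebraMap]
  rfl

theorem exists_frac (V : Fr k M) : ∃ U G : Pol k M, G ≠ 0 ∧
    V * algebraMap _ _ G = algebraMap _ _ U := by
  obtain ⟨U, G, hG, rfl⟩ := IsFractionRing.div_surjective (A := Pol k M) V
  have hG0 : G ≠ 0 := nonZeroDivisors.ne_zero hG
  refine ⟨U, G, hG0, ?_⟩
  field_simp [am_ne hG0]

theorem hasVal_hat {M M' : ℕ} {g : Pol k M →+* Pol k M'} (hg : Function.Injective g)
    {θ : Pol k M' →+* L} {V : Fr k M} {y : L} (h : HasVal (θ.comp g) V y) :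
    HasVal θ (hat hg V) y := by
  obtain ⟨U, G, hG, hV, hy⟩ := h
  refine ⟨g U, g G, hG, ?_, hy⟩
  have := congrArg (hat hg) hV
  rw [map_mul, hat_am, hat_am] at this
  exact this

/-! ### regularity at a prime -/

/-- `V` is regular at the prime `p` -/
def Reg (p : Pol k M) (V : Fr k M) : Prop :=
  ∃ U G : Pol k M, ¬ p ∣ G ∧ V * algebraMap _ _ G = algebraMap _ _ U

theorem Reg.add {p : Pol k M} (hp : Prime p) {V V' : Fr k M} (h : Reg p V) (h' : Reg p V') :
    Reg p (V + V') := by
  obtain ⟨U, G, hG, hV⟩ := h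
  obtain ⟨U', G', hG', hV'⟩ := h'
  refine ⟨U * G' + U' * G, G * G', ?_, ?_⟩
  · intro hd
    rcases hp.dvd_or_dvd hd with h | h
    · exact hG h
    · exact hG' h
  · rw [map_add, map_mul, map_mul, map_mul, ← hV, ← hV']; ring

theorem reg_zero {p : Pol k M} (hp : Prime p) : Reg p (0 : Fr k M) :=
  ⟨0, 1, hp.not_dvd_one, by simp⟩

theorem Reg.smul {p : Pol k M} {V : Fr k M} (c : k) (h : Reg p V) : Reg p (c • V) := by
  obtain ⟨U, G, hG, hV⟩ := h
  refine ⟨C c * U, G, hG, ?_⟩
  rw [smul_eq, map_mul, ← hV]; ring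

end LF
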